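import Pool.Agent.R965.CS.Lat
import Pool.Agent.Y995.HG.UpS

/-!
Project CS: almost sure statements.
-/

set_option autoImplicit false
set_option linter.unusedVariables false

namespace Pool.Agent.R965.CS

open H974 Finset H984P H984N Pool.Agent.Y995.FS Pool.Agent.Y995.HG Pool.Agent.Y41.EV
open MeasureTheory Filter Topology
open scoped ENNReal NNReal

/-! ### Typical times -/

/-- the exponential factor -/
noncomputable def E3 (K3 : ℝ) (kk : ℕ) : ℝ := Real.exp (2 * (K3 * (kk:ℝ) ^ 2))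

/-- the bad set of the scale `i` -/
def BadI (κ K3 A0 : ℝ) (R : Rect) (ρ : ℝ) (i : ℕ) : Set X :=
  BadC R ρ (ww i) (κ * (((kq K3 i : ℕ) : ℝ) ^ (1/4 : ℝ) * ww i ^ (7/4 : ℝ)))
    (A0 * ((ww i * Real.exp (2 * (K3 * ((kq K3 i : ℕ) : ℝ) ^ 2))) ^ (7/4 : ℝ) * NN i)) (NN i)

theorem ae_typ {κ K3 A0 A : ℝ} (hK : 1 ≤ K3) (hA0 : 1 ≤ A0) {R : Rect} (hA : 0 < A)
    (hlat : LatC κ K3 A0 R A) {δ : ℕ → ℝ} (hδ : ∀ i, 0 < δ i) (hlim : Tendsto δ atTop (𝓝 0))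
    {μ : ProbabilityMeasure X} (hμ : Tendsto (fun i => R.law (δ i)) atTop (𝓝 μ)) :
    ∀ᵐ p ∂(μ : Measure X), ∀ k : ℕ, ∀ᶠ i : ℕ in atTop,
      p ∉ BadI κ K3 A0 R (1 / ((k : ℝ) + 1)) i := by
  refine bc R (K := 1) le_rfl (B := fun ρ i => BadI κ K3 A0 R ρ i)
    (fun ρ i => badC_open R _ _ _ _ _) (fun ρ hρ => ?_) hδ hlim hμ
  have h1 : ∀ᶠ i : ℕ in atTop, 20 ≤ i ∧ 20 ≤ kq K3 i ∧
      A0 * (ww i * Real.exp (2 * (K3 * ((kq K3 i : ℕ) : ℝ) ^ 2))) ≤ ρ :=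
    (eventually_ge_atTop 20).and (((kq_tend hK).eventually (eventually_ge_atTop 20)).and
      (ev_rho hK (by linarith) hρ))
  rw [eventually_atTop] at h1
  obtain ⟨j1, hj1⟩ := h1
  refine ⟨A, j1, hA, fun j hj => ?_⟩
  obtain ⟨g1, g2, g3⟩ := hj1 j hj
  obtain ⟨δ1, hδ1, h4⟩ := hlat (kq K3 j) (NN j) (ww j) ρ g2
    (by have := NN_big g1; omega) (ww_pos j)
    ((ww_le (by omega)).trans (by
      have : ((1:ℝ)/2) ^ (2 * j) ≤ (1/2) ^ 1 :=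
        pow_le_pow_of_le_one (by norm_num) (by norm_num) (by omega)
      simpa using this)) g3
  refine ⟨δ1, hδ1, fun δ hδ hδ' => ?_⟩
  exact (h4 δ hδ hδ').trans (pr_bound hA g1)

/-! ### All arcs -/

/-- number of teeth -/
noncomputable def kB (K3 : ℝ) (j : ℕ) : ℕ := Nat.sqrt ⌊(j : ℝ) / (8 * K3)⌋₊

theorem kB_sq {K3 : ℝ} (hK : 1 ≤ K3) (j : ℕ) : 8 * K3 * ((kB K3 j : ℕ) : ℝ) ^ 2 ≤ j := by
  have h1 : kB K3 j * kB K3 j ≤ ⌊(j : ℝ) / (8 * K3)⌋₊ := Nat.sqrt_le _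
  have h2 : ((⌊(j : ℝ) / (8 * K3)⌋₊ : ℕ) : ℝ) ≤ (j : ℝ) / (8 * K3) :=
    Nat.floor_le (by positivity)
  have h3 : (((kB K3 j * kB K3 j : ℕ)) : ℝ) ≤ (j : ℝ) / (8 * K3) :=
    le_trans (by exact_mod_cast h1) h2
  rw [le_div_iff₀ (by positivity)] at h3
  push_cast at h3
  nlinarith

theorem kB_tend {K3 : ℝ} (hK : 1 ≤ K3) : Tendsto (kB K3) atTop atTop := by
  have h1 : Tendsto (fun i : ℕ => (i : ℝ) / (8 * K3)) atTop atTop :=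
    tendsto_natCast_atTop_atTop.atTop_div_const (by linarith)
  have h2 := tendsto_nat_floor_atTop.comp h1
  have h3 : Tendsto Nat.sqrt atTop atTop := by
    refine tendsto_atTop.2 fun b => ?_
    filter_upwards [eventually_ge_atTop (b * b)] with n hn
    exact Nat.le_sqrt.mpr hn
  exact h3.comp h2

/-- lower bound for the number of teeth -/
theorem le_kB {K3 : ℝ} (hK : 1 ≤ K3) {j : ℕ} (hk : 1 ≤ kB K3 j) :
    (j : ℝ) ≤ 32 * K3 * (kB K3 j : ℝ) ^ 2 := by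
  obtain ⟨fl, hfl⟩ : ∃ fl, fl = ⌊(j : ℝ) / (8 * K3)⌋₊ := ⟨_, rfl⟩
  have h1 : (j : ℝ) / (8 * K3) < fl + 1 := by rw [hfl]; exact Nat.lt_floor_add_one _
  have h2 : fl < (kB K3 j + 1) * (kB K3 j + 1) := by
    unfold kB
    rw [← hfl]
    exact Nat.lt_succ_sqrt fl
  have h3 : fl + 1 ≤ 4 * (kB K3 j * kB K3 j) := by nlinarith
  have h4 : (fl : ℝ) + 1 ≤ 4 * (kB K3 j : ℝ) ^ 2 := by
    rw [sq]; exact_mod_cast h3
  rw [div_lt_iff₀ (by positivity)] at h1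
  nlinarith

theorem exB {K3 : ℝ} (hK : 1 ≤ K3) (j : ℕ) :
    Real.exp (2 * (K3 * ((kB K3 j : ℕ) : ℝ) ^ 2)) ≤ Real.exp ((j : ℝ) / 4) := by
  refine Real.exp_le_exp.mpr ?_
  have := kB_sq hK j
  linarith

/-- the decay -/
theorem decB {K3 : ℝ} (hK : 1 ≤ K3) (j : ℕ) :
    ((1:ℝ)/2) ^ j * Real.exp (2 * (K3 * ((kB K3 j : ℕ) : ℝ) ^ 2)) ≤ (2/3) ^ j := by
  have h1 := exB hK j
  have h2 : Real.exp ((j : ℝ) / 4) = Real.exp (1/4) ^ j := by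
    rw [← Real.exp_nat_mul]; congr 1; ring
  have h3 : Real.exp (1/4 : ℝ) ≤ 4/3 := by
    have h4 : Real.exp (1/4 : ℝ) ^ 4 ≤ (4/3) ^ 4 := by
      rw [← Real.exp_nat_mul]
      norm_num
      have := Real.exp_one_lt_d9
      linarith
    exact le_of_pow_le_pow_left₀ (by norm_num) (by norm_num) h4
  calc ((1:ℝ)/2) ^ j * Real.exp (2 * (K3 * ((kB K3 j : ℕ) : ℝ) ^ 2))
      ≤ (1/2) ^ j * (4/3) ^ j := by
        refine mul_le_mul_of_nonneg_left (h1.trans ?_) (by positivity)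
        rw [h2]
        exact pow_le_pow_left₀ (Real.exp_pos _).le h3 _
    _ = (2/3) ^ j := by rw [← mul_pow]; norm_num

/-- the bad set of the scale `j` -/
def BadJ (κ K3 A0 : ℝ) (R : Rect) (ρ : ℝ) (j : ℕ) : Set X :=
  BadC R ρ ((1/2) ^ j) (κ * (((kB K3 j : ℕ) : ℝ) ^ (1/4 : ℝ) * (((1:ℝ)/2) ^ j) ^ (7/4 : ℝ)))
    (A0 * ((((1:ℝ)/2) ^ j * Real.exp (2 * (K3 * ((kB K3 j : ℕ) : ℝ) ^ 2))) ^ (7/4 : ℝ) *
      ((36 + 5 * j : ℕ) : ℝ))) (36 + 5 * j)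

theorem ae_all {κ K3 A0 A : ℝ} (hK : 1 ≤ K3) (hA0 : 1 ≤ A0) {R : Rect} (hA : 0 < A)
    (hlat : LatC κ K3 A0 R A) {δ : ℕ → ℝ} (hδ : ∀ i, 0 < δ i) (hlim : Tendsto δ atTop (𝓝 0))
    {μ : ProbabilityMeasure X} (hμ : Tendsto (fun i => R.law (δ i)) atTop (𝓝 μ)) :
    ∀ᵐ p ∂(μ : Measure X), ∀ k : ℕ, ∀ᶠ j : ℕ in atTop,
      p ∉ BadJ κ K3 A0 R (1 / ((k : ℝ) + 1)) j := by
  refine bc R (K := 1) le_rfl (B := fun ρ i => BadJ κ K3 A0 R ρ i)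
    (fun ρ i => badC_open R _ _ _ _ _) (fun ρ hρ => ?_) hδ hlim hμ
  have ht : Tendsto (fun j : ℕ => A0 * ((2:ℝ)/3) ^ j) atTop (𝓝 0) := by
    have h2 : Tendsto (fun j : ℕ => ((2:ℝ)/3) ^ j) atTop (𝓝 0) :=
      tendsto_pow_atTop_nhds_zero_of_lt_one (by norm_num) (by norm_num)
    have h3 := h2.const_mul A0
    rwa [mul_zero] at h3
  have h1 : ∀ᶠ i : ℕ in atTop, 1 ≤ i ∧ 20 ≤ kB K3 i ∧ A0 * ((2:ℝ)/3) ^ i ≤ ρ :=
    (eventually_ge_atTop 1).and (((kB_tend hK).eventually (eventually_ge_atTop 20)).and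
      (ht.eventually (ge_mem_nhds hρ)))
  rw [eventually_atTop] at h1
  obtain ⟨j1, hj1⟩ := h1
  refine ⟨A, j1, hA, fun j hj => ?_⟩
  obtain ⟨g1, g2, g3⟩ := hj1 j hj
  obtain ⟨δ1, hδ1, h4⟩ := hlat (kB K3 j) (36 + 5 * j) ((1/2) ^ j) ρ g2
    (by omega) (by positivity)
    (by
      have : ((1:ℝ)/2) ^ j ≤ (1/2) ^ 1 :=
        pow_le_pow_of_le_one (by norm_num) (by norm_num) g1
      simpa using this)
    ((mul_le_mul_of_nonneg_left (decB hK j) (by linarith)).trans g3)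
  refine ⟨δ1, hδ1, fun δ hδ hδ' => ?_⟩
  refine (h4 δ hδ hδ').trans ?_
  have e1 : A / (((1:ℝ)/2) ^ j) ^ 2 * (1/2) ^ (36 + 5 * j) = A * ((1/2) ^ 36 * (1/8) ^ j) := by
    have e2 : ((1:ℝ)/2) ^ (36 + 5 * j) = (1/2) ^ 36 * ((((1:ℝ)/2) ^ j) ^ 2 * (1/8) ^ j) := by
      rw [pow_add, pow_mul, ← pow_mul _ j 2, mul_comm j 2, pow_mul _ 2 j, ← mul_pow]
      norm_num
    rw [e2]
    have : (((1:ℝ)/2) ^ j) ^ 2 ≠ 0 := by positivity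
    field_simp
  rw [e1]
  refine mul_le_mul_of_nonneg_left ?_ hA.le
  have e3 : Real.exp (-2 * (1 * (j : ℝ))) = (Real.exp (-2)) ^ j := by
    rw [← Real.exp_nat_mul]; congr 1; ring
  have e4 : (1:ℝ)/8 ≤ Real.exp (-2) := by
    have h5 : Real.exp 2 ≤ 8 := by
      have h5 : Real.exp 2 = Real.exp 1 ^ 2 := by rw [← Real.exp_nat_mul]; norm_num
      rw [h5]
      have := Real.exp_one_lt_d9
      have h6 := Real.exp_pos 1
      nlinarith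
    rw [Real.exp_neg, one_div]
    exact inv_anti₀ (Real.exp_pos _) h5
  rw [e3]
  calc ((1:ℝ)/2) ^ 36 * (1/8) ^ j ≤ 1 * (1/8) ^ j :=
        mul_le_mul_of_nonneg_right (by norm_num) (by positivity)
    _ = (1/8) ^ j := one_mul _
    _ ≤ _ := pow_le_pow_left₀ (by norm_num) e4 _

end Pool.Agent.R965.CS
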