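import Pool.Agent.R965.CS.ManyP
import Pool.Agent.Y287.EV.BadVO
import Pool.Agent.Z864.EV.BadVM

/-!
Project CS: the set of curves with a long piece in the bulk with few slow pieces: it is open, and
bad curves at mesh `δ` come from bad pieces of the path (adaptation of `Pool.Agent.Y287.EV.BadVO`
and `Pool.Agent.Z864.EV.BadVM`).
-/

set_option autoImplicit false

namespace Pool.Agent.R965.CS

open H974 Finset H342P H984P H984N Y994.MC Pool.Agent.Y985.ME Pool.Agent.Y884.ME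
open Pool.Agent.Y995.FS Pool.Agent.Y995.HG MeasureTheory Filter Topology
open Pool.Agent.Y41.EV Pool.Agent.Y287.EV

/-- `N` disjoint time intervals `[u, v]` in `[s, t]` of natural duration at least `τ` during which
the curve stays in the closed ball of radius `w` around its position at time `u`. -/
def SPairs (f : C(unitInterval, ℂ)) (T w τ : ℝ) (N : ℕ) (s t : unitInterval) : Prop :=
  ∃ u v : Fin N → unitInterval, (∀ a, s ≤ u a ∧ u a ≤ v a ∧ v a ≤ t) ∧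
    (∀ a b, a ≠ b → v a ≤ u b ∨ v b ≤ u a) ∧
    ∀ a, (∀ x : unitInterval, dist (f (u a)) (f (max (u a) (min x (v a)))) ≤ w) ∧
      τ ≤ T * ((v a : ℝ) - u a)

/-- Curves with a long piece in the bulk with few slow pieces. -/
def BadC (R : Rect) (ρ w τ h : ℝ) (N : ℕ) : Set X :=
  {p | ∃ s t : unitInterval, (∀ u : unitInterval, s ≤ u → u ≤ t → ρ < dep R (p.1 u)) ∧
    h < p.2 * ((t : ℝ) - s) ∧ ¬ SPairs p.1 p.2 w τ N s t}

theorem spairs_closed (w τ : ℝ) (N : ℕ) (s t : unitInterval) :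
    IsClosed {x : X × FP N | (∀ a, s ≤ x.2.1 a ∧ x.2.1 a ≤ x.2.2 a ∧ x.2.2 a ≤ t) ∧
      (∀ a b, a ≠ b → x.2.2 a ≤ x.2.1 b ∨ x.2.2 b ≤ x.2.1 a) ∧
      ∀ a, (∀ y : unitInterval,
        dist (x.1.1 (x.2.1 a)) (x.1.1 (max (x.2.1 a) (min y (x.2.2 a)))) ≤ w) ∧
        τ ≤ x.1.2 * ((x.2.2 a : ℝ) - x.2.1 a)} := by
  have cu : ∀ a : Fin N, Continuous (fun x : X × FP N => x.2.1 a) := fun a => by fun_prop
  have cv : ∀ a : Fin N, Continuous (fun x : X × FP N => x.2.2 a) := fun a => by fun_prop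
  have cu' : ∀ a : Fin N, Continuous (fun x : X × FP N => (x.2.1 a : ℝ)) := fun a => by fun_prop
  have cv' : ∀ a : Fin N, Continuous (fun x : X × FP N => (x.2.2 a : ℝ)) := fun a => by fun_prop
  have cp : ∀ a : Fin N, Continuous (fun x : X × FP N => x.1.1 (x.2.1 a)) := fun a => by fun_prop
  have cm : ∀ (a : Fin N) (y : unitInterval), Continuous (fun x : X × FP N =>
      max (x.2.1 a) (min y (x.2.2 a))) := fun a y => (cu a).max (continuous_const.min (cv a))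
  have cf : Continuous (fun x : X × FP N => x.1.1) := by fun_prop
  have cq : ∀ (a : Fin N) (y : unitInterval), Continuous (fun x : X × FP N =>
      x.1.1 (max (x.2.1 a) (min y (x.2.2 a)))) := fun a y =>
    continuous_eval.comp (cf.prodMk (cm a y))
  have cT : Continuous (fun x : X × FP N => x.1.2) := by fun_prop
  have e : {x : X × FP N | (∀ a, s ≤ x.2.1 a ∧ x.2.1 a ≤ x.2.2 a ∧ x.2.2 a ≤ t) ∧
      (∀ a b, a ≠ b → x.2.2 a ≤ x.2.1 b ∨ x.2.2 b ≤ x.2.1 a) ∧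
      ∀ a, (∀ y : unitInterval,
        dist (x.1.1 (x.2.1 a)) (x.1.1 (max (x.2.1 a) (min y (x.2.2 a)))) ≤ w) ∧
        τ ≤ x.1.2 * ((x.2.2 a : ℝ) - x.2.1 a)} =
      (⋂ a : Fin N, ({x : X × FP N | s ≤ x.2.1 a} ∩
        ({x : X × FP N | x.2.1 a ≤ x.2.2 a} ∩ {x : X × FP N | x.2.2 a ≤ t}))) ∩
      ((⋂ a : Fin N, ⋂ b : Fin N, ⋂ _ : a ≠ b,
        ({x : X × FP N | x.2.2 a ≤ x.2.1 b} ∪ {x : X × FP N | x.2.2 b ≤ x.2.1 a})) ∩
      (⋂ a : Fin N, ((⋂ y : unitInterval, {x : X × FP N |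
        dist (x.1.1 (x.2.1 a)) (x.1.1 (max (x.2.1 a) (min y (x.2.2 a)))) ≤ w}) ∩
        {x : X × FP N | τ ≤ x.1.2 * ((x.2.2 a : ℝ) - x.2.1 a)}))) := by
    ext x
    simp only [Set.mem_iInter, Set.mem_ofPred_eq, Set.mem_inter_iff, Set.mem_union]
  rw [e]
  refine IsClosed.inter (isClosed_iInter fun a => ?_) (IsClosed.inter
    (isClosed_iInter fun a => isClosed_iInter fun b => isClosed_iInter fun _ => ?_)
    (isClosed_iInter fun a => ?_))
  · exact (isClosed_le continuous_const (cu a)).inter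
      ((isClosed_le (cu a) (cv a)).inter (isClosed_le (cv a) continuous_const))
  · exact (isClosed_le (cv a) (cu b)).union (isClosed_le (cv b) (cu a))
  · exact (isClosed_iInter fun y => isClosed_le ((cp a).dist (cq a y)) continuous_const).inter
      (isClosed_le continuous_const (cT.mul ((cv' a).sub (cu' a))))

theorem badC_open (R : Rect) (ρ w τ h : ℝ) (N : ℕ) : IsOpen (BadC R ρ w τ h N) := by
  have e : BadC R ρ w τ h N = ⋃ s : unitInterval, ⋃ t : unitInterval,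
      (((Prod.fst '' {x : X × unitInterval | (s ≤ x.2 ∧ x.2 ≤ t) ∧ dep R (x.1.1 x.2) ≤ ρ})ᶜ ∩
        {p : X | h < p.2 * ((t : ℝ) - s)}) ∩
        (Prod.fst '' {x : X × FP N |
          (∀ a, s ≤ x.2.1 a ∧ x.2.1 a ≤ x.2.2 a ∧ x.2.2 a ≤ t) ∧
          (∀ a b, a ≠ b → x.2.2 a ≤ x.2.1 b ∨ x.2.2 b ≤ x.2.1 a) ∧
          ∀ a, (∀ y : unitInterval,
            dist (x.1.1 (x.2.1 a)) (x.1.1 (max (x.2.1 a) (min y (x.2.2 a)))) ≤ w) ∧
            τ ≤ x.1.2 * ((x.2.2 a : ℝ) - x.2.1 a)})ᶜ) := by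
    ext p
    simp only [BadC, Set.mem_ofPred_eq, Set.mem_iUnion, Set.mem_inter_iff, Set.mem_compl_iff,
      Set.mem_image]
    constructor
    · rintro ⟨s, t, h1, h2, h3⟩
      refine ⟨s, t, ⟨?_, h2⟩, ?_⟩
      · rintro ⟨⟨p', u⟩, ⟨⟨a1, a2⟩, a3⟩, rfl⟩
        exact absurd a3 (not_le.2 (h1 u a1 a2))
      · rintro ⟨⟨p', z⟩, ⟨a1, a2, a3⟩, rfl⟩
        exact h3 ⟨z.1, z.2, a1, a2, a3⟩
    · rintro ⟨s, t, ⟨h1, h2⟩, h3⟩
      refine ⟨s, t, ?_, h2, ?_⟩
      · intro u a1 a2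
        by_contra hcon
        push Not at hcon
        exact h1 ⟨(p, u), ⟨⟨a1, a2⟩, hcon⟩, rfl⟩
      · rintro ⟨u, v, z1, z2, z3⟩
        exact h3 ⟨(p, (u, v)), ⟨z1, z2, z3⟩, rfl⟩
  rw [e]
  refine isOpen_iUnion fun s => isOpen_iUnion fun t => ?_
  refine IsOpen.inter (IsOpen.inter ?_ ?_) ?_
  · rw [isOpen_compl_iff]
    refine isClosedMap_fst_of_compactSpace _ ?_
    have c0 : Continuous (fun x : X × unitInterval => x.1.1 x.2) := by fun_prop
    have c1 : Continuous (fun x : X × unitInterval => x.2) := by fun_prop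
    exact ((isClosed_le continuous_const c1).inter (isClosed_le c1 continuous_const)).inter
      (isClosed_le ((dep_cont' R).comp c0) continuous_const)
  · have c0 : Continuous (fun p : X => p.2 * ((t : ℝ) - s)) := by fun_prop
    exact isOpen_lt continuous_const c0
  · rw [isOpen_compl_iff]
    exact isClosedMap_fst_of_compactSpace _ (spairs_closed w τ N s t)

/-! ### The mesh -/

theorem pl_ball {n : ℕ} {p : ℕ → ℂ} {c : ℂ} {w : ℝ} {i j : ℕ} (hj : j ≤ n)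
    (hn : 0 < n) (h : ∀ k, i ≤ k → k ≤ j → dist (p k) c ≤ w) {y : unitInterval}
    (h1 : (i : ℝ) ≤ y * n) (h2 : (y : ℝ) * n ≤ j) : dist (pl n p y) c ≤ w := by
  have h0 : 0 ≤ (y : ℝ) * n := mul_nonneg y.2.1 (Nat.cast_nonneg n)
  obtain ⟨k, hk⟩ : ∃ k, k = ⌊(y : ℝ) * n⌋₊ := ⟨_, rfl⟩
  have hk1 : (k : ℝ) ≤ y * n := by rw [hk]; exact Nat.floor_le h0
  have hk2 : (y : ℝ) * n < k + 1 := by rw [hk]; exact Nat.lt_floor_add_one _
  have hik : i ≤ k := by rw [hk]; exact Nat.le_floor h1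
  have hkj : k ≤ j := by
    have : (k : ℝ) ≤ j := hk1.trans h2
    exact_mod_cast this
  rcases hkj.lt_or_eq with h3 | h3
  · rw [pl_seg (by omega) hk1 hk2.le]
    have h4 := (convex_closedBall c w).add_smul_sub_mem
      (x := p k) (y := p (k + 1)) (t := (y : ℝ) * n - k) (Metric.mem_closedBall.2 (h k hik hkj))
      (Metric.mem_closedBall.2 (h (k + 1) (by omega) (by omega))) ⟨by linarith, by linarith⟩
    rw [Complex.real_smul] at h4
    exact Metric.mem_closedBall.1 h4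
  · have h4 : (y : ℝ) * n = j := by
      rw [h3] at hk1
      linarith
    rw [pl_node hj h4 hn]
    exact h j (by omega) le_rfl

/-- Bad curves at mesh `δ` come from bad pieces of the path. -/
theorem badC_mesh {R : Rect} {δ ρ w τ h M K1 : ℝ} {N W : ℕ} {L r : ℤ} {F : Finset Edg}
    (hδ : 0 < δ) (hw : δ * (2 * (r : ℝ) + 1) ≤ w) (hτ : τ ≤ M * δ ^ (7/4 : ℝ)) (hK1 : 0 < K1)
    (hL : δ * (4 * (L : ℝ)) + 2 * δ ≤ ρ)
    (hh : ((W : ℝ) ^ (7/4 : ℝ) * (K1 * (98 * N)) + 2) * δ ^ (7/4 : ℝ) ≤ h)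
    (hbad : (R.curve δ F, R.time δ F) ∈ BadC R ρ w τ h N) :
    FewC (R.dm δ) L W r N K1 M F := by
  classical
  obtain ⟨s, t, h1, h2, h3⟩ := hbad
  obtain ⟨n, hn⟩ : ∃ n, n = (R.dm δ).len F := ⟨_, rfl⟩
  obtain ⟨p, hp⟩ : ∃ p : ℕ → ℂ, p = fun k => pos δ ((R.dm δ).walk F k) := ⟨_, rfl⟩
  have hc : R.curve δ F = pl n p := by unfold Rect.curve; rw [hn, hp]
  have h10 : R.time δ F = δ ^ (7/4 : ℝ) * n := by unfold Rect.time; rw [hn]
  simp only [hc, h10] at h1 h2 h3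
  have hδ7 : 0 < δ ^ (7/4 : ℝ) := Real.rpow_pos_of_pos hδ _
  have hWp : 0 ≤ (W : ℝ) ^ (7/4 : ℝ) * (K1 * (98 * N)) := by positivity
  -- the nodes
  have hlong : (W : ℝ) ^ (7/4 : ℝ) * (K1 * (98 * N)) + 2 < (n : ℝ) * ((t : ℝ) - s) := by
    have h4 : ((W : ℝ) ^ (7/4 : ℝ) * (K1 * (98 * N)) + 2) * δ ^ (7/4 : ℝ) <
        (n * ((t : ℝ) - s)) * δ ^ (7/4 : ℝ) := by
      refine lt_of_le_of_lt hh (h2.trans_le (le_of_eq ?_))
      ring
    exact lt_of_mul_lt_mul_right h4 hδ7.le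
  have ht1 : (t : ℝ) ≤ 1 := t.2.2
  have ht0 : 0 ≤ (t : ℝ) := t.2.1
  have hs0 : 0 ≤ (s : ℝ) := s.2.1
  have hn0 : 0 < n := by
    rcases Nat.eq_zero_or_pos n with h | h
    · rw [h] at hlong
      simp only [CharP.cast_eq_zero, zero_mul] at hlong
      linarith
    · exact h
  have hn' : (0 : ℝ) < n := by exact_mod_cast hn0
  obtain ⟨k, hk⟩ : ∃ k, k = ⌈(s : ℝ) * n⌉₊ := ⟨_, rfl⟩
  obtain ⟨l, hl⟩ : ∃ l, l = ⌊(t : ℝ) * n⌋₊ := ⟨_, rfl⟩
  have hk1 : (s : ℝ) * n ≤ k := by rw [hk]; exact Nat.le_ceil _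
  have hk2 : (k : ℝ) < s * n + 1 := by rw [hk]; exact Nat.ceil_lt_add_one (by positivity)
  have hl1 : (l : ℝ) ≤ t * n := by rw [hl]; exact Nat.floor_le (by positivity)
  have hl2 : (t : ℝ) * n < l + 1 := by rw [hl]; exact Nat.lt_floor_add_one _
  have hkl : k ≤ l := by
    have : (k : ℝ) < l + 1 := by linarith
    have h5 : k < l + 1 := by exact_mod_cast this
    omega
  have hln : l ≤ n := by
    have : (l : ℝ) ≤ n := hl1.trans (by nlinarith)
    exact_mod_cast this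
  have hnodeT : ∀ i (hin : i ≤ n), k ≤ i → i ≤ l →
      s ≤ nodeT n i hin ∧ nodeT n i hin ≤ t := by
    intro i hin hi1 hi2
    constructor
    · change (s : ℝ) ≤ (i : ℝ) / n
      rw [le_div_iff₀ hn']
      have : (k : ℝ) ≤ i := by exact_mod_cast hi1
      linarith
    · change (i : ℝ) / n ≤ (t : ℝ)
      rw [div_le_iff₀ hn']
      have : (i : ℝ) ≤ l := by exact_mod_cast hi2
      linarith
  have hnode : ∀ i, k ≤ i → i ≤ l → ρ < dep R (p i) := by
    intro i hi1 hi2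
    have hin : i ≤ n := by omega
    have h4 := hnodeT i hin hi1 hi2
    have h5 := h1 (nodeT n i hin) h4.1 h4.2
    rwa [pl_nodeT hin hn0] at h5
  unfold FewC
  refine ⟨k, l, hkl, by rw [← hn]; exact hln, ?_, ?_, ?_⟩
  · intro i hi1 hi2
    have h5 := hnode i hi1 hi2
    have h6 := bd_ge (R := R) hδ ((R.dm δ).walk F i)
    have h7 : p i = pos δ ((R.dm δ).walk F i) := by rw [hp]
    rw [h7] at h5
    have h8 : δ * ((4 * L : ℤ) : ℝ) ≤ δ * (((R.dm δ).bd ((R.dm δ).walk F i).1 : ℤ) : ℝ) := by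
      push_cast
      linarith
    exact_mod_cast le_of_mul_le_mul_left h8 hδ
  · rw [Nat.cast_add, Nat.cast_sub hkl]
    push_cast
    have : (n : ℝ) * ((t : ℝ) - s) = t * n - s * n := by ring
    linarith
  · rintro ⟨Z, z1, z2, z3⟩
    apply h3
    obtain ⟨Z', hZ', hZc⟩ := Finset.exists_subset_card_eq z1
    have eqv := Z'.equivFinOfCardEq hZc
    have hz : ∀ a : Fin N, ((eqv.symm a : {x // x ∈ Z'}) : ℕ × ℕ) ∈ Z := fun a =>
      hZ' (eqv.symm a).2
    have hne : ∀ a b : Fin N, a ≠ b →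
        ((eqv.symm a : {x // x ∈ Z'}) : ℕ × ℕ) ≠ ((eqv.symm b : {x // x ∈ Z'}) : ℕ × ℕ) := by
      intro a b hab h
      exact hab (eqv.symm.injective (Subtype.ext h))
    have hb1 : ∀ a : Fin N, ((eqv.symm a : {x // x ∈ Z'}) : ℕ × ℕ).1 ≤ n := fun a => by
      have := z3 _ (hz a)
      omega
    have hb2 : ∀ a : Fin N, ((eqv.symm a : {x // x ∈ Z'}) : ℕ × ℕ).2 ≤ n := fun a => by
      have := z3 _ (hz a)
      omega
    have hle : ∀ (i j : ℕ) (hi : i ≤ n) (hj : j ≤ n), i ≤ j → nodeT n i hi ≤ nodeT n j hj := by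
      intro i j hi hj hij
      change (i : ℝ) / n ≤ (j : ℝ) / n
      refine div_le_div_of_nonneg_right ?_ hn'.le
      exact_mod_cast hij
    refine ⟨fun a => nodeT n _ (hb1 a), fun a => nodeT n _ (hb2 a), ?_, ?_, ?_⟩
    · intro a
      have := z3 _ (hz a)
      exact ⟨(hnodeT _ (hb1 a) (by omega) (by omega)).1, hle _ _ _ _ (by omega),
        (hnodeT _ (hb2 a) (by omega) (by omega)).2⟩
    · intro a b hab
      rcases z2 _ (hz a) _ (hz b) (hne a b hab) with h | h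
      · exact Or.inl (hle _ _ _ _ h.le)
      · exact Or.inr (hle _ _ _ _ h.le)
    · intro a
      obtain ⟨c1, c2, c3, c5, c4⟩ := z3 _ (hz a)
      obtain ⟨i, hi⟩ : ∃ i, i = ((eqv.symm a : {x // x ∈ Z'}) : ℕ × ℕ).1 := ⟨_, rfl⟩
      obtain ⟨j, hj⟩ : ∃ j, j = ((eqv.symm a : {x // x ∈ Z'}) : ℕ × ℕ).2 := ⟨_, rfl⟩
      have hjn : j ≤ n := by rw [hj]; exact hb2 a
      constructor
      · intro x
        simp only
        have hle' := hle _ _ (hb1 a) (hb2 a) c2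
        obtain ⟨y, hy⟩ : ∃ y, y = max (nodeT n _ (hb1 a)) (min x (nodeT n _ (hb2 a))) := ⟨_, rfl⟩
        have hy1 : nodeT n _ (hb1 a) ≤ y := by rw [hy]; exact le_max_left _ _
        have hy2 : y ≤ nodeT n _ (hb2 a) := by rw [hy]; exact max_le hle' (min_le_right _ _)
        rw [← hy, dist_comm, pl_nodeT (hb1 a) hn0]
        rw [← hi, ← hj] at c4
        have hy1' : (((eqv.symm a : {x // x ∈ Z'}) : ℕ × ℕ).1 : ℝ) / n ≤ (y : ℝ) := hy1
        have hy2' : (y : ℝ) ≤ (((eqv.symm a : {x // x ∈ Z'}) : ℕ × ℕ).2 : ℝ) / n := hy2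
        rw [div_le_iff₀ hn', ← hi] at hy1'
        rw [le_div_iff₀ hn', ← hj] at hy2'
        rw [← hi]
        refine pl_ball hjn hn0 (fun q hq1 hq2 => ?_) hy1' hy2'
        rw [dist_comm, hp]
        simp only
        have h7 := dist_pos_le hδ.le ((R.dm δ).walk F i) ((R.dm δ).walk F q)
        have h8 : ((sd ((R.dm δ).walk F i).1 ((R.dm δ).walk F q).1 : ℤ) : ℝ) ≤ (r : ℝ) := by
          exact_mod_cast c4 q hq1 hq2
        refine h7.trans (le_trans ?_ hw)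
        exact mul_le_mul_of_nonneg_left (by linarith) hδ.le
      · show τ ≤ δ ^ (7/4 : ℝ) * n * (((nodeT n _ (hb2 a) : unitInterval) : ℝ) -
          ((nodeT n _ (hb1 a) : unitInterval) : ℝ))
        have e1 : ((nodeT n _ (hb1 a) : unitInterval) : ℝ) =
          (((eqv.symm a : {x // x ∈ Z'}) : ℕ × ℕ).1 : ℝ) / n := rfl
        have e2 : ((nodeT n _ (hb2 a) : unitInterval) : ℝ) =
          (((eqv.symm a : {x // x ∈ Z'}) : ℕ × ℕ).2 : ℝ) / n := rfl
        rw [e1, e2, ← hi, ← hj]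
        rw [← hi, ← hj] at c5 c2
        rw [Nat.cast_sub c2] at c5
        have e3 : δ ^ (7/4 : ℝ) * n * ((j : ℝ) / n - (i : ℝ) / n) =
            ((j : ℝ) - i) * δ ^ (7/4 : ℝ) := by
          field_simp
        rw [e3]
        exact hτ.trans (mul_le_mul_of_nonneg_right c5 hδ7.le)

end Pool.Agent.R965.CS
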