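import Pool.Agent.R965.CS.Typ
import Pool.Agent.R965.EV.LilLow

/-!
Project CS: Chung's law of the iterated logarithm at almost every time.
-/

set_option autoImplicit false
set_option linter.unusedVariables false

namespace Pool.Agent.R965.CS

open MeasureTheory Filter Topology Pool.Agent.Y995.FS Pool.Agent.Y995.HG H984N
open Pool.Agent.Y41.EV
open scoped ENNReal

/-- `h ^ (4/7) (log log (1/h)) ^ (-1/14)` -/
noncomputable def chi (h : ℝ) : ℝ := h ^ (4/7 : ℝ) / ll h ^ (1/14 : ℝ)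

theorem chi_pos {h : ℝ} (hh : 0 < h) : 0 < chi h := by
  have := ll_pos h
  unfold chi
  positivity

theorem chi_le {h : ℝ} (hh : 0 < h) : chi h ≤ h ^ (4/7 : ℝ) := by
  unfold chi
  refine div_le_self (by positivity) ?_
  exact Real.one_le_rpow (ll_ge h) (by norm_num)

/-- `chi` is large compared with the identity. -/
theorem le_chi {c : ℝ} (hc : 0 < c) : ∀ᶠ h : ℝ in 𝓝[>] 0, h ≤ c * chi h := by
  have h1 : Tendsto (fun h : ℝ => h ^ (1/3 : ℝ)) (𝓝[>] 0) (𝓝 0) := by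
    have h2 : Tendsto (fun h : ℝ => h ^ (1/3 : ℝ)) (𝓝 0) (𝓝 (0 ^ (1/3 : ℝ))) :=
      (Real.continuous_rpow_const (by norm_num)).tendsto 0
    rw [Real.zero_rpow (by norm_num)] at h2
    exact h2.mono_left nhdsWithin_le_nhds
  filter_upwards [h1.eventually (ge_mem_nhds (show 0 < c / 13 by positivity)),
    self_mem_nhdsWithin, (eventually_lt_nhds (show (0:ℝ) < 1 by norm_num)).filter_mono
      nhdsWithin_le_nhds] with h h2 h0 h1'
  have h0 : 0 < h := h0
  have hi : 1 ≤ 1 / h := by rw [le_div_iff₀ h0]; linarith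
  have hL : 0 ≤ Real.log (1 / h) := Real.log_nonneg hi
  have e1 : Real.log (1 / h) ≤ (1 / h) ^ (1/12 : ℝ) / (1/12) :=
    Real.log_le_rpow_div (by positivity) (by norm_num)
  have e2 : 1 ≤ (1 / h) ^ (1/12 : ℝ) := Real.one_le_rpow hi (by norm_num)
  have e3 : ll h ≤ 13 * (1 / h) ^ (1/12 : ℝ) := by
    unfold ll
    refine max_le (by linarith) ?_
    rcases hL.eq_or_lt with h2 | h2
    · rw [← h2, Real.log_zero]; linarith
    · have := Real.log_le_sub_one_of_pos h2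
      rw [div_eq_mul_inv] at e1
      norm_num at e1
      norm_num at this ⊢
      norm_num at e2
      linarith
  have hl := ll_ge h
  have e4 : ll h ^ (1/14 : ℝ) ≤ ll h := by
    have := Real.rpow_le_rpow_of_exponent_le hl (show (1/14 : ℝ) ≤ 1 by norm_num)
    rwa [Real.rpow_one] at this
  have e5 : (1 / h) ^ (1/12 : ℝ) = h ^ (-(1/12) : ℝ) := by
    rw [one_div, Real.inv_rpow h0.le, Real.rpow_neg h0.le]
  unfold chi
  rw [← mul_div_assoc, le_div_iff₀ (by positivity)]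
  have e6 : h = h ^ (4/7 : ℝ) * h ^ (3/7 : ℝ) := by
    rw [← Real.rpow_add h0]; norm_num
  have e7 : h ^ (3/7 : ℝ) * ll h ^ (1/14 : ℝ) ≤ c := by
    calc h ^ (3/7 : ℝ) * ll h ^ (1/14 : ℝ) ≤ h ^ (3/7 : ℝ) * (13 * h ^ (-(1/12) : ℝ)) := by
          refine mul_le_mul_of_nonneg_left ?_ (by positivity)
          rw [← e5]
          exact e4.trans e3
      _ = 13 * h ^ (29/84 : ℝ) := by
          rw [mul_left_comm, ← Real.rpow_add h0]; norm_num
      _ ≤ 13 * h ^ (1/3 : ℝ) := by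
          refine mul_le_mul_of_nonneg_left ?_ (by norm_num)
          exact Real.rpow_le_rpow_of_exponent_ge h0 h1'.le (by norm_num)
      _ ≤ 13 * (c / 13) := mul_le_mul_of_nonneg_left h2 (by norm_num)
      _ = c := by ring
  calc h * ll h ^ (1/14 : ℝ) = h ^ (4/7 : ℝ) * (h ^ (3/7 : ℝ) * ll h ^ (1/14 : ℝ)) := by
        rw [← mul_assoc, ← e6]
    _ ≤ h ^ (4/7 : ℝ) * c := mul_le_mul_of_nonneg_left e7 (by positivity)
    _ = c * h ^ (4/7 : ℝ) := mul_comm _ _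

/-- The gauge of a small multiple of `chi`. -/
theorem ga_chi {c : ℝ} (hc : 0 < c) (hc1 : c ≤ 1) : ∀ᶠ h : ℝ in 𝓝[>] 0,
    0 < c * chi h ∧ ga (c * chi h) ≤ c * h := by
  have h1 : Tendsto (fun h : ℝ => h ^ (4/7 : ℝ)) (𝓝[>] 0) (𝓝 0) := by
    have h2 : Tendsto (fun h : ℝ => h ^ (4/7 : ℝ)) (𝓝 0) (𝓝 (0 ^ (4/7 : ℝ))) :=
      (Real.continuous_rpow_const (by norm_num)).tendsto 0
    rw [Real.zero_rpow (by norm_num)] at h2
    exact h2.mono_left nhdsWithin_le_nhds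
  filter_upwards [le_chi hc, self_mem_nhdsWithin,
    h1.eventually (ge_mem_nhds (Real.exp_pos (-Real.exp 1)))] with h h2 h0 h3
  have h0 : 0 < h := h0
  have hd0 : 0 < c * chi h := mul_pos hc (chi_pos h0)
  refine ⟨hd0, ?_⟩
  obtain ⟨d, hd⟩ : ∃ d, d = c * chi h := ⟨_, rfl⟩
  have hd1 : d ≤ Real.exp (-Real.exp 1) := by
    rw [hd]
    calc c * chi h ≤ 1 * h ^ (4/7 : ℝ) :=
          mul_le_mul hc1 (chi_le h0) (chi_pos h0).le (by norm_num)
      _ = h ^ (4/7 : ℝ) := one_mul _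
      _ ≤ _ := h3
  rw [← hd] at h2 hd0 ⊢
  have hl := ll_pos h
  -- the logarithms
  have e1 := (Pool.Agent.Y995.HG.ll_ge hd0 hd1)
  have e2 : Real.log (1 / d) ≤ Real.log (1 / h) :=
    Real.log_le_log (by positivity) (one_div_le_one_div_of_le h0 h2)
  have e3 : Real.log (Real.log (1 / d)) ≤ ll h := by
    refine le_trans ?_ (le_max_right _ _)
    exact Real.log_le_log (lt_of_lt_of_le (Real.exp_pos _) e1.1) e2
  have e4 : d ^ (7/4 : ℝ) = c ^ (7/4 : ℝ) * (h / ll h ^ (1/8 : ℝ)) := by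
    rw [hd, Real.mul_rpow hc.le (chi_pos h0).le]
    congr 1
    unfold chi
    rw [Real.div_rpow (by positivity) (by positivity), ← Real.rpow_mul h0.le,
      ← Real.rpow_mul hl.le]
    norm_num
  have e5 : c ^ (7/4 : ℝ) ≤ c := by
    have := Real.rpow_le_rpow_of_exponent_ge hc hc1 (show (1:ℝ) ≤ 7/4 by norm_num)
    rwa [Real.rpow_one] at this
  unfold ga
  rw [e4]
  have e6 : Real.log (Real.log (1 / d)) ^ (1/8 : ℝ) ≤ ll h ^ (1/8 : ℝ) :=
    Real.rpow_le_rpow (by linarith [e1.2]) e3 (by norm_num)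
  calc c ^ (7/4 : ℝ) * (h / ll h ^ (1/8 : ℝ)) * Real.log (Real.log (1 / d)) ^ (1/8 : ℝ)
      ≤ c * (h / ll h ^ (1/8 : ℝ)) * ll h ^ (1/8 : ℝ) :=
        mul_le_mul (mul_le_mul_of_nonneg_right e5 (by positivity)) e6
          (Real.rpow_nonneg (by linarith [e1.2]) _) (by positivity)
    _ = c * h := by field_simp

/-- Lower bound: the oscillation is never too small. -/
theorem osc_low {l : ℝ} (hl : 0 < l) {p : X} (hp : 0 < p.2) {t : unitInterval}
    (h : ∀ᶠ j : ℕ in atTop, p.2 *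
      (volume {u : unitInterval | dist (p.1 u) (p.1 t) ≤ ((1:ℝ)/2) ^ j}).toReal < 2 * av l j) :
    ∀ᶠ η : ℝ in 𝓝[>] 0, ∀ s : unitInterval, p.2 * |(s : ℝ) - t| = η →
      ∃ x ∈ Set.uIcc s t, (min 1 (1 / Cl l)) * chi η < dist (p.1 x) (p.1 t) := by
  have hCl := Cl_pos hl
  obtain ⟨c, hc⟩ : ∃ c : ℝ, c = min 1 (1 / Cl l) := ⟨_, rfl⟩
  have hc0 : 0 < c := by rw [hc]; exact lt_min one_pos (by positivity)
  have hc1 : c ≤ 1 := by rw [hc]; exact min_le_left _ _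
  have hc2 : Cl l * c ≤ 1 := by
    have : c ≤ 1 / Cl l := by rw [hc]; exact min_le_right _ _
    calc Cl l * c ≤ Cl l * (1 / Cl l) := mul_le_mul_of_nonneg_left this hCl.le
      _ = 1 := by field_simp
  rw [← hc]
  obtain ⟨j0, hj0⟩ := eventually_atTop.1 (h.and (eventually_ge_atTop 3))
  have h1 : Tendsto (fun h : ℝ => h ^ (4/7 : ℝ)) (𝓝[>] 0) (𝓝 0) := by
    have h2 : Tendsto (fun h : ℝ => h ^ (4/7 : ℝ)) (𝓝 0) (𝓝 (0 ^ (4/7 : ℝ))) :=
      (Real.continuous_rpow_const (by norm_num)).tendsto 0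
    rw [Real.zero_rpow (by norm_num)] at h2
    exact h2.mono_left nhdsWithin_le_nhds
  filter_upwards [ga_chi hc0 hc1, self_mem_nhdsWithin,
    h1.eventually (gt_mem_nhds (show (0:ℝ) < (1/2) ^ j0 by positivity))] with η h2 h0 h3
  have h0 : 0 < η := h0
  intro s hs
  by_contra hcon
  push Not at hcon
  obtain ⟨h4, h5⟩ := h2
  obtain ⟨d, hd⟩ : ∃ d, d = c * chi η := ⟨_, rfl⟩
  rw [← hd] at h4 h5 hcon
  have hdj : d < (1/2) ^ j0 := by
    refine lt_of_le_of_lt ?_ h3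
    rw [hd]
    calc c * chi η ≤ 1 * η ^ (4/7 : ℝ) :=
          mul_le_mul hc1 (chi_le h0) (chi_pos h0).le (by norm_num)
      _ = η ^ (4/7 : ℝ) := one_mul _
  -- the scale
  obtain ⟨n, hn1, hn2⟩ : ∃ n : ℕ, ((1:ℝ)/2) ^ (n + 1) < d ∧ d ≤ (1/2) ^ n :=
    exists_nat_pow_near_of_lt_one h4 (hdj.le.trans (pow_le_one₀ (by norm_num) (by norm_num)))
      (by norm_num) (by norm_num)
  have hnj : j0 ≤ n := by
    by_contra hcc
    push Not at hcc
    have : ((1:ℝ)/2) ^ j0 ≤ (1/2) ^ (n + 1) :=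
      pow_le_pow_of_le_one (by norm_num) (by norm_num) (by omega)
    linarith
  obtain ⟨g1, g2⟩ := hj0 n hnj
  have g3 := av_ga hl g2 hn1 hn2
  have hsub : Set.uIcc s t ⊆ {u : unitInterval | dist (p.1 u) (p.1 t) ≤ ((1:ℝ)/2) ^ n} :=
    fun x hx => (hcon x hx).trans hn2
  have hvol : |(s : ℝ) - t| ≤
      (volume {u : unitInterval | dist (p.1 u) (p.1 t) ≤ ((1:ℝ)/2) ^ n}).toReal := by
    have g4 := ENNReal.toReal_mono (measure_ne_top _ _) (measure_mono (μ := volume) hsub)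
    refine le_trans (le_of_eq ?_) g4
    have g5 : volume (Set.uIcc s t) = ENNReal.ofReal |(s : ℝ) - t| := by
      rcases le_total s t with hst | hst
      · have hst' : (s : ℝ) ≤ t := hst
        rw [Set.uIcc_of_le hst, unitInterval.volume_Icc, abs_sub_comm, abs_of_nonneg (by linarith)]
      · have hst' : (t : ℝ) ≤ s := hst
        rw [Set.uIcc_of_ge hst, unitInterval.volume_Icc, abs_of_nonneg (by linarith)]
    rw [g5, ENNReal.toReal_ofReal (abs_nonneg _)]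
  have g6 : η < Cl l * ga d := by
    rw [← hs]
    refine lt_of_le_of_lt (mul_le_mul_of_nonneg_left hvol hp.le) (lt_of_lt_of_le g1 g3)
  have g7 : Cl l * ga d ≤ Cl l * (c * η) := mul_le_mul_of_nonneg_left h5 hCl.le
  have g8 : Cl l * (c * η) ≤ η := by
    rw [← mul_assoc]
    calc Cl l * c * η ≤ 1 * η := mul_le_mul_of_nonneg_right hc2 h0.le
      _ = η := one_mul _
  linarith

theorem kq_le {K3 : ℝ} (hK : 1 ≤ K3) {i : ℕ} (hi : 1 ≤ i) : ((kq K3 i : ℕ) : ℝ) ≤ i := by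
  have h1 := kq_sq hK hi
  have hi' : (1:ℝ) ≤ i := by exact_mod_cast hi
  have h2 : Real.log i ≤ i := by
    have := Real.log_le_sub_one_of_pos (show (0:ℝ) < i by linarith)
    linarith
  rcases Nat.eq_zero_or_pos (kq K3 i) with h | h
  · rw [h]; push_cast; linarith
  · have h3 : (1:ℝ) ≤ ((kq K3 i : ℕ) : ℝ) := by exact_mod_cast h
    nlinarith

theorem tc_tend {κ K3 : ℝ} (hκ : 0 < κ) (hK : 1 ≤ K3) :
    Tendsto (fun i => tc κ K3 i / 3) atTop (𝓝[>] 0) := by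
  rw [tendsto_nhdsWithin_iff]
  constructor
  · have h1 : Tendsto (fun i : ℕ => κ * ((1:ℝ)/2) ^ i) atTop (𝓝 (κ * 0)) :=
      half_tend.const_mul _
    rw [mul_zero] at h1
    refine squeeze_zero' ?_ ?_ h1
    · filter_upwards with i
      have := ww_pos i
      unfold tc
      positivity
    · filter_upwards [eventually_ge_atTop 1,
        (kq_tend hK).eventually (eventually_ge_atTop 1)] with i hi h3
      have h3' : (1:ℝ) ≤ ((kq K3 i : ℕ) : ℝ) := by exact_mod_cast h3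
      have h4 : ((kq K3 i : ℕ) : ℝ) ^ (1/4 : ℝ) ≤ i := by
        have := Real.rpow_le_rpow_of_exponent_le h3' (show (1/4 : ℝ) ≤ 1 by norm_num)
        rw [Real.rpow_one] at this
        exact this.trans (kq_le hK hi)
      unfold tc
      rw [ww_pow]
      have h5 : ((1:ℝ)/2) ^ (7 * i ^ 2) ≤ (1/2) ^ i * (1/2) ^ i := by
        rw [← pow_add]
        refine pow_le_pow_of_le_one (by norm_num) (by norm_num) ?_
        nlinarith
      calc κ * (((kq K3 i : ℕ) : ℝ) ^ (1/4 : ℝ) * (1/2) ^ (7 * i ^ 2)) / 3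
          ≤ κ * (i * ((1/2) ^ i * (1/2) ^ i)) / 3 := by gcongr
        _ = κ * ((i * (1/2) ^ i) * (1/2) ^ i) / 3 := by ring
        _ ≤ κ * (1 * (1/2) ^ i) / 3 := by
            have := i_half i
            gcongr
        _ ≤ κ * (1/2) ^ i := by
            have : 0 < κ * ((1:ℝ)/2) ^ i := by positivity
            linarith
  · filter_upwards [(kq_tend hK).eventually (eventually_ge_atTop 1)] with i h3
    have h3' : (0:ℝ) < ((kq K3 i : ℕ) : ℝ) := by
      have : 0 < kq K3 i := h3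
      exact_mod_cast this
    have := ww_pos i
    show 0 < tc κ K3 i / 3
    unfold tc
    positivity

/-- Comparison of the radius with `chi`. -/
theorem ww_chi {κ K3 : ℝ} (hκ : 0 < κ) (hK : 1 ≤ K3) : ∀ᶠ i : ℕ in atTop,
    2 * ww i ≤ (2 * (3 / κ) ^ (4/7 : ℝ) * (168 * K3) ^ (1/14 : ℝ)) * chi (tc κ K3 i / 3) := by
  obtain ⟨i1, hi1⟩ := exists_nat_gt (7 * Real.log 2 + |Real.log (3 / κ)| + 1)
  have hlt : ∀ᶠ i : ℕ in atTop, tc κ K3 i / 3 < 1 :=
    ((tc_tend hκ hK).mono_right nhdsWithin_le_nhds).eventually (gt_mem_nhds one_pos)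
  filter_upwards [eventually_ge_atTop (max i1 1), hlt,
    (kq_tend hK).eventually (eventually_ge_atTop 1)] with i hi hlt1 h3
  have hi2 : 1 ≤ i := (le_max_right _ _).trans hi
  have hiR : (1:ℝ) ≤ i := by exact_mod_cast hi2
  have hi3 : 7 * Real.log 2 + |Real.log (3 / κ)| + 1 < i := by
    have : (i1 : ℝ) ≤ i := by exact_mod_cast (le_max_left _ _).trans hi
    linarith
  have hk1 : (1:ℝ) ≤ ((kq K3 i : ℕ) : ℝ) := by exact_mod_cast h3
  have hk0 : (0:ℝ) < ((kq K3 i : ℕ) : ℝ) := by linarith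
  obtain ⟨q, hq⟩ : ∃ q : ℝ, q = ((kq K3 i : ℕ) : ℝ) := ⟨_, rfl⟩
  have hw := ww_pos i
  have hlogk := log_le_kq hK h3
  rw [← hq] at hk1 hk0 hlogk
  obtain ⟨h, hh⟩ : ∃ h : ℝ, h = tc κ K3 i / 3 := ⟨_, rfl⟩
  rw [← hh] at hlt1 ⊢
  have hh2 : h = (κ / 3) * (q ^ (1/4 : ℝ) * ww i ^ (7/4 : ℝ)) := by
    rw [hh, hq]; unfold tc; ring
  have hh0 : 0 < h := by rw [hh2]; positivity
  have hq4 : 1 ≤ q ^ (1/4 : ℝ) := Real.one_le_rpow hk1 (by norm_num)
  -- the logarithm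
  have e1 : Real.log (1 / h) ≤ i ^ 3 := by
    have a1 : (κ / 3) * ww i ^ (7/4 : ℝ) ≤ h := by
      rw [hh2]
      have : ww i ^ (7/4 : ℝ) ≤ q ^ (1/4 : ℝ) * ww i ^ (7/4 : ℝ) :=
        le_mul_of_one_le_left (by positivity) hq4
      exact mul_le_mul_of_nonneg_left this (by positivity)
    have a2 : Real.log (1 / h) ≤ Real.log (1 / ((κ / 3) * ww i ^ (7/4 : ℝ))) :=
      Real.log_le_log (by positivity) (one_div_le_one_div_of_le (by positivity) a1)
    refine a2.trans ?_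
    rw [ww_pow, one_div, mul_inv, Real.log_mul (by positivity) (by positivity), inv_div,
      ← inv_pow, Real.log_pow]
    have a3 : Real.log ((1:ℝ)/2)⁻¹ = Real.log 2 := by norm_num
    rw [a3]
    have a4 := le_abs_self (Real.log (3 / κ))
    have a5 := abs_nonneg (Real.log (3 / κ))
    have a6 : 0 ≤ Real.log 2 := Real.log_nonneg (by norm_num)
    push_cast
    have a7 : (1:ℝ) ≤ (i:ℝ) ^ 2 := one_le_pow₀ hiR
    have a8 : |Real.log (3 / κ)| ≤ |Real.log (3 / κ)| * (i:ℝ) ^ 2 := le_mul_of_one_le_right a5 a7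
    calc Real.log (3 / κ) + 7 * (i:ℝ) ^ 2 * Real.log 2
        ≤ (|Real.log (3 / κ)| + 7 * Real.log 2) * (i:ℝ) ^ 2 := by nlinarith
      _ ≤ i * (i:ℝ) ^ 2 := mul_le_mul_of_nonneg_right (by linarith) (by positivity)
      _ = (i:ℝ) ^ 3 := by ring
  have e2 : ll h ≤ 168 * K3 * q ^ 2 := by
    unfold ll
    refine max_le ?_ ?_
    · have : (1:ℝ) ≤ q ^ 2 := one_le_pow₀ hk1
      nlinarith
    · have b1 : 0 < Real.log (1 / h) := by
        refine Real.log_pos ?_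
        rw [lt_div_iff₀ hh0]; linarith
      have b2 : Real.log (Real.log (1 / h)) ≤ Real.log ((i:ℝ) ^ 3) := Real.log_le_log b1 e1
      rw [Real.log_pow] at b2
      push_cast at b2
      linarith
  have hl := ll_pos h
  have e3 : ll h ^ (1/14 : ℝ) ≤ (168 * K3) ^ (1/14 : ℝ) * q ^ (1/7 : ℝ) := by
    have a1 : (q ^ 2) ^ (1/14 : ℝ) = q ^ (1/7 : ℝ) := by
      rw [← Real.rpow_natCast, ← Real.rpow_mul hk0.le]; norm_num
    rw [← a1, ← Real.mul_rpow (by positivity) (by positivity)]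
    exact Real.rpow_le_rpow hl.le e2 (by norm_num)
  have e4 : h ^ (4/7 : ℝ) = (κ / 3) ^ (4/7 : ℝ) * (q ^ (1/7 : ℝ) * ww i) := by
    rw [hh2, Real.mul_rpow (by positivity) (by positivity),
      Real.mul_rpow (by positivity) (by positivity), ← Real.rpow_mul hk0.le,
      ← Real.rpow_mul hw.le]
    norm_num
  have e5 : (3 / κ) ^ (4/7 : ℝ) * (κ / 3) ^ (4/7 : ℝ) = 1 := by
    rw [← Real.mul_rpow (by positivity) (by positivity)]
    have : 3 / κ * (κ / 3) = 1 := by field_simp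
    rw [this, Real.one_rpow]
  unfold chi
  rw [← mul_div_assoc, le_div_iff₀ (by positivity), e4]
  have hq7 : 0 < q ^ (1/7 : ℝ) := by positivity
  calc 2 * ww i * ll h ^ (1/14 : ℝ) ≤ 2 * ww i * ((168 * K3) ^ (1/14 : ℝ) * q ^ (1/7 : ℝ)) :=
        mul_le_mul_of_nonneg_left e3 (by positivity)
    _ = 2 * (168 * K3) ^ (1/14 : ℝ) * (q ^ (1/7 : ℝ) * ww i) *
          ((3 / κ) ^ (4/7 : ℝ) * (κ / 3) ^ (4/7 : ℝ)) := by rw [e5]; ring
    _ = _ := by ring

/-- Upper bound: the oscillation is small at infinitely many scales. -/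
theorem osc_up {κ K3 : ℝ} (hκ : 0 < κ) (hK : 1 ≤ K3) {p : X} (hp : 0 < p.2) {t : unitInterval}
    (h : ∃ᶠ i : ℕ in atTop, t ∈ Gs p.1 p.2 (ww i) (tc κ K3 i)) :
    ∃ᶠ η : ℝ in 𝓝[>] 0, ∀ s : unitInterval, p.2 * |(s : ℝ) - t| ≤ η →
      dist (p.1 s) (p.1 t) ≤
        (2 * (3 / κ) ^ (4/7 : ℝ) * (168 * K3) ^ (1/14 : ℝ)) * chi η := by
  refine (tc_tend hκ hK).frequently ?_
  refine (h.and_eventually (ww_chi hκ hK)).mono ?_
  rintro i ⟨⟨u, v, huv, h1, h2, h3, h4⟩, h5⟩ s hs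
  refine le_trans ?_ h5
  have hs' : |(s : ℝ) - t| ≤ ((v : ℝ) - u) / 3 := by
    have h6 : p.2 * |(s : ℝ) - t| ≤ p.2 * (((v : ℝ) - u) / 3) := by linarith
    exact le_of_mul_le_mul_left h6 hp
  rw [abs_le] at hs'
  have huv' : (u : ℝ) ≤ v := huv
  have key : ∀ x : unitInterval, (u : ℝ) ≤ x → (x : ℝ) ≤ v → dist (p.1 u) (p.1 x) ≤ ww i := by
    intro x hx1 hx2
    have h7 := h1 x
    have h8 : max u (min x v) = x := by
      rw [min_eq_left (show x ≤ v from hx2), max_eq_right (show u ≤ x from hx1)]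
    rwa [h8] at h7
  have k1 := key s (by linarith [hs'.1]) (by linarith [hs'.2])
  have k2 := key t (by linarith) (by linarith)
  have k3 := dist_triangle_left (p.1 s) (p.1 t) (p.1 u)
  linarith

end Pool.Agent.R965.CS
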