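import Pool.Agent.Y995.FS.SlowTr
import Pool.Agent.Y995.FS.FastDet

/-!
Project CS: contiguous slow pieces. Deterministic part: a strand which crosses a tube between two
walls with a comb inside visits all the vertices of the comb during one crossing of the tube.
-/

set_option autoImplicit false

namespace Pool.Agent.R965.CS

open H974 Finset H342P H984P H984N Pool.Agent.Y995.FS TH992.T

/-! ### Strands -/

theorem strand_mid {F : Set Edg} {A y0 X' Y' : ℤ} {T' : ℕ} (h : Strand F A y0 X' Y' T') {X : ℤ}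
    (h1 : A < X) (h2 : X ≤ X') : ∃ (Y : ℤ) (T : ℕ), Strand F A y0 X Y T ∧ T ≤ T' := by
  have hmem : T' ∈ {t | X ≤ (orb F (st0 A y0) t).1.1} := by
    show X ≤ (orb F (st0 A y0) T').1.1
    rw [h.tip]
    exact h2
  obtain ⟨t, ht⟩ : ∃ t, t = sInf {t | X ≤ (orb F (st0 A y0) t).1.1} := ⟨_, rfl⟩
  have hle : t ≤ T' := by rw [ht]; exact Nat.sInf_le hmem
  have htm : X ≤ (orb F (st0 A y0) t).1.1 := by
    rw [ht]; exact Nat.sInf_mem ⟨T', hmem⟩
  have hlt : ∀ s < t, (orb F (st0 A y0) s).1.1 < X := by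
    intro s hs'
    rw [ht] at hs'
    exact not_le.mp (Nat.notMem_of_lt_sInf hs')
  have ht0 : t ≠ 0 := by
    intro h0
    rw [h0] at htm
    simp only [orb_zero, st0] at htm
    omega
  have htx : (orb F (st0 A y0) t).1.1 = X := by
    obtain ⟨t', ht'⟩ : ∃ t', t = t' + 1 := ⟨t - 1, by omega⟩
    have h3 := hlt t' (by omega)
    have h4 := (nxt_fst F (orb F (st0 A y0) t')).1
    rw [← orb_succ, ← ht'] at h4
    rw [abs_le] at h4
    omega
  have hstay : ∀ s < t, A ≤ (orb F (st0 A y0) s).1.1 ∧ (orb F (st0 A y0) s).1.1 < X :=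
    fun s hs' => ⟨(h.stay s (by omega)).1, hlt s hs'⟩
  obtain ⟨Y, hY⟩ := tip_of_first h1 hstay htx
  exact ⟨Y, t, ⟨h1, h.ent, hstay, hY⟩, hle⟩

theorem strand_le {F : Set Edg} {A y0 X Y X' Y' : ℤ} {T T' : ℕ} (h : Strand F A y0 X Y T)
    (h' : Strand F A y0 X' Y' T') (hX : X ≤ X') : T ≤ T' := by
  by_contra hcon
  push Not at hcon
  have h1 := (h.stay T' hcon).2
  rw [h'.tip] at h1
  simp only at h1
  omega

/-- The part of a strand after the last visit to the left of a column is a strand. -/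
theorem strand_sub {F : Set Edg} {A y0 X Y : ℤ} {T : ℕ} (h : Strand F A y0 X Y T) {A' : ℤ}
    (h1 : A < A') (h2 : A' < X) : ∃ (y' : ℤ) (t0 t : ℕ), t0 + t = T ∧ Strand F A' y' X Y t ∧
      orb F (st0 A y0) t0 = st0 A' y' := by
  classical
  obtain ⟨S, hS⟩ : ∃ S : Finset ℕ, S = (Finset.range (T + 1)).filter
    (fun s => (orb F (st0 A y0) s).1.1 < A') := ⟨_, rfl⟩
  have hne : S.Nonempty := by
    refine ⟨0, ?_⟩
    rw [hS, mem_filter, mem_range]
    refine ⟨by omega, ?_⟩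
    rw [orb_zero]
    exact h1
  obtain ⟨u, hu⟩ : ∃ u, u = S.max' hne := ⟨_, rfl⟩
  have huS : u ∈ S := by rw [hu]; exact S.max'_mem hne
  have humax : ∀ s ≤ T, (orb F (st0 A y0) s).1.1 < A' → s ≤ u := by
    intro s hs h
    rw [hu]
    refine S.le_max' s ?_
    rw [hS, mem_filter, mem_range]
    exact ⟨by omega, h⟩
  rw [hS, mem_filter, mem_range] at huS
  obtain ⟨hu1, hu2⟩ := huS
  have huT : u < T := by
    rcases Nat.lt_or_ge u T with h' | h'
    · exact h'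
    · exfalso
      have : u = T := by omega
      rw [this, h.tip] at hu2
      simp only at hu2
      omega
  have hnx : A' ≤ (orb F (st0 A y0) (u + 1)).1.1 := by
    by_contra hcon
    push Not at hcon
    have := humax (u + 1) (by omega) hcon
    omega
  have hstep : ∃ y', orb F (st0 A y0) (u + 1) = st0 A' y' ∧ ((A' - 1, y', true) : Edg) ∈ F := by
    rw [orb_succ] at hnx ⊢
    generalize orb F (st0 A y0) u = σ at hu2 hnx ⊢
    obtain ⟨⟨x, y⟩, k⟩ := σ
    by_cases hop : ae ((x, y), k) ∈ F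
    · rw [nxt_open hop] at hnx ⊢
      cases k
      · simp only [mv_ne] at hnx hu2 ⊢
        have hx : x = A' - 1 := by omega
        subst hx
        refine ⟨y, ?_, hop⟩
        unfold st0
        simp
      all_goals
        exfalso
        simp at hnx hu2
        omega
    · exfalso
      rw [nxt_closed hop, p2_rt_fst] at hnx
      simp at hnx hu2
      omega
  obtain ⟨y', hy1, hy2⟩ := hstep
  have horb : ∀ s, orb F (st0 A' y') s = orb F (st0 A y0) (s + (u + 1)) := by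
    intro s
    rw [orb_add, hy1]
  refine ⟨y', u + 1, T - (u + 1), by omega, ⟨h2, hy2, ?_, ?_⟩, hy1⟩
  · intro s hs
    rw [horb]
    refine ⟨?_, (h.stay _ (by omega)).2⟩
    by_contra hcon
    push Not at hcon
    have := humax (s + (u + 1)) (by omega) hcon
    omega
  · rw [horb, show T - (u + 1) + (u + 1) = T by omega]
    exact h.tip

/-! ### Confinement backwards -/

theorem conf_up_rev {F : Set Edg} {σ : St} {P Q c d yc yb : ℤ} {t : ℕ} (hPQ : P + 1 ≤ Q)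
    (hcd : c ≤ d) (hyc : c ≤ yc ∧ yc ≤ d)
    (hU : DReach (dE (LRE P Q c d) \ F) (P, yc) (Q, yb))
    (hcol : ∀ s ≤ t, P + 1 ≤ (orb F σ s).1.1 ∧ (orb F σ s).1.1 ≤ Q - 1)
    (h0 : (orb F σ t).1.2 ≤ c) : σ.1.2 ≤ d := by
  by_contra hcon
  have hr := (orb_reachB (B := fun v => P + 1 ≤ v.1 ∧ v.1 ≤ Q - 1) hcol).symm
  obtain ⟨x1, x2, hx1, hx2, h3, -⟩ := sub_TB (a := P + 1) (b := Q) (c := c) (d := d + 1)
    (by omega) (by
      rintro x y ⟨-, h⟩ _ _
      simp only [Set.mem_ofPred_eq, src_mk, tgt_false] at h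
      omega) (by
      rintro x y ⟨-, h⟩ _ _
      simp only [Set.mem_ofPred_eq, src_mk, tgt_true] at h
      omega) hr h0 (by omega)
  refine no_both_TB (F := F) (a := P + 1) (b := Q) (c := c) (d := d + 1) (y := yc) (y' := yb)
    hPQ hx2 (by omega) (h3.mono ?_) ?_
  · rintro e ⟨h, h'⟩
    exact ⟨h.1, h'⟩
  · have e1 : P + 1 - 1 = P := by ring
    rw [e1]
    refine hU.mono ?_
    rintro ⟨x, y, _ | _⟩ ⟨h, h'⟩
    · refine ⟨h', ?_⟩
      simp only [dE, Set.mem_ofPred_eq, dl_f, mem_LRE_true] at h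
      simp only [mem_coe, mem_TBE_false]
      omega
    · refine ⟨h', ?_⟩
      simp only [dE, Set.mem_ofPred_eq, dl_t, mem_LRE_false] at h
      simp only [mem_coe, mem_TBE_true]
      omega

theorem conf_low_rev {F : Set Edg} {σ : St} {P Q c d yc yb : ℤ} {t : ℕ}
    (hcd : c ≤ d) (hyb : c ≤ yb ∧ yb ≤ d)
    (hL : Reach (F ∩ ↑(LRE P Q c d)) (P, yc) (Q, yb))
    (hcol : ∀ s ≤ t, P + 1 ≤ (orb F σ s).1.1 ∧ (orb F σ s).1.1 ≤ Q - 1)
    (h0 : d ≤ (face (orb F σ t)).2) : c ≤ σ.1.2 := by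
  by_contra hcon
  have hf := face_col σ
  have hr := orb_dreachB (F := F) (σ := σ) (t := t) (B := fun v => P ≤ v.1 ∧ v.1 ≤ Q - 1)
    (fun s hs => by
      have h1 := hcol s hs
      have h2 := face_col (orb F σ s)
      omega)
  have hr' := reach_dl.2 hr
  obtain ⟨x1, x2, hx1, hx2, h3, -⟩ := sub_TB (a := P) (b := Q - 1) (c := c - 1) (d := d)
    (by omega) (by
      rintro x y ⟨e, ⟨h, -⟩, he⟩ _ _
      have he' : e = dl.symm (x, y, false) := by rw [← he]; simp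
      rw [dls_f] at he'
      subst he'
      simp only [Set.mem_ofPred_eq, dsrc_true, dtgt_mk] at h
      omega) (by
      rintro x y ⟨e, ⟨h, -⟩, he⟩ _ _
      have he' : e = dl.symm (x, y, true) := by rw [← he]; simp
      rw [dls_t] at he'
      subst he'
      simp only [Set.mem_ofPred_eq, dsrc_false, dtgt_mk] at h
      omega) hr' (by omega) h0
  have h4 : DReach (Fᶜ ∩ ↑(LRE P Q c d)) (x1, c - 1) (x2, d) := by
    rw [← reach_dl]
    refine h3.mono ?_
    rintro e' ⟨⟨e, ⟨-, hF⟩, he⟩, h'⟩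
    refine ⟨e, ⟨hF, ?_⟩, he⟩
    rw [← he] at h'
    obtain ⟨x, y, _ | _⟩ := e
    · simp only [mem_coe, dl_f, mem_TBE_true] at h'
      simp only [mem_coe, mem_LRE_false]
      omega
    · simp only [mem_coe, dl_t, mem_TBE_false] at h'
      simp only [mem_coe, mem_LRE_true]
      omega
  exact no_both (F := F) hcd hyb (by omega) hL h4

/-! ### Dual paths as paths -/

theorem hreach_iff {F : Set Edg} {S : Finset Edg} {u w : Vtx} :
    Reach (dl '' Fᶜ ∩ ↑S) u w ↔ DReach (dE S \ F) u w := by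
  constructor
  · intro h
    rw [← reach_dl]
    refine h.mono ?_
    rintro _ ⟨⟨e, he, rfl⟩, he2⟩
    exact ⟨e, ⟨he2, he⟩, rfl⟩
  · intro h
    refine (reach_dl.mpr h).mono ?_
    rintro _ ⟨e, ⟨he1, he2⟩, rfl⟩
    exact ⟨⟨e, he2, rfl⟩, he1⟩

/-- A vertical and a horizontal closed dual path through a rectangle meet. -/
theorem dmeet_gen {F : Set Edg} {S V Hh : Finset Edg} {p q c d : ℤ} (hpq : p < q) (hcd : c < d)
    (hV : V ⊆ S) (hH : Hh ⊆ S) (hR : RE p q c d ⊆ S)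
    (hV1 : ∀ x y, ((x, y, false) : Edg) ∈ V → c ≤ y → y < d → p ≤ x ∧ x ≤ q)
    (hV2 : ∀ x y, ((x, y, true) : Edg) ∈ V → c < y → y < d → p ≤ x ∧ x < q)
    (hH1 : ∀ x y, ((x, y, true) : Edg) ∈ Hh → p ≤ x → x < q → c ≤ y ∧ y ≤ d)
    (hH2 : ∀ x y, ((x, y, false) : Edg) ∈ Hh → p < x → x < q → c ≤ y ∧ y < d)
    {u w u' w' : Vtx} (h1 : DReach (dE V \ F) u w) (hu : u.2 ≤ c) (hw : d ≤ w.2)
    (h2 : DReach (dE Hh \ F) u' w') (hu' : u'.1 ≤ p) (hw' : q ≤ w'.1) :
    DReach (dE S \ F) u u' :=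
  hreach_iff.1 (meet_gen hpq hcd hV hH hR hV1 hV2 hH1 hH2 (hreach_iff.2 h1) hu hw
    (hreach_iff.2 h2) hu' hw')

/-! ### The geometry: walls of length `150 a`, comb at `X + 80 a` -/

/-- long lower wall and the connection with the short one -/
def LongL (X Y : ℤ) (a : ℕ) (F : Set Edg) : Prop :=
  (∃ y1 y2 : ℤ, Reach (F ∩ ↑(LRE (X + 40 * a) (X + 150 * a) (Y - 8 * a) (Y - 4 * a)))
    (X + 40 * a, y1) (X + 150 * a, y2)) ∧
  ∃ x1 x2 : ℤ, Reach (F ∩ ↑(TBE (X + 44 * a) (X + 48 * a) (Y - 8 * a) (Y - 4 * a)))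
    (x1, Y - 8 * a) (x2, Y - 4 * a)

/-- long upper wall and the connection with the short one -/
def LongU (X Y : ℤ) (a : ℕ) (F : Set Edg) : Prop :=
  (∃ y1 y2 : ℤ, DReach (dE (LRE (X + 40 * a) (X + 150 * a) (Y + 4 * a) (Y + 8 * a)) \ F)
    (X + 40 * a, y1) (X + 150 * a, y2)) ∧
  ∃ x1 x2 : ℤ, DReach (dE (TBE (X + 44 * a) (X + 48 * a) (Y + 4 * a) (Y + 8 * a)) \ F)
    (x1, Y + 4 * a) (x2, Y + 8 * a)

/-- the open part of the comb -/
noncomputable def VL (Z Y : ℤ) (a : ℕ) : Finset Edg :=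
  RE (Z + 20 * a) (Z + 24 * a) (Y - 12 * a) (Y + 3 * a) ∪
    RE (Z + 20 * a) (Z + 38 * a) (Y - 3 * a) (Y + 3 * a)

/-- the dual part of the comb -/
noncomputable def VU (Z Y : ℤ) (a : ℕ) : Finset Edg :=
  RE (Z + 40 * a) (Z + 44 * a) (Y - 3 * a) (Y + 12 * a) ∪
    RE (Z + 26 * a) (Z + 44 * a) (Y - 3 * a) (Y + 3 * a)

/-- The vertex is connected through the comb to both walls. -/
def SB (Z Y : ℤ) (a : ℕ) (F : Set Edg) (v : Vtx) : Prop :=
  (∃ w : Vtx, w.2 ≤ Y - 8 * a ∧ Reach (F ∩ ↑(VL Z Y a)) w v) ∧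
    ∃ g : Vtx, Y + 8 * a ≤ g.2 ∧ DReach (dE (VU Z Y a) \ F) v g

/-- The right end of the lower wall is below the tip. -/
theorem low_end {F : Set Edg} {A y0 X Y X'' Y'' : ℤ} {T T'' a : ℕ} (ha : 1 ≤ a)
    (hst'' : Strand F A y0 X'' Y'' T'') (hT : T ≤ T'')
    (hX'' : X'' = X + 150 * a) (hA : A + 60 * a ≤ X)
    (hL : BaseL A y0 X Y T a a F) {y1 y2 : ℤ}
    (h1 : Reach (F ∩ ↑(LRE (X + 40 * a) (X + 150 * a) (Y - 8 * a) (Y - 4 * a)))
      (X + 40 * a, y1) (X'', y2))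
    (h2 : ∃ x1 x2 : ℤ, Reach (F ∩ ↑(TBE (X + 44 * a) (X + 48 * a) (Y - 8 * a) (Y - 4 * a)))
      (x1, Y - 8 * a) (x2, Y - 4 * a)) : y2 ≤ Y'' := by
  have ha' : (1 : ℤ) ≤ a := by exact_mod_cast ha
  obtain ⟨x1, x2, h2⟩ := h2
  obtain ⟨yb, yc, hyb, hyc, hR1, c, ⟨s, hs, rfl⟩, hR2⟩ := hL
  obtain ⟨hv, hf, hS⟩ := side_exists hst''
  obtain ⟨S, hSd⟩ : ∃ S : Finset Edg, S = (Bl X Y a ∪
    LRE (X + 40 * a) (X + 150 * a) (Y - 8 * a) (Y - 4 * a)) := ⟨_, rfl⟩
  have hSA : (↑S : Set Edg) ⊆ Adm F A y0 X'' Y'' T'' := by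
    intro e he
    rw [hSd, Finset.mem_coe, mem_union] at he
    have h3 : A ≤ e.1 ∧ e.1 < X'' := by
      obtain ⟨x, y, _ | _⟩ := e
      · rw [Bl, mem_RE_false, mem_LRE_false] at he; simp only; omega
      · rw [Bl, mem_RE_true, mem_LRE_true] at he; simp only; omega
    exact ⟨Or.inl h3.1, fun h => by omega⟩
  have hTB : TBE (X + 44 * a) (X + 48 * a) (Y - 8 * a) (Y - 4 * a) ⊆ S := by
    rintro ⟨x, y, _ | _⟩ h
    · rw [mem_TBE_false] at h
      rw [hSd, mem_union, Bl, mem_RE_false]; omega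
    · rw [mem_TBE_true] at h
      rw [hSd, mem_union, Bl, mem_RE_true]; omega
  have hRE : RE (X + 44 * a) (X + 48 * a) (Y - 8 * a) (Y - 4 * a) ⊆ S := by
    rintro ⟨x, y, _ | _⟩ h
    · rw [mem_RE_false] at h
      rw [hSd, mem_union, Bl, mem_RE_false]; omega
    · rw [mem_RE_true] at h
      rw [hSd, mem_union, Bl, mem_RE_true]; omega
  have hLS : LSm X Y a a ⊆ S := by
    rintro ⟨x, y, _ | _⟩ h
    · rw [LSm, mem_LRE_false] at h
      rw [hSd, mem_union, Bl, mem_RE_false]; omega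
    · rw [LSm, mem_LRE_true] at h
      rw [hSd, mem_union, Bl, mem_RE_true]; omega
  have e1 : Reach (F ∩ ↑S) (x1, Y - 8 * a) (X + 8 * a, yc) := by
    refine meet_gen (p := X + 44 * a) (q := X + 48 * a) (c := Y - 8 * a) (d := Y - 4 * a)
      (by omega) (by omega) hTB hLS hRE ?_ ?_ ?_ ?_ h2 (by simp) (by simp) hR1
      (by simp only; omega) (by simp only; omega)
    · intro x y h; rw [mem_TBE_false] at h; omega
    · intro x y h; rw [mem_TBE_true] at h; omega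
    · intro x y h; rw [LSm, mem_LRE_true] at h; omega
    · intro x y h; rw [LSm, mem_LRE_false] at h; omega
  have e2 : Reach (F ∩ ↑S) (x1, Y - 8 * a) (X + 40 * a, y1) := by
    refine meet_gen (p := X + 44 * a) (q := X + 48 * a) (c := Y - 8 * a) (d := Y - 4 * a)
      (by omega) (by omega) hTB (Hh := LRE (X + 40 * a) (X + 150 * a) (Y - 8 * a) (Y - 4 * a))
      (by rw [hSd]; exact subset_union_right) hRE ?_ ?_ ?_ ?_ h2 (by simp) (by simp) h1
      (by simp only; omega) (by simp only; omega)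
    · intro x y h; rw [mem_TBE_false] at h; omega
    · intro x y h; rw [mem_TBE_true] at h; omega
    · intro x y h; rw [mem_LRE_true] at h; omega
    · intro x y h; rw [mem_LRE_false] at h; omega
  have e3 : Reach (F ∩ ↑S) (X + 40 * a, y1) (X'', y2) := h1.mono (by
    rintro e ⟨h3, h4⟩
    refine ⟨h3, ?_⟩
    rw [hSd, Finset.mem_coe, mem_union]
    exact Or.inr h4)
  have e4 : Reach (F ∩ ↑S) (X + 8 * a, yc) (orb F (st0 A y0) s).1 := hR2.mono (by
    rintro e ⟨h3, h4⟩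
    refine ⟨h3, ?_⟩
    rw [hSd, Finset.mem_coe, mem_union]
    exact Or.inl h4)
  have e5 := hv_reach hS hSA (((e4.symm.trans e1.symm).trans e2).trans e3)
  rw [(hS.strand s (hs.trans hT)).1] at e5
  exact (hS.rightv X'' y2 le_rfl).1 e5.symm

theorem hf_reach' {F : Set Edg} {A y0 X Y : ℤ} {T : ℕ} {hv hf : Vtx → ZMod 2}
    (hS : Side F A y0 X Y T hv hf) (hst : Strand F A y0 X Y T) {W : Set Edg}
    (hW : ∀ e ∈ W, e ∈ Adm F A y0 X Y T ∨ e = ((X, Y, false) : Edg))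
    {u v : Vtx} (h : DReach (W \ F) u v) : hf u = hf v := by
  induction h with
  | refl => rfl
  | tail _ hs ih =>
    obtain ⟨e, he, h⟩ := hs
    have h1 : hf (dsrc e) = hf (dtgt e) := by
      rcases hW e he.1 with h1 | h1
      · exact hf_closed hS he.2 h1
      · subst h1
        have h2 := (hS.strand T le_rfl).2
        rw [hst.tip] at h2
        have h3 := (hS.rightf X Y le_rfl).2 le_rfl
        rw [dsrc_false, dtgt_mk, h3]
        exact h2
    rcases h with ⟨h2, h3⟩ | ⟨h2, h3⟩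
    · rw [ih, ← h2, ← h3, h1]
    · rw [ih, ← h2, ← h3, h1]

/-- The right end of the upper wall is above the tip. -/
theorem up_end {F : Set Edg} {A y0 X Y X'' Y'' : ℤ} {T T'' a : ℕ} (ha : 1 ≤ a)
    (hst'' : Strand F A y0 X'' Y'' T'') (hT : T ≤ T'')
    (hX'' : X'' = X + 150 * a) (hA : A + 60 * a ≤ X)
    (hU : BaseU A y0 X Y T a a F) {y1 y2 : ℤ}
    (h1 : DReach (dE (LRE (X + 40 * a) (X + 150 * a) (Y + 4 * a) (Y + 8 * a)) \ F)
      (X + 40 * a, y1) (X'', y2))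
    (h2 : ∃ x1 x2 : ℤ, DReach (dE (TBE (X + 44 * a) (X + 48 * a) (Y + 4 * a) (Y + 8 * a)) \ F)
      (x1, Y + 4 * a) (x2, Y + 8 * a)) : Y'' ≤ y2 := by
  have ha' : (1 : ℤ) ≤ a := by exact_mod_cast ha
  obtain ⟨x1, x2, h2⟩ := h2
  obtain ⟨yb, yc, hyb, hyc, hR1, c, ⟨s, hs, rfl⟩, hR2⟩ := hU
  obtain ⟨hv, hf, hS⟩ := side_exists hst''
  obtain ⟨S, hSd⟩ : ∃ S : Finset Edg, S = (RE (X - 59 * a) (X + 59 * a) (Y - 59 * a) (Y + 59 * a) ∪
    LRE (X + 40 * a) (X + 150 * a) (Y + 4 * a) (Y + 8 * a)) := ⟨_, rfl⟩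
  have hSA : ∀ e ∈ dE S, e ∈ Adm F A y0 X'' Y'' T'' ∨ e = ((X'', Y'', false) : Edg) := by
    intro e he
    obtain ⟨x, y, _ | _⟩ := e
    · rw [hSd] at he
      simp only [dE, Set.mem_ofPred_eq, dl_f, mem_union, mem_RE_true, mem_LRE_true] at he
      by_cases h3 : x = X'' ∧ y = Y''
      · right
        rw [h3.1, h3.2]
      · left
        refine ⟨Or.inl (by simp only; omega), fun h => ?_⟩
        simp only at h
        omega
    · rw [hSd] at he
      simp only [dE, Set.mem_ofPred_eq, dl_t, mem_union, mem_RE_false, mem_LRE_false] at he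
      left
      refine ⟨Or.inl (by simp only; omega), fun h => ?_⟩
      simp only at h
      omega
  have hTB : TBE (X + 44 * a) (X + 48 * a) (Y + 4 * a) (Y + 8 * a) ⊆ S := by
    rintro ⟨x, y, _ | _⟩ h
    · rw [mem_TBE_false] at h
      rw [hSd, mem_union, mem_RE_false]; omega
    · rw [mem_TBE_true] at h
      rw [hSd, mem_union, mem_RE_true]; omega
  have hRE : RE (X + 44 * a) (X + 48 * a) (Y + 4 * a) (Y + 8 * a) ⊆ S := by
    rintro ⟨x, y, _ | _⟩ h
    · rw [mem_RE_false] at h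
      rw [hSd, mem_union, mem_RE_false]; omega
    · rw [mem_RE_true] at h
      rw [hSd, mem_union, mem_RE_true]; omega
  have hLS : USm X Y a a ⊆ S := by
    rintro ⟨x, y, _ | _⟩ h
    · rw [USm, mem_LRE_false] at h
      rw [hSd, mem_union, mem_RE_false]; omega
    · rw [USm, mem_LRE_true] at h
      rw [hSd, mem_union, mem_RE_true]; omega
  have e1 : DReach (dE S \ F) (x1, Y + 4 * a) (X + 8 * a, yc) := by
    refine dmeet_gen (p := X + 44 * a) (q := X + 48 * a) (c := Y + 4 * a) (d := Y + 8 * a)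
      (by omega) (by omega) hTB hLS hRE ?_ ?_ ?_ ?_ h2 (by simp) (by simp) hR1
      (by simp only; omega) (by simp only; omega)
    · intro x y h; rw [mem_TBE_false] at h; omega
    · intro x y h; rw [mem_TBE_true] at h; omega
    · intro x y h; rw [USm, mem_LRE_true] at h; omega
    · intro x y h; rw [USm, mem_LRE_false] at h; omega
  have e2 : DReach (dE S \ F) (x1, Y + 4 * a) (X + 40 * a, y1) := by
    refine dmeet_gen (p := X + 44 * a) (q := X + 48 * a) (c := Y + 4 * a) (d := Y + 8 * a)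
      (by omega) (by omega) hTB (Hh := LRE (X + 40 * a) (X + 150 * a) (Y + 4 * a) (Y + 8 * a))
      (by rw [hSd]; exact subset_union_right) hRE ?_ ?_ ?_ ?_ h2 (by simp) (by simp) h1
      (by simp only; omega) (by simp only; omega)
    · intro x y h; rw [mem_TBE_false] at h; omega
    · intro x y h; rw [mem_TBE_true] at h; omega
    · intro x y h; rw [mem_LRE_true] at h; omega
    · intro x y h; rw [mem_LRE_false] at h; omega
  have e3 : DReach (dE S \ F) (X + 40 * a, y1) (X'', y2) := h1.mono (by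
    rintro e ⟨h3, h4⟩
    refine ⟨?_, h4⟩
    rw [hSd]
    simp only [dE, Set.mem_ofPred_eq, mem_union] at h3 ⊢
    exact Or.inr h3)
  obtain ⟨W, hW⟩ : ∃ W : Set Edg, W = dE S ∪ ↑(Bl X Y a) := ⟨_, rfl⟩
  have hWA : ∀ e ∈ W, e ∈ Adm F A y0 X'' Y'' T'' ∨ e = ((X'', Y'', false) : Edg) := by
    rw [hW]
    rintro e (he | he)
    · exact hSA e he
    have h3 : A ≤ e.1 ∧ e.1 < X'' := by
      obtain ⟨x, y, _ | _⟩ := e
      · rw [Finset.mem_coe, Bl, mem_RE_false] at he; simp only; omega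
      · rw [Finset.mem_coe, Bl, mem_RE_true] at he; simp only; omega
    exact Or.inl ⟨Or.inl h3.1, fun h => by omega⟩
  have e4 : DReach (W \ F) (X + 8 * a, yc) (face (orb F (st0 A y0) s)) := hR2.mono (by
    rintro e ⟨h3, h4⟩
    exact ⟨by rw [hW]; exact Or.inr h3, h4⟩)
  have e6 : DReach (W \ F) (X + 8 * a, yc) (X'', y2) := ((e1.symm.trans e2).trans e3).mono (by
    rintro e ⟨h3, h4⟩
    exact ⟨by rw [hW]; exact Or.inl h3, h4⟩)
  have e5 := hf_reach' hS hst'' hWA (e4.symm.trans e6)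
  rw [(hS.strand s (hs.trans hT)).2] at e5
  exact (hS.rightf X'' y2 le_rfl).1 e5.symm

end Pool.Agent.R965.CS
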