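import Pool.Agent.R965.CS.Det

/-!
Contiguous slow pieces: the trial event and its deterministic consequence.
-/

set_option autoImplicit false

namespace Pool.Agent.R965.CS

open H974 Finset H342P H984P H984N Pool.Agent.Y995.FS TH992.T

/-- The part of the lower wall to the right of a column. -/
theorem wall_low {F : Set Edg} {A y0 X Y X'' Y'' A' : ℤ} {T T'' a : ℕ} (ha : 1 ≤ a)
    (hst'' : Strand F A y0 X'' Y'' T'') (hT : T ≤ T'')
    (hX'' : X'' = X + 150 * a) (hA : A + 60 * a ≤ X)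
    (hL : BaseL A y0 X Y T a a F) (hLL : LongL X Y a F) (h1 : X + 40 * a ≤ A') (h2 : A' < X'') :
    ∃ y1 y2 : ℤ, (Y - 8 * a ≤ y2 ∧ y2 ≤ Y - 4 * a) ∧
      Reach (F ∩ ↑(LRE A' X'' (Y - 8 * a) (Y - 4 * a))) (A', y1) (X'', y2) ∧ y2 ≤ Y'' := by
  obtain ⟨⟨y1, y2, hr⟩, hc⟩ := hLL
  rw [← hX''] at hr
  obtain ⟨z1, z2, hz1, hz2, h3, h4⟩ := sub_LR (a := A') (b := X'') (c := Y - 8 * a)
    (d := Y - 4 * a) h2 (by
      rintro x y ⟨-, h⟩ _ _
      rw [Finset.mem_coe, mem_LRE_true] at h; omega) (by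
      rintro x y ⟨-, h⟩ _ _
      rw [Finset.mem_coe, mem_LRE_false] at h; omega) hr (by simp only; omega) (by simp)
  refine ⟨z1, z2, hz2, h3.mono ?_, ?_⟩
  · rintro e ⟨⟨h5, -⟩, h6⟩
    exact ⟨h5, h6⟩
  · refine low_end ha hst'' hT hX'' hA hL (y1 := y1) (y2 := z2) ?_ hc
    rw [← hX'']
    refine h4.trans (h3.mono ?_)
    rintro e ⟨h5, -⟩
    exact h5

/-- The part of the upper wall to the right of a column. -/
theorem wall_up {F : Set Edg} {A y0 X Y X'' Y'' A' : ℤ} {T T'' a : ℕ} (ha : 1 ≤ a)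
    (hst'' : Strand F A y0 X'' Y'' T'') (hT : T ≤ T'')
    (hX'' : X'' = X + 150 * a) (hA : A + 60 * a ≤ X)
    (hU : BaseU A y0 X Y T a a F) (hUU : LongU X Y a F) (h1 : X + 40 * a ≤ A') (h2 : A' < X'') :
    ∃ y1 y2 : ℤ, (Y + 4 * a ≤ y1 ∧ y1 ≤ Y + 8 * a) ∧
      DReach (dE (LRE A' X'' (Y + 4 * a) (Y + 8 * a)) \ F) (A', y1) (X'', y2) ∧ Y'' ≤ y2 := by
  obtain ⟨⟨y1, y2, hr⟩, hc⟩ := hUU
  rw [← hX''] at hr
  have hr' := hreach_iff.2 hr
  obtain ⟨z1, z2, hz1, hz2, h3, h4⟩ := sub_LR (a := A') (b := X'') (c := Y + 4 * a)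
    (d := Y + 8 * a) h2 (by
      rintro x y ⟨-, h⟩ _ _
      rw [Finset.mem_coe, mem_LRE_true] at h; omega) (by
      rintro x y ⟨-, h⟩ _ _
      rw [Finset.mem_coe, mem_LRE_false] at h; omega) hr' (by simp only; omega) (by simp)
  refine ⟨z1, z2, hz1, hreach_iff.1 (h3.mono ?_), ?_⟩
  · rintro e ⟨⟨h5, -⟩, h6⟩
    exact ⟨h5, h6⟩
  · refine up_end ha hst'' hT hX'' hA hU (y1 := y1) (y2 := z2) ?_ hc
    rw [← hX'']
    refine hreach_iff.1 (h4.trans (h3.mono ?_))
    rintro e ⟨h5, -⟩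
    exact h5

/-- All the vertices of the comb are visited during the last crossing of the tube. -/
theorem comb_exm {F : Set Edg} {A y0 X Y X'' Y'' A' y' Z : ℤ} {T T'' a t : ℕ} (ha : 1 ≤ a)
    (hst'' : Strand F A y0 X'' Y'' T'') (hT : T ≤ T'')
    (hX'' : X'' = X + 150 * a) (hA : A + 60 * a ≤ X) (hA' : A' = X + 70 * a)
    (hZ : Z = X + 80 * a)
    (hL : BaseL A y0 X Y T a a F) (hLL : LongL X Y a F)
    (hU : BaseU A y0 X Y T a a F) (hUU : LongU X Y a F)
    (hs : Strand F A' y' X'' Y'' t) {v : Vtx} (hv : v ∈ Wv Z Y a) (hSB : SB Z Y a F v) :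
    ∃ s < t, ae (orb F (st0 A' y') s) = (v.1, v.2, true) := by
  have ha' : (1 : ℤ) ≤ a := by exact_mod_cast ha
  obtain ⟨hv', hf', hS⟩ := side_exists hs
  obtain ⟨y1, y2, hy2, hr, hyY⟩ := wall_low ha hst'' hT hX'' hA hL hLL (A' := A') (by omega)
    (by omega)
  obtain ⟨u1, u2, hu1, hd, huY⟩ := wall_up ha hst'' hT hX'' hA hU hUU (A' := A') (by omega)
    (by omega)
  obtain ⟨⟨w, hw, hRw⟩, g, hg, hDg⟩ := hSB
  have hvv := hv
  unfold Wv at hvv
  rw [mem_product, mem_Icc, mem_Icc] at hvv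
  -- the lower side
  have e1 : hv' v = 0 := by
    obtain ⟨S, hSd⟩ : ∃ S : Finset Edg, S = (LRE A' X'' (Y - 8 * a) (Y - 4 * a) ∪
      (VL Z Y a ∪ RE (Z + 20 * a) (Z + 24 * a) (Y - 8 * a) (Y - 4 * a))) := ⟨_, rfl⟩
    have hm : Reach (F ∩ ↑S) w (A', y1) := by
      refine meet_gen (p := Z + 20 * a) (q := Z + 24 * a) (c := Y - 8 * a) (d := Y - 4 * a)
        (by omega) (by omega) (V := VL Z Y a) (Hh := LRE A' X'' (Y - 8 * a) (Y - 4 * a))
        ?_ ?_ ?_ ?_ ?_ ?_ ?_ hRw hw (by omega) hr (by simp only; omega) (by simp only; omega)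
      · rw [hSd]; exact subset_union_left.trans subset_union_right
      · rw [hSd]; exact subset_union_left
      · rw [hSd]; exact subset_union_right.trans subset_union_right
      · intro x y h _ _; simp only [VL, mem_union, mem_RE_false] at h; omega
      · intro x y h _ _; simp only [VL, mem_union, mem_RE_true] at h; omega
      · intro x y h _ _; rw [mem_LRE_true] at h; omega
      · intro x y h _ _; rw [mem_LRE_false] at h; omega
    have hm1 : Reach (F ∩ ↑S) w v := hRw.mono (by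
      rintro e ⟨h0, h⟩
      refine ⟨h0, ?_⟩
      rw [hSd, Finset.mem_coe, mem_union, mem_union]
      exact Or.inr (Or.inl h))
    have hm2 : Reach (F ∩ ↑S) (A', y1) (X'', y2) := hr.mono (by
      rintro e ⟨h0, h⟩
      refine ⟨h0, ?_⟩
      rw [hSd, Finset.mem_coe, mem_union]
      exact Or.inl h)
    have hSA : (↑S : Set Edg) ⊆ Adm F A' y' X'' Y'' t := by
      intro e he
      have h3 : A' ≤ e.1 ∧ e.1 < X'' := by
        obtain ⟨x, y, _ | _⟩ := e
        · rw [hSd] at he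
          simp only [VL, Finset.mem_coe, mem_union, mem_RE_false, mem_LRE_false] at he
          simp only; omega
        · rw [hSd] at he
          simp only [VL, Finset.mem_coe, mem_union, mem_RE_true, mem_LRE_true] at he
          simp only; omega
      exact ⟨Or.inl h3.1, fun h => by omega⟩
    have h5 := hv_reach hS hSA ((hm1.symm.trans hm).trans hm2)
    rw [h5]
    exact (hS.rightv X'' y2 le_rfl).2 hyY
  -- the upper side
  have e2 : hf' v = 1 := by
    obtain ⟨S, hSd⟩ : ∃ S : Finset Edg, S = (LRE A' X'' (Y + 4 * a) (Y + 8 * a) ∪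
      (VU Z Y a ∪ RE (Z + 40 * a) (Z + 44 * a) (Y + 4 * a) (Y + 8 * a))) := ⟨_, rfl⟩
    have hm : DReach (dE S \ F) v (A', u1) := by
      refine dmeet_gen (p := Z + 40 * a) (q := Z + 44 * a) (c := Y + 4 * a) (d := Y + 8 * a)
        (by omega) (by omega) (V := VU Z Y a) (Hh := LRE A' X'' (Y + 4 * a) (Y + 8 * a))
        ?_ ?_ ?_ ?_ ?_ ?_ ?_ hDg (by omega) hg hd (by simp only; omega) (by simp only; omega)
      · rw [hSd]; exact subset_union_left.trans subset_union_right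
      · rw [hSd]; exact subset_union_left
      · rw [hSd]; exact subset_union_right.trans subset_union_right
      · intro x y h _ _; simp only [VU, mem_union, mem_RE_false] at h; omega
      · intro x y h _ _; simp only [VU, mem_union, mem_RE_true] at h; omega
      · intro x y h _ _; rw [mem_LRE_true] at h; omega
      · intro x y h _ _; rw [mem_LRE_false] at h; omega
    have hm2 : DReach (dE S \ F) (A', u1) (X'', u2) := hd.mono (by
      rintro e ⟨h0, h⟩
      refine ⟨?_, h⟩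
      rw [hSd]
      simp only [dE, Set.mem_ofPred_eq, mem_union] at h0 ⊢
      exact Or.inl h0)
    have hSA : ∀ e ∈ dE S, e ∈ Adm F A' y' X'' Y'' t ∨ e = ((X'', Y'', false) : Edg) := by
      intro e he
      obtain ⟨x, y, _ | _⟩ := e
      · rw [hSd] at he
        simp only [VU, dE, Set.mem_ofPred_eq, dl_f, mem_union, mem_RE_true, mem_LRE_true] at he
        by_cases h3 : x = X'' ∧ y = Y''
        · right
          rw [h3.1, h3.2]
        · left
          refine ⟨Or.inl (by simp only; omega), fun h => ?_⟩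
          simp only at h
          omega
      · rw [hSd] at he
        simp only [VU, dE, Set.mem_ofPred_eq, dl_t, mem_union, mem_RE_false, mem_LRE_false] at he
        left
        refine ⟨Or.inl (by simp only; omega), fun h => ?_⟩
        simp only at h
        omega
    have h5 := hf_reach' hS hs hSA (hm.trans hm2)
    rw [h5]
    exact (hS.rightf X'' u2 le_rfl).2 huY
  have key : ((v.1, v.2, true) : Edg) ∈ Exm F (st0 A' y') t := by
    by_contra hne
    have h3 := (hS.free (v.1, v.2, true) hne (by simp only; omega) (fun h4 => by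
      have := h4.1
      simp only at this
      omega)).2.2
    simp only [src_mk, dtgt_mk] at h3
    have e3 : ((v.1, v.2) : Vtx) = v := rfl
    rw [e3, e1, e2] at h3
    exact absurd h3 (by decide)
  rw [mem_Exm] at key
  exact key

/-- The strand is confined during the last crossing. -/
theorem conf_sub {F : Set Edg} {A y0 X Y X'' Y'' A' y' : ℤ} {T T'' a t : ℕ} (ha : 1 ≤ a)
    (hst'' : Strand F A y0 X'' Y'' T'') (hT : T ≤ T'')
    (hX'' : X'' = X + 150 * a) (hA : A + 60 * a ≤ X) (hA' : A' = X + 70 * a)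
    (hL : BaseL A y0 X Y T a a F) (hLL : LongL X Y a F)
    (hU : BaseU A y0 X Y T a a F) (hUU : LongU X Y a F)
    (hs : Strand F A' y' X'' Y'' t) {s1 : ℕ} (hs1 : s1 < t)
    (h1 : Y - 4 * a ≤ (face (orb F (st0 A' y') s1)).2)
    (h2 : (orb F (st0 A' y') s1).1.2 ≤ Y + 4 * a) {s : ℕ} (hst : s < t) :
    Y - 8 * a ≤ (orb F (st0 A' y') s).1.2 ∧ (orb F (st0 A' y') s).1.2 ≤ Y + 8 * a := by
  have ha' : (1 : ℤ) ≤ a := by exact_mod_cast ha
  obtain ⟨y1, y2, hy2, hr, hyY⟩ := wall_low ha hst'' hT hX'' hA hL hLL (A' := A' - 1) (by omega)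
    (by omega)
  obtain ⟨u1, u2, hu1, hd, huY⟩ := wall_up ha hst'' hT hX'' hA hU hUU (A' := A' - 1) (by omega)
    (by omega)
  rcases le_total s1 s with hle | hle
  · obtain ⟨r, rfl⟩ : ∃ r, s = r + s1 := ⟨s - s1, by omega⟩
    rw [orb_add]
    have hcol : ∀ q ≤ r, A' - 1 + 1 ≤ (orb F (orb F (st0 A' y') s1) q).1.1 ∧
        (orb F (orb F (st0 A' y') s1) q).1.1 ≤ X'' - 1 := by
      intro q hq
      have := hs.stay (q + s1) (by omega)
      rw [orb_add] at this
      omega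
    exact ⟨conf_low (by omega) hy2 hr hcol h1,
      conf_up (by omega) (by omega) hu1 hd hcol h2⟩
  · obtain ⟨r, hr'⟩ : ∃ r, s1 = r + s := ⟨s1 - s, by omega⟩
    rw [hr', orb_add] at h1 h2
    have hcol : ∀ q ≤ r, A' - 1 + 1 ≤ (orb F (orb F (st0 A' y') s) q).1.1 ∧
        (orb F (orb F (st0 A' y') s) q).1.1 ≤ X'' - 1 := by
      intro q hq
      have := hs.stay (q + s) (by omega)
      rw [orb_add] at this
      omega
    exact ⟨conf_low_rev (by omega) hy2 hr hcol h1,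
      conf_up_rev (by omega) (by omega) hu1 hd hcol h2⟩

/-- A long piece of the path inside of a small ball. -/
def gC (r : ℤ) (M : ℝ) (x : ℕ → Vtx) (t : ℕ) : Prop :=
  ∃ i j : ℕ, i ≤ j ∧ j ≤ t ∧ M ≤ ((j - i : ℕ) : ℝ) ∧ ∀ s, i ≤ s → s ≤ j → sd (x i) (x s) ≤ r

theorem gC_good (r : ℤ) (M : ℝ) : PGood (gC r M) where
  congr x x' t h := by
    rintro ⟨i, j, h1, h2, h3, h4⟩
    refine ⟨i, j, h1, h2, h3, fun s hs hs' => ?_⟩
    rw [← h i (by omega), ← h s (by omega)]
    exact h4 s hs hs'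
  mono x s0 t' t h := by
    rintro ⟨i, j, h1, h2, h3, h4⟩
    refine ⟨i + s0, j + s0, by omega, by omega, ?_, fun s hs hs' => ?_⟩
    · rw [show j + s0 - (i + s0) = j - i by omega]
      exact h3
    · obtain ⟨u, rfl⟩ : ∃ u, s = u + s0 := ⟨s - s0, by omega⟩
      exact h4 u (by omega) (by omega)
  rot x t := by
    rintro ⟨i, j, h1, h2, h3, h4⟩
    refine ⟨i, j, h1, h2, h3, fun s hs hs' => ?_⟩
    rw [← sd_rV]
    exact h4 s hs hs'
  trl x t b c := by
    rintro ⟨i, j, h1, h2, h3, h4⟩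
    refine ⟨i, j, h1, h2, h3, fun s hs hs' => ?_⟩
    rw [← sd_trl (x i) (x s) b c]
    exact h4 s hs hs'

open Classical in
/-- The trial event. -/
def Qc (a : ℕ) (M : ℝ) : TEv := fun A y0 X Y T F =>
  (BaseL A y0 X Y T a a F ∧ BaseU A y0 X Y T a a F) ∧ (LongL X Y a F ∧ LongU X Y a F) ∧
    1 ≤ ((Wv (X + 80 * a) Y a).filter (SB (X + 80 * a) Y a F)).card ∧
    M + 1 ≤ (((Wv (X + 80 * a) Y a).filter (SB (X + 80 * a) Y a F)).card : ℝ)

/-- The deterministic statement about a successful trial. -/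
theorem cont_det {F : Set Edg} {A y0 X Y X' Y' : ℤ} {T T' a : ℕ} {M : ℝ} (ha : 1 ≤ a)
    (hst : Strand F A y0 X Y T) (hst' : Strand F A y0 X' Y' T')
    (hX' : X + 150 * a ≤ X') (hA : A + 60 * a ≤ X) (hQ : Qc a M A y0 X Y T F) :
    gC (81 * a) M (fun s => (orb F (st0 A y0) s).1) T' := by
  classical
  have ha' : (1 : ℤ) ≤ a := by exact_mod_cast ha
  obtain ⟨⟨hL, hU⟩, ⟨hLL, hUU⟩, hne, hM⟩ := hQ
  obtain ⟨X'', hX''⟩ : ∃ X'' : ℤ, X'' = X + 150 * a := ⟨_, rfl⟩
  obtain ⟨A', hA'⟩ : ∃ A' : ℤ, A' = X + 70 * a := ⟨_, rfl⟩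
  obtain ⟨Z, hZ⟩ : ∃ Z : ℤ, Z = X + 80 * a := ⟨_, rfl⟩
  rw [← hZ] at hne hM
  obtain ⟨Y'', T'', hst'', hTT'⟩ := strand_mid hst' (X := X'') (by omega) (by omega)
  have hTT : T ≤ T'' := strand_le hst hst'' (by omega)
  obtain ⟨y', t0, t, htt, hs, horb0⟩ := strand_sub hst'' (A' := A') (by omega) (by omega)
  obtain ⟨V, hV⟩ : ∃ V, V = (Wv Z Y a).filter (SB Z Y a F) := ⟨_, rfl⟩
  rw [← hV] at hne hM
  have key : ∀ v ∈ V, ∃ s < t, ae (orb F (st0 A' y') s) = (v.1, v.2, true) := by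
    intro v hv
    rw [hV, mem_filter] at hv
    exact comb_exm ha hst'' hTT hX'' hA hA' hZ hL hLL hU hUU hs hv.1 hv.2
  choose! τ hτ1 hτ2 using key
  have hVne : V.Nonempty := Finset.card_pos.1 hne
  have hIne : (V.image τ).Nonempty := hVne.image τ
  obtain ⟨i, hi⟩ : ∃ i, i = (V.image τ).min' hIne := ⟨_, rfl⟩
  obtain ⟨j, hj⟩ : ∃ j, j = (V.image τ).max' hIne := ⟨_, rfl⟩
  have hi1 : i ∈ V.image τ := by rw [hi]; exact Finset.min'_mem _ _
  have hj1 : j ∈ V.image τ := by rw [hj]; exact Finset.max'_mem _ _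
  have hij : i ≤ j := by rw [hi]; exact Finset.min'_le _ _ hj1
  have hjt : j < t := by
    rw [mem_image] at hj1
    obtain ⟨v, hv, h⟩ := hj1
    rw [← h]
    exact hτ1 v hv
  have hcard : V.card ≤ j - i + 1 := by
    have h1 : (V.image τ) ⊆ Finset.Icc i j := by
      intro s hs
      rw [mem_Icc, hi, hj]
      exact ⟨Finset.min'_le _ _ hs, Finset.le_max' _ _ hs⟩
    have h2 := Finset.card_le_card h1
    rw [Finset.card_image_of_injOn, Nat.card_Icc] at h2
    · omega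
    · intro u hu v hv huv
      have h3 := hτ2 u hu
      have h4 := hτ2 v hv
      rw [huv, h4] at h3
      simp only [Prod.mk.injEq, and_true] at h3
      exact Prod.ext h3.1.symm h3.2.symm
  have hconf : ∀ s < t, Y - 8 * a ≤ (orb F (st0 A' y') s).1.2 ∧
      (orb F (st0 A' y') s).1.2 ≤ Y + 8 * a := by
    intro s hst2
    rw [mem_image] at hi1
    obtain ⟨v, hv, h⟩ := hi1
    have hv2 := hτ2 v hv
    have hv3 : v ∈ Wv Z Y a := by
      rw [hV, mem_filter] at hv
      exact hv.1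
    unfold Wv at hv3
    rw [mem_product, mem_Icc, mem_Icc] at hv3
    have hb : Y - 4 * a ≤ (face (orb F (st0 A' y') (τ v))).2 ∧
        (orb F (st0 A' y') (τ v)).1.2 ≤ Y + 4 * a := by
      rcases ae_at hv2 with ⟨h5, h6⟩ | ⟨h5, h6⟩
      · rw [h5, h6]; omega
      · rw [h5, h6]; simp only; omega
    exact conf_sub ha hst'' hTT hX'' hA hA' hL hLL hU hUU hs (hτ1 v hv) hb.1 hb.2 hst2
  have horb : ∀ s, orb F (st0 A y0) (s + t0) = orb F (st0 A' y') s := by
    intro s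
    rw [orb_add, horb0]
  refine ⟨i + t0, j + t0, by omega, by omega, ?_, ?_⟩
  · rw [show j + t0 - (i + t0) = j - i by omega]
    have h1 : (V.card : ℝ) ≤ ((j - i : ℕ) : ℝ) + 1 := by exact_mod_cast hcard
    linarith
  · intro s hs1 hs2
    obtain ⟨u, rfl⟩ : ∃ u, s = u + t0 := ⟨s - t0, by omega⟩
    simp only [horb]
    have h1 := hconf i (by omega)
    have h2 := hconf u (by omega)
    have h3 := hs.stay i (by omega)
    have h4 := hs.stay u (by omega)
    rw [det_sd_eq]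
    omega

theorem Qc_det {a K : ℕ} {M : ℝ} (ha : 1 ≤ a) : DetQ (Qc a M) (3 * a) K (gC (81 * a) M) := by
  intro F A y0 Y T j Yj Tj hst hj hjK hstj hTj hQ
  have hm1 : (1 : ℤ) ≤ a := by exact_mod_cast ha
  have hj' : (1 : ℤ) ≤ j := by exact_mod_cast hj
  have hjK' : (j : ℤ) + 1 ≤ K := by exact_mod_cast hjK
  have e1 : 121 * ((3 * a : ℕ) : ℤ) ≤ 121 * ((3 * a : ℕ) : ℤ) * j := by
    push_cast
    nlinarith
  have e2 : 121 * ((3 * a : ℕ) : ℤ) * j + 121 * ((3 * a : ℕ) : ℤ) ≤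
      121 * ((3 * a : ℕ) : ℤ) * K := by
    push_cast
    nlinarith
  refine cont_det ha hstj hst ?_ ?_ hQ
  · push_cast at e1 e2 ⊢
    linarith
  · push_cast at e1 e2 ⊢
    linarith

end Pool.Agent.R965.CS
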