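import Pool.Agent.R965.CS.Det2

/-!
Contiguous slow pieces: probability of the trial.
-/

set_option autoImplicit false
set_option linter.unusedVariables false

namespace Pool.Agent.R965.CS

open H974 hiding RB
open Finset H342P H984P H984N Pool.Agent.Y995.FS TH992.T

/-- vertices of the comb with arms are connected to both walls -/
theorem sb_comb {F : Finset Edg} {G : Set Edg} {X Y : ℤ} {m b I : ℕ} (hb : 1 ≤ b)
    (hbm : 12 * b ≤ m) (hH : HgtC m b I)
    (hFG : ∀ e ∈ RB X Y m, (e ∈ F ↔ e ∈ G)) (hA : CA X Y m b I F)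
    (hB : CB X Y m b I F) {v : Vtx} (hv : MidC X Y m b I v) (hR : RA v b ↑F) :
    SB X Y m G v := by
  have hb' : (1 : ℤ) ≤ b := by exact_mod_cast hb
  have hbm' : 12 * (b : ℤ) ≤ m := by exact_mod_cast hbm
  have hm : 1 ≤ m := by omega
  obtain ⟨⟨hv1, hv2⟩, i, hi, hr1, hr2⟩ := hv
  obtain ⟨hy1, hy2⟩ := yt_bd (Y := Y) hH hi
  obtain ⟨⟨w, hw, hRw⟩, g, hg, hDg⟩ := hR
  obtain ⟨v1, v2⟩ := v
  simp only at hv1 hv2 hr1 hr2 hw hg
  obtain ⟨y, hy⟩ : ∃ y, y = yt Y m b i := ⟨_, rfl⟩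
  rw [← hy] at hy1 hy2 hr1 hr2
  constructor
  · obtain ⟨V, hV⟩ : ∃ V : Finset Edg, V = RE (X + 20 * m) (X + 24 * m) (Y - 12 * m) (Y + 3 * m) ∪
      RE (X + 20 * m) (X + 38 * m) (Y - 3 * m) (Y + 3 * m) := ⟨_, rfl⟩
    obtain ⟨y1, y2, hy1', hy2', hc⟩ := hA.1 i hi
    obtain ⟨x1, x2, hx1, hx2, hs⟩ := hA.2
    rw [← hy] at hy1' hy2' hc
    have e1 : Reach ((↑F : Set Edg) ∩ ↑V) w (X + 20 * m, y1) := by
      refine meet_gen (p := v1 - 12 * b) (q := v1 + 12 * b) (c := y) (d := y + 4 * b)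
        (by omega) (by omega) (V := PR (v1, v2) b)
        (Hh := LRE (X + 20 * m) (X + 38 * m) y (y + 4 * b)) ?_ ?_ ?_ ?_ ?_ ?_ ?_
        hRw.symm (by omega) (by simp only; omega) hc (by simp only; omega) (by simp only; omega)
      · rintro ⟨x, y, _ | _⟩ h
        · simp only [PR, hV, mem_union, mem_RE_false] at h ⊢; omega
        · simp only [PR, hV, mem_union, mem_RE_true] at h ⊢; omega
      · rintro ⟨x, y, _ | _⟩ h
        · simp only [hV, mem_union, mem_RE_false, mem_LRE_false] at h ⊢; omega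
        · simp only [hV, mem_union, mem_RE_true, mem_LRE_true] at h ⊢; omega
      · rintro ⟨x, y, _ | _⟩ h
        · simp only [hV, mem_union, mem_RE_false] at h ⊢; omega
        · simp only [hV, mem_union, mem_RE_true] at h ⊢; omega
      · intro x y h; simp only [PR, mem_RE_false] at h; omega
      · intro x y h; simp only [PR, mem_RE_true] at h; omega
      · intro x y h; simp only [mem_LRE_true] at h; omega
      · intro x y h; simp only [mem_LRE_false] at h; omega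
    have e2 : Reach ((↑F : Set Edg) ∩ ↑V) (x1, Y - 12 * m) (X + 20 * m, y1) := by
      refine meet_gen (p := X + 20 * m) (q := X + 24 * m) (c := y) (d := y + 4 * b)
        (by omega) (by omega)
        (V := TBE (X + 20 * m) (X + 24 * m) (Y - 12 * m) (Y + 3 * m))
        (Hh := LRE (X + 20 * m) (X + 38 * m) y (y + 4 * b)) ?_ ?_ ?_ ?_ ?_ ?_ ?_
        hs (by simp only; omega) (by simp only; omega) hc (by simp only; omega)
        (by simp only; omega)
      · rintro ⟨x, y, _ | _⟩ h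
        · simp only [hV, mem_union, mem_RE_false, mem_TBE_false] at h ⊢; omega
        · simp only [hV, mem_union, mem_RE_true, mem_TBE_true] at h ⊢; omega
      · rintro ⟨x, y, _ | _⟩ h
        · simp only [hV, mem_union, mem_RE_false, mem_LRE_false] at h ⊢; omega
        · simp only [hV, mem_union, mem_RE_true, mem_LRE_true] at h ⊢; omega
      · rintro ⟨x, y, _ | _⟩ h
        · simp only [hV, mem_union, mem_RE_false] at h ⊢; omega
        · simp only [hV, mem_union, mem_RE_true] at h ⊢; omega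
      · intro x y h; simp only [mem_TBE_false] at h; omega
      · intro x y h; simp only [mem_TBE_true] at h; omega
      · intro x y h; simp only [mem_LRE_true] at h; omega
      · intro x y h; simp only [mem_LRE_false] at h; omega
    have e3 : Reach ((↑F : Set Edg) ∩ ↑V) w (v1, v2) := hRw.symm.mono (by
      rintro ⟨x, y, _ | _⟩ ⟨h0, h⟩
      · refine ⟨h0, ?_⟩
        simp only [PR, hV, mem_coe, mem_union, mem_RE_false] at h ⊢; omega
      · refine ⟨h0, ?_⟩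
        simp only [PR, hV, mem_coe, mem_union, mem_RE_true] at h ⊢; omega)
    have hVR : V ⊆ RB X Y m := by
      rintro ⟨x, y, _ | _⟩ h
      · simp only [hV, RB, mem_union, mem_RE_false] at h ⊢; omega
      · simp only [hV, RB, mem_union, mem_RE_true] at h ⊢; omega
    have e4 : Reach (G ∩ ↑V) (x1, Y - 12 * m) (v1, v2) :=
      ((e2.trans e1.symm).trans e3).mono (by
        rintro e ⟨h0, h⟩
        exact ⟨(hFG e (hVR (Finset.mem_coe.1 h))).1 (Finset.mem_coe.1 h0), h⟩)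
    refine ⟨(x1, Y - 12 * m), by simp only; omega, ?_⟩
    rw [hV] at e4
    exact e4
  · obtain ⟨V, hV⟩ : ∃ V : Finset Edg, V = RE (X + 40 * m) (X + 44 * m) (Y - 3 * m) (Y + 12 * m) ∪
      RE (X + 26 * m) (X + 44 * m) (Y - 3 * m) (Y + 3 * m) := ⟨_, rfl⟩
    obtain ⟨y1, y2, hy1', hy2', hc⟩ := hB.1 i hi
    obtain ⟨x1, x2, hx1, hx2, hs⟩ := hB.2
    rw [← hy] at hy1' hy2' hc
    obtain ⟨F', hF'⟩ : ∃ F' : Finset Edg, F' = dmp (RB X Y m \ F) := ⟨_, rfl⟩
    rw [← hF'] at hc hs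
    have a1 : Reach ((↑F' : Set Edg) ∩ ↑(DR (v1, v2) b)) (v1, v2) g := by
      refine (reach_dl.mpr hDg).mono ?_
      rintro _ ⟨e, ⟨he1, he2⟩, rfl⟩
      refine ⟨?_, he1⟩
      rw [hF', mem_coe, mem_dmp, Equiv.symm_apply_apply, mem_sdiff]
      refine ⟨?_, he2⟩
      obtain ⟨x, y, _ | _⟩ := e
      · simp only [dE, DR, Set.mem_ofPred_eq, dl_f, mem_RE_true] at he1
        simp only [RB, mem_RE_false]; omega
      · simp only [dE, DR, Set.mem_ofPred_eq, dl_t, mem_RE_false] at he1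
        simp only [RB, mem_RE_true]; omega
    have e1 : Reach ((↑F' : Set Edg) ∩ ↑V) (v1, v2) (X + 26 * m, y1) := by
      refine meet_gen (p := v1 - 12 * b) (q := v1 + 12 * b) (c := y + 16 * b)
        (d := y + 16 * b + 4 * b) (by omega) (by omega) (V := DR (v1, v2) b)
        (Hh := LRE (X + 26 * m) (X + 44 * m) (y + 16 * b) (y + 16 * b + 4 * b))
        ?_ ?_ ?_ ?_ ?_ ?_ ?_
        a1 (by simp only; omega) (by omega) hc (by simp only; omega) (by simp only; omega)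
      · rintro ⟨x, y, _ | _⟩ h
        · simp only [DR, hV, mem_union, mem_RE_false] at h ⊢; omega
        · simp only [DR, hV, mem_union, mem_RE_true] at h ⊢; omega
      · rintro ⟨x, y, _ | _⟩ h
        · simp only [hV, mem_union, mem_RE_false, mem_LRE_false] at h ⊢; omega
        · simp only [hV, mem_union, mem_RE_true, mem_LRE_true] at h ⊢; omega
      · rintro ⟨x, y, _ | _⟩ h
        · simp only [hV, mem_union, mem_RE_false] at h ⊢; omega
        · simp only [hV, mem_union, mem_RE_true] at h ⊢; omega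
      · intro x y h; simp only [DR, mem_RE_false] at h; omega
      · intro x y h; simp only [DR, mem_RE_true] at h; omega
      · intro x y h; simp only [mem_LRE_true] at h; omega
      · intro x y h; simp only [mem_LRE_false] at h; omega
    have e2 : Reach ((↑F' : Set Edg) ∩ ↑V) (x1, Y - 3 * m) (X + 26 * m, y1) := by
      refine meet_gen (p := X + 40 * m) (q := X + 44 * m) (c := y + 16 * b)
        (d := y + 16 * b + 4 * b) (by omega) (by omega)
        (V := TBE (X + 40 * m) (X + 44 * m) (Y - 3 * m) (Y + 12 * m))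
        (Hh := LRE (X + 26 * m) (X + 44 * m) (y + 16 * b) (y + 16 * b + 4 * b))
        ?_ ?_ ?_ ?_ ?_ ?_ ?_
        hs (by simp only; omega) (by simp only; omega) hc (by simp only; omega)
        (by simp only; omega)
      · rintro ⟨x, y, _ | _⟩ h
        · simp only [hV, mem_union, mem_RE_false, mem_TBE_false] at h ⊢; omega
        · simp only [hV, mem_union, mem_RE_true, mem_TBE_true] at h ⊢; omega
      · rintro ⟨x, y, _ | _⟩ h
        · simp only [hV, mem_union, mem_RE_false, mem_LRE_false] at h ⊢; omega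
        · simp only [hV, mem_union, mem_RE_true, mem_LRE_true] at h ⊢; omega
      · rintro ⟨x, y, _ | _⟩ h
        · simp only [hV, mem_union, mem_RE_false] at h ⊢; omega
        · simp only [hV, mem_union, mem_RE_true] at h ⊢; omega
      · intro x y h; simp only [mem_TBE_false] at h; omega
      · intro x y h; simp only [mem_TBE_true] at h; omega
      · intro x y h; simp only [mem_LRE_true] at h; omega
      · intro x y h; simp only [mem_LRE_false] at h; omega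
    have e3 : Reach ((↑F' : Set Edg) ∩ ↑V) (x1, Y - 3 * m) (x2, Y + 12 * m) := hs.mono (by
      rintro ⟨x, y, _ | _⟩ ⟨h0, h⟩
      · refine ⟨h0, ?_⟩
        simp only [hV, mem_coe, mem_union, mem_RE_false, mem_TBE_false] at h ⊢; omega
      · refine ⟨h0, ?_⟩
        simp only [hV, mem_coe, mem_union, mem_RE_true, mem_TBE_true] at h ⊢; omega)
    have e4 : DReach (dE V \ G) (v1, v2) (x2, Y + 12 * m) := by
      rw [← reach_dl]
      refine ((e1.trans e2.symm).trans e3).mono ?_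
      rintro e ⟨h1, h2⟩
      rw [hF', mem_coe, mem_dmp, mem_sdiff] at h1
      refine ⟨dl.symm e, ⟨?_, ?_⟩, by simp⟩
      · simp only [dE, Set.mem_ofPred_eq, Equiv.apply_symm_apply]
        exact Finset.mem_coe.1 h2
      · intro h3
        exact h1.2 ((hFG _ h1.1).2 h3)
    refine ⟨(x2, Y + 12 * m), by simp only; omega, ?_⟩
    rw [hV] at e4
    exact e4

/-! ### The long walls -/

/-- the edges of the long lower wall -/
noncomputable def WLE (X Y : ℤ) (a : ℕ) : Finset Edg :=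
  LRE (X + 40 * a) (X + 150 * a) (Y - 8 * a) (Y - 4 * a) ∪
    TBE (X + 44 * a) (X + 48 * a) (Y - 8 * a) (Y - 4 * a)

/-- the edges of the long upper wall (faces) -/
noncomputable def WUE (X Y : ℤ) (a : ℕ) : Finset Edg :=
  LRE (X + 40 * a) (X + 150 * a) (Y + 4 * a) (Y + 8 * a) ∪
    TBE (X + 44 * a) (X + 48 * a) (Y + 4 * a) (Y + 8 * a)

/-- the long lower wall as an increasing event -/
def PL (X Y : ℤ) (a : ℕ) (F : Finset Edg) : Prop :=
  LRc (X + 40 * a) (X + 150 * a) (Y - 8 * a) (Y - 4 * a) F ∧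
    TBc (X + 44 * a) (X + 48 * a) (Y - 8 * a) (Y - 4 * a) F

/-- the long upper wall as a crossing event in the dual lattice -/
def PU0 (X Y : ℤ) (a : ℕ) (H : Finset Edg) : Prop :=
  LRc (X + 40 * a) (X + 150 * a) (Y + 4 * a) (Y + 8 * a) H ∧
    TBc (X + 44 * a) (X + 48 * a) (Y + 4 * a) (Y + 8 * a) H

/-- the long upper wall -/
def PU (X Y : ℤ) (a : ℕ) (F : Finset Edg) : Prop := PU0 X Y a (dmp (RB X Y (3 * a) \ F))

theorem PL_mono {X Y : ℤ} {a : ℕ} {F G : Finset Edg} (h : ∀ e ∈ WLE X Y a, e ∈ F → e ∈ G)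
    (hF : PL X Y a F) : PL X Y a G :=
  ⟨LRc_mono' (fun e he => h e (by unfold WLE; exact mem_union_left _ he)) hF.1,
    TBc_mono' (fun e he => h e (by unfold WLE; exact mem_union_right _ he)) hF.2⟩

theorem PU_mono {X Y : ℤ} {a : ℕ} {F G : Finset Edg} (h : ∀ e, dl e ∈ WUE X Y a → e ∈ G → e ∈ F)
    (hF : PU X Y a F) : PU X Y a G := by
  refine ⟨LRc_mono' (fun e he he' => ?_) hF.1, TBc_mono' (fun e he he' => ?_) hF.2⟩
  · rw [mem_dmp, mem_sdiff] at he' ⊢
    refine ⟨he'.1, fun h' => he'.2 (h _ ?_ h')⟩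
    rw [Equiv.apply_symm_apply]; unfold WUE; exact mem_union_left _ he
  · rw [mem_dmp, mem_sdiff] at he' ⊢
    refine ⟨he'.1, fun h' => he'.2 (h _ ?_ h')⟩
    rw [Equiv.apply_symm_apply]; unfold WUE; exact mem_union_right _ he

theorem WLE_sub {X Y : ℤ} {a : ℕ} (ha : 1 ≤ a) : WLE X Y a ⊆ RB X Y (3 * a) := by
  have ha' : (1 : ℤ) ≤ a := by exact_mod_cast ha
  rintro ⟨x, y, _ | _⟩ h
  · simp only [WLE, RB, mem_union, mem_RE_false, mem_LRE_false, mem_TBE_false] at h ⊢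
    push_cast
    omega
  · simp only [WLE, RB, mem_union, mem_RE_true, mem_LRE_true, mem_TBE_true] at h ⊢
    push_cast
    omega

theorem WUE_sub {X Y : ℤ} {a : ℕ} (ha : 1 ≤ a) {e : Edg} (h : dl e ∈ WUE X Y a) :
    e ∈ RB X Y (3 * a) := by
  have ha' : (1 : ℤ) ≤ a := by exact_mod_cast ha
  obtain ⟨x, y, _ | _⟩ := e
  · simp only [WUE, RB, dl_f, mem_union, mem_RE_false, mem_LRE_true, mem_TBE_true] at h ⊢
    push_cast
    omega
  · simp only [WUE, RB, dl_t, mem_union, mem_RE_true, mem_LRE_false, mem_TBE_false] at h ⊢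
    push_cast
    omega

theorem pr_PL {X Y : ℤ} {a : ℕ} (ha : 1 ≤ a) {S : Finset Edg} (hS : WLE X Y a ⊆ S) :
    q0 ^ 8 ≤ Pr (fun _ => (1/2:ℝ)) S (PL X Y a) := by
  have ok : Ok (fun _ : Edg => (1/2:ℝ)) := okq (by norm_num) (by norm_num)
  have ha' : (1 : ℤ) ≤ a := by exact_mod_cast ha
  have s1 : q0 ^ 7 ≤ Pr (fun _ => (1/2:ℝ)) S
      (LRc (X + 40 * a) (X + 150 * a) (Y - 8 * a) (Y - 4 * a)) := by
    rw [pr_LRc _ (fun e he => hS (by unfold WLE; exact mem_union_left _ he))]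
    have e1 : X + 150 * (a : ℤ) - (X + 40 * a) = 110 * a := by ring
    have e2 : Y - 4 * (a : ℤ) - (Y - 8 * a) = 4 * a := by ring
    rw [e1, e2]
    exact hh_wide (m := 3) (by omega) (by omega) (by push_cast; omega)
  have s2 : q0 ≤ Pr (fun _ => (1/2:ℝ)) S
      (TBc (X + 44 * a) (X + 48 * a) (Y - 8 * a) (Y - 4 * a)) := by
    rw [pr_TBc _ (fun e he => hS (by unfold WLE; exact mem_union_right _ he))]
    have e1 : Y - 4 * (a : ℤ) - (Y - 8 * a) = 4 * a := by ring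
    have e2 : X + 48 * (a : ℤ) - (X + 44 * a) = 4 * a := by ring
    rw [e1, e2]
    exact (H12S.WH.main (h := 4 * a) (by omega)).trans
      (hh_mono (by norm_num) (by norm_num) (by omega) (by omega) le_rfl)
  have h2 := Pr_harris ok (S := S)
    (A := LRc (X + 40 * a) (X + 150 * a) (Y - 8 * a) (Y - 4 * a))
    (B := TBc (X + 44 * a) (X + 48 * a) (Y - 8 * a) (Y - 4 * a))
    (LRc_incr S _ _ _ _) (TBc_incr S _ _ _ _)
  rw [show (8 : ℕ) = 7 + 1 by norm_num, pow_succ]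
  exact (mul_le_mul s1 s2 q0_pos.le ((pow_nonneg q0_pos.le _).trans s1)).trans h2

theorem pr_PU {X Y : ℤ} {a : ℕ} (ha : 1 ≤ a) :
    q0 ^ 8 ≤ Pr (fun _ => (1/2:ℝ)) (RB X Y (3 * a)) (PU X Y a) := by
  have ok : Ok (fun _ : Edg => (1/2:ℝ)) := okq (by norm_num) (by norm_num)
  have ha' : (1 : ℤ) ≤ a := by exact_mod_cast ha
  obtain ⟨S, hS⟩ : ∃ S : Finset Edg, S = dmp (RB X Y (3 * a)) := ⟨_, rfl⟩
  have hsub : ∀ e, e ∈ WUE X Y a → e ∈ S := by
    intro e he
    rw [hS, mem_dmp]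
    exact WUE_sub ha (by rw [Equiv.apply_symm_apply]; exact he)
  have e := H12S.pr_dual (q := 1/2) (RB X Y (3 * a)) (PU0 X Y a)
  have e1 : (1:ℝ) - 1/2 = 1/2 := by norm_num
  rw [e1] at e
  unfold H12S.PQ at e
  have e2 : Pr (fun _ => (1/2:ℝ)) (RB X Y (3 * a)) (PU X Y a) = Pr (fun _ => (1/2:ℝ)) S
    (PU0 X Y a) := by
    rw [hS, ← e]
    rfl
  rw [e2]
  have s1 : q0 ^ 7 ≤ Pr (fun _ => (1/2:ℝ)) S
      (LRc (X + 40 * a) (X + 150 * a) (Y + 4 * a) (Y + 8 * a)) := by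
    rw [pr_LRc _ (fun e he => hsub e (by unfold WUE; exact mem_union_left _ he))]
    have e1 : X + 150 * (a : ℤ) - (X + 40 * a) = 110 * a := by ring
    have e2 : Y + 8 * (a : ℤ) - (Y + 4 * a) = 4 * a := by ring
    rw [e1, e2]
    exact hh_wide (m := 3) (by omega) (by omega) (by push_cast; omega)
  have s2 : q0 ≤ Pr (fun _ => (1/2:ℝ)) S
      (TBc (X + 44 * a) (X + 48 * a) (Y + 4 * a) (Y + 8 * a)) := by
    rw [pr_TBc _ (fun e he => hsub e (by unfold WUE; exact mem_union_right _ he))]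
    have e1 : Y + 8 * (a : ℤ) - (Y + 4 * a) = 4 * a := by ring
    have e2 : X + 48 * (a : ℤ) - (X + 44 * a) = 4 * a := by ring
    rw [e1, e2]
    exact (H12S.WH.main (h := 4 * a) (by omega)).trans
      (hh_mono (by norm_num) (by norm_num) (by omega) (by omega) le_rfl)
  have h2 := Pr_harris ok (S := S)
    (A := LRc (X + 40 * a) (X + 150 * a) (Y + 4 * a) (Y + 8 * a))
    (B := TBc (X + 44 * a) (X + 48 * a) (Y + 4 * a) (Y + 8 * a))
    (LRc_incr S _ _ _ _) (TBc_incr S _ _ _ _)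
  rw [show (8 : ℕ) = 7 + 1 by norm_num, pow_succ]
  exact (mul_le_mul s1 s2 q0_pos.le ((pow_nonneg q0_pos.le _).trans s1)).trans h2

theorem PL_long {X Y : ℤ} {a : ℕ} {F : Finset Edg} {G : Set Edg}
    (h : ∀ e ∈ WLE X Y a, e ∈ F → e ∈ G) (hF : PL X Y a F) : LongL X Y a G := by
  obtain ⟨⟨y1, y2, -, -, h1⟩, x1, x2, -, -, h2⟩ := hF
  refine ⟨⟨y1, y2, h1.mono ?_⟩, x1, x2, h2.mono ?_⟩
  · rintro e ⟨he, he'⟩
    exact ⟨h e (by unfold WLE; exact mem_union_left _ he') he, he'⟩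
  · rintro e ⟨he, he'⟩
    exact ⟨h e (by unfold WLE; exact mem_union_right _ he') he, he'⟩

theorem PU_long {X Y : ℤ} {a : ℕ} {F : Finset Edg} {G : Set Edg}
    (h : ∀ e ∈ RB X Y (3 * a), e ∈ G → e ∈ F) (hF : PU X Y a F) : LongU X Y a G := by
  have key : ∀ (S : Finset Edg) (u w : Vtx),
      Reach ((↑(dmp (RB X Y (3 * a) \ F)) : Set Edg) ∩ ↑S) u w → DReach (dE S \ G) u w := by
    intro S u w hr
    rw [← reach_dl]
    refine hr.mono ?_
    rintro e ⟨h1, h2⟩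
    rw [mem_coe, mem_dmp, mem_sdiff] at h1
    refine ⟨dl.symm e, ⟨?_, ?_⟩, by simp⟩
    · simp only [dE, Set.mem_ofPred_eq, Equiv.apply_symm_apply]
      exact Finset.mem_coe.1 h2
    · intro h3
      exact h1.2 (h _ h1.1 h3)
  obtain ⟨⟨y1, y2, -, -, h1⟩, x1, x2, -, -, h2⟩ := hF
  exact ⟨⟨y1, y2, key _ _ _ h1⟩, x1, x2, key _ _ _ h2⟩

theorem WL_WU {X Y : ℤ} {a : ℕ} (ha : 1 ≤ a) {e : Edg} (h1 : e ∈ WLE X Y a)
    (h2 : dl e ∈ WUE X Y a) : False := by
  have ha' : (1 : ℤ) ≤ a := by exact_mod_cast ha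
  obtain ⟨x, y, _ | _⟩ := e
  · simp only [WLE, WUE, dl_f, mem_union, mem_LRE_false, mem_TBE_false, mem_LRE_true,
      mem_TBE_true] at h1 h2
    omega
  · simp only [WLE, WUE, dl_t, mem_union, mem_LRE_false, mem_TBE_false, mem_LRE_true,
      mem_TBE_true] at h1 h2
    omega

section
variable {X Y : ℤ} {a b I : ℕ}

theorem NC_WU1 (hb : 1 ≤ b) (hbm : 12 * b ≤ a) (hH : HgtC a b I) :
    ∀ e ∈ EC1 (X + 80 * a) Y a b I, dl e ∉ WUE X Y a := by
  have hb' : (1 : ℤ) ≤ b := by exact_mod_cast hb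
  have hbm' : 12 * (b : ℤ) ≤ a := by exact_mod_cast hbm
  intro e he h'
  rw [mem_EC1] at he
  rcases he with ⟨i, hi, he⟩ | he
  · obtain ⟨h1, h2⟩ := yt_bd (Y := Y) hH hi
    obtain ⟨x, y, _ | _⟩ := e
    · rw [mem_LRE_false] at he
      simp only [WUE, dl_f, Finset.mem_union, mem_LRE_true, mem_TBE_true] at h'
      omega
    · rw [mem_LRE_true] at he
      simp only [WUE, dl_t, Finset.mem_union, mem_LRE_false, mem_TBE_false] at h'
      omega
  · obtain ⟨x, y, _ | _⟩ := e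
    · rw [mem_TBE_false] at he
      simp only [WUE, dl_f, Finset.mem_union, mem_LRE_true, mem_TBE_true] at h'
      omega
    · rw [mem_TBE_true] at he
      simp only [WUE, dl_t, Finset.mem_union, mem_LRE_false, mem_TBE_false] at h'
      omega

theorem NC_WL2 (hb : 1 ≤ b) (hbm : 12 * b ≤ a) (hH : HgtC a b I) :
    ∀ e ∈ EC2 (X + 80 * a) Y a b I, e ∉ WLE X Y a := by
  have hb' : (1 : ℤ) ≤ b := by exact_mod_cast hb
  have hbm' : 12 * (b : ℤ) ≤ a := by exact_mod_cast hbm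
  intro e he h'
  rw [mem_EC2] at he
  rcases he with ⟨i, hi, he⟩ | he
  · obtain ⟨h1, h2⟩ := yt_bd (Y := Y) hH hi
    obtain ⟨x, y, _ | _⟩ := e
    · rw [dl_f, mem_LRE_true] at he
      simp only [WLE, Finset.mem_union, mem_LRE_false, mem_TBE_false] at h'
      omega
    · rw [dl_t, mem_LRE_false] at he
      simp only [WLE, Finset.mem_union, mem_LRE_true, mem_TBE_true] at h'
      omega
  · obtain ⟨x, y, _ | _⟩ := e
    · rw [dl_f, mem_TBE_true] at he
      simp only [WLE, Finset.mem_union, mem_LRE_false, mem_TBE_false] at h'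
      omega
    · rw [dl_t, mem_TBE_false] at he
      simp only [WLE, Finset.mem_union, mem_LRE_true, mem_TBE_true] at h'
      omega

theorem NC_WU3 (hb : 1 ≤ b) (hbm : 12 * b ≤ a) (hH : HgtC a b I) :
    ∀ v ∈ Wc (X + 80 * a) Y a b I, ∀ e ∈ PR v b, dl e ∉ WUE X Y a := by
  have hb' : (1 : ℤ) ≤ b := by exact_mod_cast hb
  have hbm' : 12 * (b : ℤ) ≤ a := by exact_mod_cast hbm
  intro v hv e he h'
  rw [mem_Wc] at hv
  obtain ⟨-, ⟨hv1, hv2⟩, i, hi, hr1, hr2⟩ := hv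
  obtain ⟨h3, h4⟩ := yt_bd (Y := Y) hH hi
  obtain ⟨x, y, _ | _⟩ := e
  · simp only [PR, mem_RE_false] at he
    simp only [WUE, dl_f, Finset.mem_union, mem_LRE_true, mem_TBE_true] at h'
    omega
  · simp only [PR, mem_RE_true] at he
    simp only [WUE, dl_t, Finset.mem_union, mem_LRE_false, mem_TBE_false] at h'
    omega

theorem NC_WL4 (hb : 1 ≤ b) (hbm : 12 * b ≤ a) (hH : HgtC a b I) :
    ∀ v ∈ Wc (X + 80 * a) Y a b I, ∀ e, dl e ∈ DR v b → e ∉ WLE X Y a := by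
  have hb' : (1 : ℤ) ≤ b := by exact_mod_cast hb
  have hbm' : 12 * (b : ℤ) ≤ a := by exact_mod_cast hbm
  intro v hv e he h'
  rw [mem_Wc] at hv
  obtain ⟨-, ⟨hv1, hv2⟩, i, hi, hr1, hr2⟩ := hv
  obtain ⟨h3, h4⟩ := yt_bd (Y := Y) hH hi
  obtain ⟨x, y, _ | _⟩ := e
  · simp only [DR, dl_f, mem_RE_true] at he
    simp only [WLE, Finset.mem_union, mem_LRE_false, mem_TBE_false] at h'
    omega
  · simp only [DR, dl_t, mem_RE_false] at he
    simp only [WLE, Finset.mem_union, mem_LRE_true, mem_TBE_true] at h'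
    omega

end

/-- the comb together with the long walls -/
def NW (X Y : ℤ) (a b I : ℕ) (w : ℝ) (F : Finset Edg) : Prop :=
  NC (X + 80 * a) Y a b I w F ∧ (PL X Y a F ∧ PU X Y a F)

theorem NW_mono {X Y : ℤ} {a b I : ℕ} {w : ℝ} {F G : Finset Edg}
    (h1 : ∀ e ∈ EC1 (X + 80 * a) Y a b I, e ∈ F → e ∈ G)
    (h2 : ∀ e ∈ EC2 (X + 80 * a) Y a b I, e ∈ G → e ∈ F)
    (h3 : ∀ v ∈ Wc (X + 80 * a) Y a b I, ∀ e ∈ PR v b, e ∈ F → e ∈ G)
    (h4 : ∀ v ∈ Wc (X + 80 * a) Y a b I, ∀ e, dl e ∈ DR v b → e ∈ G → e ∈ F)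
    (h5 : ∀ e ∈ WLE X Y a, e ∈ F → e ∈ G) (h6 : ∀ e, dl e ∈ WUE X Y a → e ∈ G → e ∈ F)
    (h : NW X Y a b I w F) : NW X Y a b I w G :=
  ⟨NC_mono h1 h2 h3 h4 h.1, PL_mono h5 h.2.1, PU_mono h6 h.2.2⟩

theorem RB80 {X Y : ℤ} {a : ℕ} : RB (X + 80 * a) Y a ⊆ RB X Y (3 * a) := by
  unfold RB
  exact RE_sub_RE (by omega) (by push_cast; omega) (by push_cast; omega) (by push_cast; omega)

theorem pr_NW {X Y : ℤ} {a b I : ℕ} {w : ℝ} (hb : 1 ≤ b) (hbm : 12 * b ≤ a) (hH : HgtC a b I) :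
    Pr (fun _ => (1/2:ℝ)) (RB (X + 80 * a) Y a) (NC (X + 80 * a) Y a b I w) * q0 ^ 16 ≤
      Pr (fun _ => (1/2:ℝ)) (RB X Y (3 * a)) (NW X Y a b I w) := by
  classical
  have ha : 1 ≤ a := by omega
  obtain ⟨T2, hT2⟩ : ∃ T2 : Finset Edg, T2 = (RB X Y (3 * a)).filter
    (fun e => dl e ∈ WUE X Y a) := ⟨_, rfl⟩
  have mT2 : ∀ e, e ∈ T2 ↔ dl e ∈ WUE X Y a := by
    intro e
    rw [hT2, mem_filter]
    exact ⟨fun h => h.2, fun h => ⟨WUE_sub ha h, h⟩⟩
  have e1 : Pr (fun _ => (1/2:ℝ)) (RB X Y (3 * a)) (NC (X + 80 * a) Y a b I w) =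
      Pr (fun _ => (1/2:ℝ)) (RB (X + 80 * a) Y a) (NC (X + 80 * a) Y a b I w) := by
    refine Pr_local RB80 fun F _ => ⟨?_, ?_⟩
    · exact NC_mono (fun e he h => mem_inter.2 ⟨h, EC1_sub hb hbm hH he⟩)
        (fun e _ h => (mem_inter.1 h).1)
        (fun v hv e he h => mem_inter.2 ⟨h, Wc_PR hb hbm hH hv he⟩)
        (fun v _ e _ h => (mem_inter.1 h).1)
    · exact NC_mono (fun e _ h => (mem_inter.1 h).1)
        (fun e he h => mem_inter.2 ⟨h, EC2_sub hb hbm hH he⟩)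
        (fun v _ e _ h => (mem_inter.1 h).1)
        (fun v hv e he h => mem_inter.2 ⟨h, Wc_DR hb hbm hH hv he⟩)
  have key := harris_signed (p := fun _ : Edg => (1/2:ℝ)) two_ok (S := RB X Y (3 * a))
    (T₁ := WLE X Y a) (T₂ := T2) (WLE_sub ha) (by rw [hT2]; exact filter_subset _ _)
    (by
      rw [Finset.disjoint_left]
      intro e h1 h2
      exact WL_WU ha h1 ((mT2 e).1 h2))
    (N := NC (X + 80 * a) Y a b I w) (f := PL X Y a) (g := PU X Y a)
    (fun F _ => ⟨PL_mono (fun e he h => mem_inter.2 ⟨h, he⟩),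
      PL_mono (fun e _ h => (mem_inter.1 h).1)⟩)
    (fun F G h hF => PL_mono (fun e _ h' => h h') hF)
    (fun F _ => ⟨PU_mono (fun e _ h => (mem_inter.1 h).1),
      PU_mono (fun e he h => mem_inter.2 ⟨h, (mT2 e).2 he⟩)⟩)
    (fun F G h hG => PU_mono (fun e _ h' => h h') hG) (fun F G _ _ h0 h1 h2 h => by
      have f1 : ∀ e, e ∈ F → dl e ∉ WUE X Y a → e ∈ G := by
        intro e heF hc2
        by_cases hc1 : e ∈ WLE X Y a
        · exact (mem_inter.1 (h1 (mem_inter.2 ⟨heF, hc1⟩))).1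
        · have h5 : e ∈ F \ (WLE X Y a ∪ T2) := by
            rw [mem_sdiff, mem_union]
            exact ⟨heF, fun hc => hc.elim hc1 (fun h => hc2 ((mT2 e).1 h))⟩
          rw [h0] at h5
          exact (mem_sdiff.1 h5).1
      have f2 : ∀ e, e ∈ G → e ∉ WLE X Y a → e ∈ F := by
        intro e heG hc1
        by_cases hc2 : e ∈ T2
        · exact (mem_inter.1 (h2 (mem_inter.2 ⟨heG, hc2⟩))).1
        · have h5 : e ∈ G \ (WLE X Y a ∪ T2) := by
            rw [mem_sdiff, mem_union]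
            exact ⟨heG, fun hc => hc.elim hc1 hc2⟩
          rw [← h0] at h5
          exact (mem_sdiff.1 h5).1
      exact NC_mono (fun e he heF => f1 e heF (NC_WU1 hb hbm hH e he))
        (fun e he heG => f2 e heG (NC_WL2 hb hbm hH e he))
        (fun v hv e he heF => f1 e heF (NC_WU3 hb hbm hH v hv e he))
        (fun v hv e he heG => f2 e heG (NC_WL4 hb hbm hH v hv e he)) h)
  rw [e1] at key
  refine le_trans ?_ key
  refine mul_le_mul_of_nonneg_left ?_ (Pr_nonneg two_ok _ _)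
  rw [show (16 : ℕ) = 8 + 8 by norm_num, pow_add]
  have p1 := pr_PL ha (WLE_sub (X := X) (Y := Y) ha)
  exact mul_le_mul p1 (pr_PU ha) (pow_nonneg q0_pos.le _) ((pow_nonneg q0_pos.le _).trans p1)

theorem Bl_mono {X Y : ℤ} {a : ℕ} : Bl X Y a ⊆ Bl X Y (3 * a) := by
  unfold Bl
  exact RE_sub_RE (by push_cast; omega) (by push_cast; omega) (by push_cast; omega)
    (by push_cast; omega)

open Classical in
theorem Qc_loc {a : ℕ} {M : ℝ} (ha : 1 ≤ a) : LocQ (3 * a) (Qc a M) := by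
  intro A y0 X Y T F G h1 h2 h
  have ha' : (1 : ℤ) ≤ a := by exact_mod_cast ha
  obtain ⟨⟨hL, hU⟩, ⟨hLL, hUU⟩, hne, hM⟩ := h
  have hLs : ∀ s ≤ T, orb F (st0 A y0) s = orb G (st0 A y0) s := fun s hs => (orb_congr h1 hs).symm
  have hB : ∀ e ∈ Bl X Y a, (e ∈ F ↔ e ∈ G) := fun e he => h2 e (Bl_mono he)
  have hLR : ∀ e ∈ RB X Y (3 * a), (e ∈ F ↔ e ∈ G) := fun e he => h2 e (RB_Bl he)
  have c1 : BaseL A y0 X Y T a a G := by
    obtain ⟨yb, yc, hb, hc, hr, c, ⟨s, hs, rfl⟩, hr'⟩ := hL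
    refine ⟨yb, yc, hb, hc, hr.mono ?_, (orb F (st0 A y0) s).1, ⟨s, hs, by rw [hLs s hs]⟩,
      hr'.mono ?_⟩
    · rintro e ⟨he, he'⟩
      exact ⟨(hB e (HL_sub ha le_rfl (LSm_sub he'))).1 he, he'⟩
    · rintro e ⟨he, he'⟩
      exact ⟨(hB e he').1 he, he'⟩
  have c2 : BaseU A y0 X Y T a a G := by
    obtain ⟨yb, yc, hb, hc, hr, c, ⟨s, hs, rfl⟩, hr'⟩ := hU
    refine ⟨yb, yc, hb, hc, hr.mono ?_, face (orb F (st0 A y0) s), ⟨s, hs, by rw [hLs s hs]⟩,
      hr'.mono ?_⟩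
    · rintro e ⟨he, he'⟩
      exact ⟨he, fun h => he' ((hB e (dHL_sub ha le_rfl (USm_sub he))).2 h)⟩
    · rintro e ⟨he, he'⟩
      exact ⟨he, fun h => he' ((hB e he).2 h)⟩
  have c3 : LongL X Y a G := by
    obtain ⟨⟨y1, y2, hr⟩, x1, x2, hr'⟩ := hLL
    refine ⟨⟨y1, y2, hr.mono ?_⟩, x1, x2, hr'.mono ?_⟩
    · rintro e ⟨he, he'⟩
      exact ⟨(hLR e (WLE_sub ha (by unfold WLE; exact mem_union_left _ he'))).1 he, he'⟩
    · rintro e ⟨he, he'⟩
      exact ⟨(hLR e (WLE_sub ha (by unfold WLE; exact mem_union_right _ he'))).1 he, he'⟩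
  have c4 : LongU X Y a G := by
    obtain ⟨⟨y1, y2, hr⟩, x1, x2, hr'⟩ := hUU
    refine ⟨⟨y1, y2, hr.mono ?_⟩, x1, x2, hr'.mono ?_⟩
    · rintro e ⟨he, he'⟩
      exact ⟨he, fun h => he' ((hLR e (WUE_sub ha (by unfold WUE; exact mem_union_left _ he))).2 h)⟩
    · rintro e ⟨he, he'⟩
      exact ⟨he, fun h => he' ((hLR e (WUE_sub ha (by unfold WUE; exact mem_union_right _ he))).2
        h)⟩
  have c5 : ∀ v, SB (X + 80 * a) Y a F v → SB (X + 80 * a) Y a G v := by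
    rintro v ⟨⟨w, hw, hRw⟩, g, hg, hDg⟩
    refine ⟨⟨w, hw, hRw.mono ?_⟩, g, hg, hDg.mono ?_⟩
    · rintro e ⟨he, he'⟩
      refine ⟨(hLR e ?_).1 he, he'⟩
      obtain ⟨x, y, _ | _⟩ := e
      · simp only [VL, RB, mem_coe, mem_union, mem_RE_false] at he' ⊢
        push_cast
        omega
      · simp only [VL, RB, mem_coe, mem_union, mem_RE_true] at he' ⊢
        push_cast
        omega
    · rintro e ⟨he, he'⟩
      refine ⟨he, fun h => he' ((hLR e ?_).2 h)⟩
      obtain ⟨x, y, _ | _⟩ := e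
      · simp only [VU, dE, RB, Set.mem_ofPred_eq, dl_f, mem_union, mem_RE_true,
          mem_RE_false] at he ⊢
        push_cast
        omega
      · simp only [VU, dE, RB, Set.mem_ofPred_eq, dl_t, mem_union, mem_RE_true,
          mem_RE_false] at he ⊢
        push_cast
        omega
  have c6 : ((Wv (X + 80 * a) Y a).filter (SB (X + 80 * a) Y a F)).card ≤
      ((Wv (X + 80 * a) Y a).filter (SB (X + 80 * a) Y a G)).card := by
    refine Finset.card_le_card fun v hv => ?_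
    rw [mem_filter] at hv ⊢
    exact ⟨hv.1, c5 v hv.2⟩
  refine ⟨⟨c1, c2⟩, ⟨c3, c4⟩, hne.trans c6, hM.trans ?_⟩
  exact_mod_cast c6

/-- The probability of the trial. -/
theorem cont_tr {c C : ℝ} (hc : 0 < c) (hC : 0 < C) (hL : LowA c (1/4)) (hU : TwoUp C (1/4)) :
    ∃ K3 : ℝ, 1 ≤ K3 ∧ ∀ a b kk : ℕ, 1 ≤ b → b * kk ≤ a → a ≤ 2 * b * kk → 20 ≤ kk →
      1 ≤ 2 * c / 5 * (kk:ℝ) ^ (1/4 : ℝ) * (a : ℝ) ^ (7/4 : ℝ) →
      ∀ (S : Finset Edg) (A y0 : ℤ),
        TrQ S A y0 (3 * a) (Qc a (2 * c / 5 * (kk:ℝ) ^ (1/4 : ℝ) * (a : ℝ) ^ (7/4 : ℝ) - 1))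
          (Real.exp (-(K3 * (kk:ℝ) ^ 2))) := by
  classical
  obtain ⟨K, hK, hsl⟩ := slow_R hc hC hL hU
  have hlq : Real.log q0 ≤ 0 := Real.log_nonpos q0_pos.le q0_le
  refine ⟨K + 1 - 28 * Real.log q0, by linarith, ?_⟩
  intro m b kk hb hbm hm hkk hw1 S A y0 k F0 X Y T hF0 hk hst hA hBl hent hEk hkE
  have hm1 : 1 ≤ m := by
    have : 1 ≤ b * kk := Nat.mul_pos (by omega) (by omega)
    omega
  have hbm12 : 12 * b ≤ m := by
    have : 20 * b ≤ b * kk := by rw [Nat.mul_comm 20 b]; exact Nat.mul_le_mul_left _ hkk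
    omega
  have hmz : (1 : ℤ) ≤ m := by exact_mod_cast hm1
  have hbz : (1 : ℤ) ≤ b := by exact_mod_cast hb
  have hbmz : 12 * (b : ℤ) ≤ m := by exact_mod_cast hbm12
  obtain ⟨w, hw⟩ : ∃ w : ℝ, w = 2 * c / 5 * (kk:ℝ) ^ (1/4 : ℝ) * (m : ℝ) ^ (7/4 : ℝ) := ⟨_, rfl⟩
  obtain ⟨I, hI⟩ : ∃ I, I = kk / 10 := ⟨_, rfl⟩
  have hI1 : 10 * I ≤ kk := by omega
  have hH : HgtC m b I := by
    unfold HgtC
    calc 40 * b * I = 4 * (b * (10 * I)) := by ring
      _ ≤ 4 * (b * kk) := Nat.mul_le_mul_left _ (Nat.mul_le_mul_left _ hI1)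
      _ ≤ 4 * m := Nat.mul_le_mul_left _ hbm
  have hs := hsl m b kk hb hbm hm hkk (X + 80 * m) Y
  rw [← hw, ← hI] at hs
  rw [← hw]
  rw [← hw] at hw1
  -- fresh edges
  have fresh : ∀ e ∈ RB X Y (3 * m), e ∉ k := by
    intro e he hek
    have h1 := hkE e hek (RB_Bl he)
    have h2 := (exm_loc hst h1).2.1
    have h3 : X ≤ e.1 := by
      obtain ⟨x, y, _ | _⟩ := e
      · rw [RB, mem_RE_false] at he; exact he.1
      · rw [RB, mem_RE_true] at he; exact he.1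
    omega
  have hRB : RB X Y (3 * m) ⊆ S \ k := by
    intro e he
    rw [mem_sdiff]
    exact ⟨hBl (RB_Bl he), fresh e he⟩
  have e1 : Pr (fun _ => (1/2:ℝ)) (S \ k) (NW X Y m b I w) =
      Pr (fun _ => (1/2:ℝ)) (RB X Y (3 * m)) (NW X Y m b I w) := by
    refine Pr_local hRB fun F _ => ⟨?_, ?_⟩
    · exact NW_mono (fun e he h => mem_inter.2 ⟨h, RB80 (EC1_sub hb hbm12 hH he)⟩)
        (fun e _ h => (mem_inter.1 h).1)
        (fun v hv e he h => mem_inter.2 ⟨h, RB80 (Wc_PR hb hbm12 hH hv he)⟩)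
        (fun v _ e _ h => (mem_inter.1 h).1)
        (fun e he h => mem_inter.2 ⟨h, WLE_sub hm1 he⟩) (fun e _ h => (mem_inter.1 h).1)
    · exact NW_mono (fun e _ h => (mem_inter.1 h).1)
        (fun e he h => mem_inter.2 ⟨h, RB80 (EC2_sub hb hbm12 hH he)⟩)
        (fun v _ e _ h => (mem_inter.1 h).1)
        (fun v hv e he h => mem_inter.2 ⟨h, RB80 (Wc_DR hb hbm12 hH hv he)⟩)
        (fun e _ h => (mem_inter.1 h).1) (fun e he h => mem_inter.2 ⟨h, WUE_sub hm1 he⟩)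
  -- the hooks are to the left
  have hHL : ∀ e ∈ HL X Y m m, e.1 ≤ X + 56 * m := by
    rintro ⟨x, y, _ | _⟩ h
    · simp only [HL, Finset.mem_union, mem_RE_false] at h
      simp only
      omega
    · simp only [HL, Finset.mem_union, mem_RE_true] at h
      simp only
      omega
  have hHL' : ∀ e, dl e ∈ HL' X Y m m → e.1 ≤ X + 56 * m := by
    rintro ⟨x, y, _ | _⟩ h
    · simp only [HL', dl_f, Finset.mem_union, mem_RE_true] at h
      simp only
      omega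
    · simp only [HL', dl_t, Finset.mem_union, mem_RE_false] at h
      simp only
      omega
  have hR80 : ∀ e ∈ RB (X + 80 * m) Y m, X + 80 * m ≤ e.1 := by
    rintro ⟨x, y, _ | _⟩ h
    · rw [RB, mem_RE_false] at h; exact h.1
    · rw [RB, mem_RE_true] at h; exact h.1
  have hWLn : ∀ e ∈ WLE X Y m, dl e ∉ HL' X Y m m := by
    rintro ⟨x, y, _ | _⟩ h h'
    · simp only [WLE, Finset.mem_union, mem_LRE_false, mem_TBE_false] at h
      simp only [HL', dl_f, Finset.mem_union, mem_RE_true] at h'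
      omega
    · simp only [WLE, Finset.mem_union, mem_LRE_true, mem_TBE_true] at h
      simp only [HL', dl_t, Finset.mem_union, mem_RE_false] at h'
      omega
  have hWUn : ∀ e, dl e ∈ WUE X Y m → e ∉ HL X Y m m := by
    rintro ⟨x, y, _ | _⟩ h h'
    · simp only [WUE, dl_f, Finset.mem_union, mem_LRE_true, mem_TBE_true] at h
      simp only [HL, Finset.mem_union, mem_RE_false] at h'
      omega
    · simp only [WUE, dl_t, Finset.mem_union, mem_LRE_false, mem_TBE_false] at h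
      simp only [HL, Finset.mem_union, mem_RE_true] at h'
      omega
  have key := trialG (n := 1) (N := NW X Y m b I w) hm1 le_rfl (by omega) hF0 hk hst (by
      push_cast at hA
      omega)
    (Bl_mono.trans hBl) hent hEk (fun e he he' => hkE e he (Bl_mono he')) (by
      intro F G h1 h2
      have r1 : ∀ e, X + 80 * m ≤ e.1 → e ∈ F → e ∈ G := by
        intro e he heF
        by_contra hcon
        have := hHL' e (h1 e heF hcon)
        omega
      have r2 : ∀ e, X + 80 * m ≤ e.1 → e ∈ G → e ∈ F := by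
        intro e he heG
        by_contra hcon
        have := hHL e (h2 e heG hcon)
        omega
      refine NW_mono ?_ ?_ ?_ ?_ ?_ ?_
      · exact fun e he => r1 e (hR80 e (EC1_sub hb hbm12 hH he))
      · exact fun e he => r2 e (hR80 e (EC2_sub hb hbm12 hH he))
      · exact fun v hv e he => r1 e (hR80 e (Wc_PR hb hbm12 hH hv he))
      · exact fun v hv e he => r2 e (hR80 e (Wc_DR hb hbm12 hH hv he))
      · intro e he heF
        by_contra hcon
        exact hWLn e he (h1 e heF hcon)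
      · intro e he heG
        by_contra hcon
        exact hWUn e he (h2 e heG hcon))
  rw [e1] at key
  have hNW := pr_NW (X := X) (Y := Y) (w := w) hb hbm12 hH
  refine le_trans ?_ (key.trans (Pr_mono two_ok fun G hG => ?_))
  · have e2 : q0 ^ (2 * 1 + 4) * q0 ^ (2 * 1 + 4) * q0 ^ 16 =
        Real.exp (28 * Real.log q0) := by
      rw [← pow_add, ← pow_add]
      have : 28 * Real.log q0 = ((2 * 1 + 4 + (2 * 1 + 4) + 16 : ℕ) : ℝ) * Real.log q0 := by
        push_cast; ring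
      rw [this, Real.exp_nat_mul, Real.exp_log q0_pos]
    have hq : 0 ≤ q0 ^ (2 * 1 + 4) * q0 ^ (2 * 1 + 4) :=
      mul_nonneg (pow_nonneg q0_pos.le _) (pow_nonneg q0_pos.le _)
    have e3 : Real.exp (28 * Real.log q0) * Real.exp (-(K * (kk:ℝ) ^ 2)) ≤
        q0 ^ (2 * 1 + 4) * q0 ^ (2 * 1 + 4) *
          Pr (fun _ => (1/2:ℝ)) (RB X Y (3 * m)) (NW X Y m b I w) := by
      rw [← e2, mul_assoc (q0 ^ (2 * 1 + 4) * q0 ^ (2 * 1 + 4))]
      refine mul_le_mul_of_nonneg_left (le_trans ?_ hNW) hq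
      rw [mul_comm]
      exact mul_le_mul_of_nonneg_right hs (pow_nonneg q0_pos.le _)
    refine le_trans ?_ e3
    rw [← Real.exp_add]
    refine Real.exp_le_exp.mpr ?_
    have hkR : (20 : ℝ) ≤ kk := by exact_mod_cast hkk
    have hZ1 : 1 ≤ (kk:ℝ) ^ 2 := by nlinarith
    nlinarith
  · rintro ⟨⟨⟨hC, hZ⟩, hPL, hPU⟩, hBL, hBU⟩
    have hFG : ∀ e ∈ RB X Y (3 * m), (e ∈ G ↔ e ∈ (↑((F0 ∩ k) ∪ G) : Set Edg)) := by
      intro e he
      rw [Finset.mem_coe, mem_union, mem_inter]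
      exact ⟨Or.inr, fun h => h.elim (fun h => absurd h.2 (fresh e he)) id⟩
    have h5 : Zc (X + 80 * m) Y m b I G =
        (((Wc (X + 80 * m) Y m b I).filter (fun v => RA v b ↑G)).card : ℝ) := by
      unfold Zc ind
      rw [Finset.sum_boole]
    have h6 : ((Wc (X + 80 * m) Y m b I).filter (fun v => RA v b ↑G)) ⊆
        (Wv (X + 80 * m) Y m).filter (SB (X + 80 * m) Y m (↑((F0 ∩ k) ∪ G))) := by
      intro v hv
      rw [mem_filter, mem_Wc] at hv
      rw [mem_filter]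
      exact ⟨hv.1.1, sb_comb hb hbm12 hH (fun e he => hFG e (RB80 he)) hC.1 hC.2 hv.1.2 hv.2⟩
    have h7 := Finset.card_le_card h6
    have h8 : (1 : ℝ) ≤
        (((Wc (X + 80 * m) Y m b I).filter (fun v => RA v b ↑G)).card : ℝ) := by
      rw [← h5]
      exact hw1.trans hZ
    have h9 : 1 ≤ ((Wc (X + 80 * m) Y m b I).filter (fun v => RA v b ↑G)).card := by
      exact_mod_cast h8
    refine ⟨⟨hBL, hBU⟩, ⟨PL_long (fun e he h => (hFG e (WLE_sub hm1 he)).1 h) hPL,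
      PU_long (fun e he h => (hFG e he).2 h) hPU⟩, h9.trans h7, ?_⟩
    rw [sub_add_cancel]
    refine hZ.trans ?_
    rw [h5]
    exact_mod_cast h7

end Pool.Agent.R965.CS
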