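import Pool.Agent.R965.CS.Ae

/-!
Project CS: the smallest diameter of the pieces of given duration.
-/

set_option autoImplicit false
set_option linter.unusedVariables false

namespace Pool.Agent.R965.CS

open MeasureTheory Filter Topology Pool.Agent.Y995.FS Pool.Agent.Y995.HG H984N
open Pool.Agent.Y41.EV
open scoped ENNReal

/-- `h ^ (4/7) (log (1/h)) ^ (-1/14)` -/
noncomputable def chb (h : ℝ) : ℝ := h ^ (4/7 : ℝ) / Real.log (1 / h) ^ (1/14 : ℝ)

/-- duration of the slow pieces -/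
noncomputable def tj (κ K3 : ℝ) (j : ℕ) : ℝ :=
  κ * (((kB K3 j : ℕ) : ℝ) ^ (1/4 : ℝ) * (((1:ℝ)/2) ^ j) ^ (7/4 : ℝ))

theorem rpow_tend {a : ℝ} (ha : 0 < a) : Tendsto (fun h : ℝ => h ^ a) (𝓝[>] 0) (𝓝 0) := by
  have h2 : Tendsto (fun h : ℝ => h ^ a) (𝓝 0) (𝓝 (0 ^ a)) :=
    (Real.continuous_rpow_const ha.le).tendsto 0
  rw [Real.zero_rpow ha.ne'] at h2
  exact h2.mono_left nhdsWithin_le_nhds

theorem log_ge_one {h : ℝ} (h0 : 0 < h) (h1 : h ≤ Real.exp (-1)) : 1 ≤ Real.log (1 / h) := by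
  rw [one_div, Real.log_inv]
  have := Real.log_le_log h0 h1
  rw [Real.log_exp] at this
  linarith

theorem chb_pos {h : ℝ} (h0 : 0 < h) (h1 : h ≤ Real.exp (-1)) : 0 < chb h := by
  have := log_ge_one h0 h1
  unfold chb
  positivity

theorem chb_le {h : ℝ} (h0 : 0 < h) (h1 : h ≤ Real.exp (-1)) : chb h ≤ h ^ (4/7 : ℝ) := by
  unfold chb
  refine div_le_self (by positivity) ?_
  exact Real.one_le_rpow (log_ge_one h0 h1) (by norm_num)

/-- `chb` is large compared with the identity. -/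
theorem le_chb {c : ℝ} (hc : 0 < c) : ∀ᶠ h : ℝ in 𝓝[>] 0, h ≤ c * chb h := by
  filter_upwards [(rpow_tend (show (0:ℝ) < 1/3 by norm_num)).eventually
      (ge_mem_nhds (show 0 < c / 12 by positivity)),
    self_mem_nhdsWithin, (eventually_lt_nhds (Real.exp_pos (-1))).filter_mono
      nhdsWithin_le_nhds] with h h2 h0 h1'
  have h0 : 0 < h := h0
  have hle1 : h ≤ 1 := h1'.le.trans (by rw [Real.exp_le_one_iff]; norm_num)
  have hlog := log_ge_one h0 h1'.le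
  have e1 : Real.log (1 / h) ≤ (1 / h) ^ (1/12 : ℝ) / (1/12) :=
    Real.log_le_rpow_div (by positivity) (by norm_num)
  have e4 : Real.log (1 / h) ^ (1/14 : ℝ) ≤ Real.log (1 / h) := by
    have := Real.rpow_le_rpow_of_exponent_le hlog (show (1/14 : ℝ) ≤ 1 by norm_num)
    rwa [Real.rpow_one] at this
  have e5 : (1 / h) ^ (1/12 : ℝ) = h ^ (-(1/12) : ℝ) := by
    rw [one_div, Real.inv_rpow h0.le, Real.rpow_neg h0.le]
  unfold chb
  rw [← mul_div_assoc, le_div_iff₀ (by positivity)]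
  have e6 : h = h ^ (4/7 : ℝ) * h ^ (3/7 : ℝ) := by
    rw [← Real.rpow_add h0]; norm_num
  have e7 : h ^ (3/7 : ℝ) * Real.log (1 / h) ^ (1/14 : ℝ) ≤ c := by
    calc h ^ (3/7 : ℝ) * Real.log (1 / h) ^ (1/14 : ℝ) ≤
          h ^ (3/7 : ℝ) * (12 * h ^ (-(1/12) : ℝ)) := by
          refine mul_le_mul_of_nonneg_left ?_ (by positivity)
          rw [← e5]
          refine e4.trans (e1.trans (le_of_eq (by ring)))
      _ = 12 * h ^ (29/84 : ℝ) := by
          rw [mul_left_comm, ← Real.rpow_add h0]; norm_num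
      _ ≤ 12 * h ^ (1/3 : ℝ) := by
          refine mul_le_mul_of_nonneg_left ?_ (by norm_num)
          exact Real.rpow_le_rpow_of_exponent_ge h0 hle1 (by norm_num)
      _ ≤ 12 * (c / 12) := mul_le_mul_of_nonneg_left h2 (by norm_num)
      _ = c := by ring
  calc h * Real.log (1 / h) ^ (1/14 : ℝ) =
        h ^ (4/7 : ℝ) * (h ^ (3/7 : ℝ) * Real.log (1 / h) ^ (1/14 : ℝ)) := by
        rw [← mul_assoc, ← e6]
    _ ≤ h ^ (4/7 : ℝ) * c := mul_le_mul_of_nonneg_left e7 (by positivity)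
    _ = c * h ^ (4/7 : ℝ) := mul_comm _ _

/-- Lower bound for the diameters of all pieces. -/
theorem diam_low {C1 r0 : ℝ} (hC1 : 0 < C1) (hr0 : 0 < r0) {p : X} (hp : 0 < p.2)
    (hocc : ∀ r : ℝ, 0 < r → r < r0 → ∀ z : ℂ,
      p.2 * (volume {s : unitInterval | dist (p.1 s) z ≤ r}).toReal ≤
        C1 * (r ^ (7/4 : ℝ) * Real.log (1 / r) ^ (1/8 : ℝ))) :
    ∀ᶠ η : ℝ in 𝓝[>] 0, ∀ u v : unitInterval, u ≤ v → p.2 * ((v : ℝ) - u) = η →
      (min (1/2) (1 / (2 * C1))) * chb η ≤ Metric.diam (p.1 '' Set.Icc u v) := by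
  obtain ⟨c, hc⟩ : ∃ c : ℝ, c = min (1/2) (1 / (2 * C1)) := ⟨_, rfl⟩
  have hc0 : 0 < c := by rw [hc]; exact lt_min (by norm_num) (by positivity)
  have hc1 : c ≤ 1 := by
    have : c ≤ 1/2 := by rw [hc]; exact min_le_left _ _
    linarith
  have hc2 : C1 * c ≤ 1/2 := by
    have : c ≤ 1 / (2 * C1) := by rw [hc]; exact min_le_right _ _
    calc C1 * c ≤ C1 * (1 / (2 * C1)) := mul_le_mul_of_nonneg_left this hC1.le
      _ = 1/2 := by field_simp
  rw [← hc]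
  filter_upwards [le_chb hc0, self_mem_nhdsWithin, (eventually_lt_nhds
      (Real.exp_pos (-1))).filter_mono nhdsWithin_le_nhds,
    (rpow_tend (show (0:ℝ) < 4/7 by norm_num)).eventually
      (gt_mem_nhds (lt_min hr0 (Real.exp_pos (-1))))] with η h1 h2 h3 h4
  have h2 : 0 < η := h2
  intro u v huv hη
  by_contra hcon
  push Not at hcon
  have huv' : (u : ℝ) ≤ v := huv
  obtain ⟨r, hr⟩ : ∃ r, r = c * chb η := ⟨_, rfl⟩
  have hr1 : 0 < r := by rw [hr]; exact mul_pos hc0 (chb_pos h2 h3.le)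
  have hr2 : r ≤ η ^ (4/7 : ℝ) := by
    rw [hr]
    calc c * chb η ≤ 1 * η ^ (4/7 : ℝ) :=
          mul_le_mul hc1 (chb_le h2 h3.le) (chb_pos h2 h3.le).le (by norm_num)
      _ = _ := one_mul _
  have hrr : r < r0 := lt_of_le_of_lt hr2 (lt_of_lt_of_le h4 (min_le_left _ _))
  have hre : r ≤ Real.exp (-1) := (hr2.trans_lt (lt_of_lt_of_le h4 (min_le_right _ _))).le
  rw [← hr] at h1 hcon
  have hlog := log_ge_one h2 h3.le
  have hlogr := log_ge_one hr1 hre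
  have hb : Bornology.IsBounded (p.1 '' Set.Icc u v) :=
    (isCompact_Icc.image p.1.continuous).isBounded
  have hsub : Set.Icc u v ⊆ {s : unitInterval | dist (p.1 s) (p.1 u) ≤ r} := by
    intro x hx
    exact (Metric.dist_le_diam_of_mem hb ⟨x, hx, rfl⟩ ⟨u, ⟨le_rfl, huv⟩, rfl⟩).trans hcon.le
  have hvol : (v : ℝ) - u ≤ (volume {s : unitInterval | dist (p.1 s) (p.1 u) ≤ r}).toReal := by
    have g4 := ENNReal.toReal_mono (measure_ne_top _ _) (measure_mono (μ := volume) hsub)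
    rwa [unitInterval.volume_Icc, ENNReal.toReal_ofReal (by linarith)] at g4
  have h5 := hocc r hr1 hrr (p.1 u)
  have h6 : η ≤ C1 * (r ^ (7/4 : ℝ) * Real.log (1 / r) ^ (1/8 : ℝ)) := by
    rw [← hη]
    exact (mul_le_mul_of_nonneg_left hvol hp.le).trans h5
  have e1 : Real.log (1 / r) ≤ Real.log (1 / η) :=
    Real.log_le_log (by positivity) (one_div_le_one_div_of_le h2 h1)
  have e2 : r ^ (7/4 : ℝ) = c ^ (7/4 : ℝ) * (η / Real.log (1 / η) ^ (1/8 : ℝ)) := by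
    rw [hr, Real.mul_rpow hc0.le (chb_pos h2 h3.le).le]
    congr 1
    unfold chb
    rw [Real.div_rpow (by positivity) (by positivity), ← Real.rpow_mul h2.le,
      ← Real.rpow_mul (by linarith)]
    norm_num
  have e3 : c ^ (7/4 : ℝ) ≤ c := by
    have := Real.rpow_le_rpow_of_exponent_ge hc0 hc1 (show (1:ℝ) ≤ 7/4 by norm_num)
    rwa [Real.rpow_one] at this
  have e4 : r ^ (7/4 : ℝ) * Real.log (1 / r) ^ (1/8 : ℝ) ≤ c * η := by
    rw [e2]
    have a1 : Real.log (1 / r) ^ (1/8 : ℝ) ≤ Real.log (1 / η) ^ (1/8 : ℝ) :=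
      Real.rpow_le_rpow (by linarith) e1 (by norm_num)
    have a2 : 0 < Real.log (1 / η) ^ (1/8 : ℝ) := by positivity
    calc c ^ (7/4 : ℝ) * (η / Real.log (1 / η) ^ (1/8 : ℝ)) * Real.log (1 / r) ^ (1/8 : ℝ)
        ≤ c * (η / Real.log (1 / η) ^ (1/8 : ℝ)) * Real.log (1 / η) ^ (1/8 : ℝ) :=
          mul_le_mul (mul_le_mul_of_nonneg_right e3 (by positivity)) a1
            (Real.rpow_nonneg (by linarith) _) (by positivity)
      _ = c * η := by field_simp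
  have e5 : C1 * (r ^ (7/4 : ℝ) * Real.log (1 / r) ^ (1/8 : ℝ)) ≤ η / 2 := by
    calc _ ≤ C1 * (c * η) := mul_le_mul_of_nonneg_left e4 hC1.le
      _ = C1 * c * η := by ring
      _ ≤ 1/2 * η := mul_le_mul_of_nonneg_right hc2 h2.le
      _ = η / 2 := by ring
  linarith

theorem tj_tend {κ K3 : ℝ} (hκ : 0 < κ) (hK : 1 ≤ K3) : Tendsto (tj κ K3) atTop (𝓝 0) := by
  have h1 : Tendsto (fun j : ℕ => κ * ((j : ℝ) ^ 1 * ((1:ℝ)/2) ^ j)) atTop (𝓝 (κ * 0)) :=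
    (tendsto_pow_const_mul_const_pow_of_lt_one 1 (by norm_num) (by norm_num)).const_mul _
  rw [mul_zero] at h1
  refine squeeze_zero' ?_ ?_ h1
  · filter_upwards with j
    unfold tj
    positivity
  · filter_upwards [(kB_tend hK).eventually (eventually_ge_atTop 1)] with j h3
    have h3' : (1:ℝ) ≤ ((kB K3 j : ℕ) : ℝ) := by exact_mod_cast h3
    have h4 : ((kB K3 j : ℕ) : ℝ) ≤ j := by
      have := kB_sq hK j
      nlinarith
    have h5 : ((kB K3 j : ℕ) : ℝ) ^ (1/4 : ℝ) ≤ j := by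
      have := Real.rpow_le_rpow_of_exponent_le h3' (show (1/4 : ℝ) ≤ 1 by norm_num)
      rw [Real.rpow_one] at this
      exact this.trans h4
    have h6 : (((1:ℝ)/2) ^ j) ^ (7/4 : ℝ) ≤ (1/2) ^ j := by
      have := Real.rpow_le_rpow_of_exponent_ge (show (0:ℝ) < (1/2) ^ j by positivity)
        (pow_le_one₀ (by norm_num) (by norm_num)) (show (1:ℝ) ≤ 7/4 by norm_num)
      rwa [Real.rpow_one] at this
    unfold tj
    rw [pow_one]
    gcongr

/-- Comparison of the radius with `chb`. -/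
theorem chb_scale {κ K3 : ℝ} (hκ : 0 < κ) (hK : 1 ≤ K3) : ∀ᶠ j : ℕ in atTop,
    ∀ η : ℝ, tj κ K3 j < η → η ≤ Real.exp (-1) → ((1:ℝ)/2) ^ j ≤
      ((1 / κ) ^ (4/7 : ℝ) * (128 * K3) ^ (1/14 : ℝ)) * chb η := by
  obtain ⟨i1, hi1⟩ := exists_nat_gt |Real.log (1 / κ)|
  filter_upwards [eventually_ge_atTop i1, (kB_tend hK).eventually (eventually_ge_atTop 1)] with
    j hj h3 η hη hη1
  have hj1 : |Real.log (1 / κ)| < j := by
    have : (i1 : ℝ) ≤ j := by exact_mod_cast hj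
    linarith
  obtain ⟨q, hq⟩ : ∃ q : ℝ, q = ((kB K3 j : ℕ) : ℝ) := ⟨_, rfl⟩
  have hk1 : (1:ℝ) ≤ q := by rw [hq]; exact_mod_cast h3
  have hk0 : 0 < q := by linarith
  have hlek := le_kB hK h3
  rw [← hq] at hlek
  obtain ⟨w, hw⟩ : ∃ w : ℝ, w = ((1:ℝ)/2) ^ j := ⟨_, rfl⟩
  have hw0 : 0 < w := by rw [hw]; positivity
  unfold tj at hη
  rw [← hq, ← hw] at hη
  rw [← hw]
  have ht0 : 0 < κ * (q ^ (1/4 : ℝ) * w ^ (7/4 : ℝ)) := by positivity
  have hη0 : 0 < η := ht0.trans hη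
  have hlog := log_ge_one hη0 hη1
  have hq4 : 1 ≤ q ^ (1/4 : ℝ) := Real.one_le_rpow hk1 (by norm_num)
  have e1 : Real.log (1 / η) ≤ 4 * j := by
    have a1 : κ * w ^ (7/4 : ℝ) ≤ η := by
      have : w ^ (7/4 : ℝ) ≤ q ^ (1/4 : ℝ) * w ^ (7/4 : ℝ) :=
        le_mul_of_one_le_left (by positivity) hq4
      exact (mul_le_mul_of_nonneg_left this hκ.le).trans hη.le
    have a2 : Real.log (1 / η) ≤ Real.log (1 / (κ * w ^ (7/4 : ℝ))) :=
      Real.log_le_log (by positivity) (one_div_le_one_div_of_le (by positivity) a1)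
    refine a2.trans ?_
    have a3 : Real.log (1 / (κ * w ^ (7/4 : ℝ))) = Real.log (1 / κ) + 7/4 * (j * Real.log 2) := by
      rw [one_div, mul_inv, Real.log_mul (by positivity) (by positivity), ← one_div,
        Real.log_inv, Real.log_rpow hw0, hw, Real.log_pow]
      have : Real.log ((1:ℝ)/2) = -Real.log 2 := by rw [one_div, Real.log_inv]
      rw [this]
      ring
    rw [a3]
    have a4 := le_abs_self (Real.log (1 / κ))
    have a5 := Real.log_two_lt_d9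
    have a6 : (j:ℝ) * Real.log 2 ≤ j * 1 :=
      mul_le_mul_of_nonneg_left (by linarith) (Nat.cast_nonneg _)
    have a7 : (0:ℝ) ≤ j := Nat.cast_nonneg _
    linarith
  have e2 : Real.log (1 / η) ^ (1/14 : ℝ) ≤ (128 * K3) ^ (1/14 : ℝ) * q ^ (1/7 : ℝ) := by
    have a1 : (q ^ 2) ^ (1/14 : ℝ) = q ^ (1/7 : ℝ) := by
      rw [← Real.rpow_natCast, ← Real.rpow_mul hk0.le]; norm_num
    rw [← a1, ← Real.mul_rpow (by positivity) (by positivity)]
    exact Real.rpow_le_rpow (by linarith) (by linarith) (by norm_num)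
  have e3 : κ ^ (4/7 : ℝ) * (q ^ (1/7 : ℝ) * w) ≤ η ^ (4/7 : ℝ) := by
    have a1 : (κ * (q ^ (1/4 : ℝ) * w ^ (7/4 : ℝ))) ^ (4/7 : ℝ) =
        κ ^ (4/7 : ℝ) * (q ^ (1/7 : ℝ) * w) := by
      rw [Real.mul_rpow hκ.le (by positivity), Real.mul_rpow (by positivity) (by positivity),
        ← Real.rpow_mul hk0.le, ← Real.rpow_mul hw0.le]
      norm_num
    rw [← a1]
    exact Real.rpow_le_rpow ht0.le hη.le (by norm_num)
  have e5 : (1 / κ) ^ (4/7 : ℝ) * κ ^ (4/7 : ℝ) = 1 := by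
    rw [← Real.mul_rpow (by positivity) (by positivity)]
    have : 1 / κ * κ = 1 := by field_simp
    rw [this, Real.one_rpow]
  unfold chb
  rw [← mul_div_assoc, le_div_iff₀ (by positivity)]
  calc w * Real.log (1 / η) ^ (1/14 : ℝ) ≤ w * ((128 * K3) ^ (1/14 : ℝ) * q ^ (1/7 : ℝ)) :=
        mul_le_mul_of_nonneg_left e2 hw0.le
    _ = ((1 / κ) ^ (4/7 : ℝ) * κ ^ (4/7 : ℝ)) * ((128 * K3) ^ (1/14 : ℝ) * (q ^ (1/7 : ℝ) * w)) := by
        rw [e5]; ring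
    _ = ((1 / κ) ^ (4/7 : ℝ) * (128 * K3) ^ (1/14 : ℝ)) *
          (κ ^ (4/7 : ℝ) * (q ^ (1/7 : ℝ) * w)) := by ring
    _ ≤ _ := mul_le_mul_of_nonneg_left e3 (by positivity)

/-- the length of the pieces tends to zero -/
theorem ev_len {K3 A0 x : ℝ} (hK : 1 ≤ K3) (hA0 : 0 < A0) (hx : 0 < x) : ∀ᶠ j : ℕ in atTop,
    A0 * ((((1:ℝ)/2) ^ j * Real.exp (2 * (K3 * ((kB K3 j : ℕ) : ℝ) ^ 2))) ^ (7/4 : ℝ) *
      ((36 + 5 * j : ℕ) : ℝ)) < x := by
  have h1 : Tendsto (fun j : ℕ => A0 * (36 * ((2:ℝ)/3) ^ j + 5 * ((j : ℝ) ^ 1 * ((2:ℝ)/3) ^ j)))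
      atTop (𝓝 (A0 * (36 * 0 + 5 * 0))) :=
    (((tendsto_pow_atTop_nhds_zero_of_lt_one (by norm_num) (by norm_num)).const_mul _).add
      ((tendsto_pow_const_mul_const_pow_of_lt_one 1 (by norm_num) (by norm_num)).const_mul
        _)).const_mul _
  have e : A0 * (36 * 0 + 5 * 0) = (0:ℝ) := by ring
  rw [e] at h1
  filter_upwards [h1.eventually (gt_mem_nhds hx)] with j hj
  refine lt_of_le_of_lt ?_ hj
  have h2 := decB hK j
  have h3 : (((1:ℝ)/2) ^ j * Real.exp (2 * (K3 * ((kB K3 j : ℕ) : ℝ) ^ 2))) ^ (7/4 : ℝ) ≤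
      (2/3) ^ j := by
    refine (Real.rpow_le_rpow (by positivity) h2 (by norm_num)).trans ?_
    have := Real.rpow_le_rpow_of_exponent_ge (show (0:ℝ) < (2/3) ^ j by positivity)
      (pow_le_one₀ (by norm_num) (by norm_num)) (show (1:ℝ) ≤ 7/4 by norm_num)
    rwa [Real.rpow_one] at this
  refine mul_le_mul_of_nonneg_left ?_ hA0.le
  calc (((1:ℝ)/2) ^ j * Real.exp (2 * (K3 * ((kB K3 j : ℕ) : ℝ) ^ 2))) ^ (7/4 : ℝ) *
        ((36 + 5 * j : ℕ) : ℝ) ≤ (2/3) ^ j * ((36 + 5 * j : ℕ) : ℝ) :=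
        mul_le_mul_of_nonneg_right h3 (Nat.cast_nonneg _)
    _ = _ := by push_cast; ring

/-- Upper bound: there is a piece of small diameter in every arc. -/
theorem diam_up {κ K3 A0 : ℝ} (hκ : 0 < κ) (hK : 1 ≤ K3) (hA : 0 < A0) {R : Rect} {p : X}
    (hp : 0 < p.2)
    (hbad : ∀ k : ℕ, ∀ᶠ i : ℕ in atTop, p ∉ BadJ κ K3 A0 R (1 / ((k : ℝ) + 1)) i)
    (hz : volume {u : unitInterval | dep R (p.1 u) ≤ 0} = 0) {s t : unitInterval} (hst : s < t) :
    ∀ᶠ η : ℝ in 𝓝[>] 0, ∃ u v : unitInterval, s ≤ u ∧ u ≤ v ∧ v ≤ t ∧ p.2 * ((v : ℝ) - u) = η ∧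
      Metric.diam (p.1 '' Set.Icc u v) ≤
        (4 * ((1 / κ) ^ (4/7 : ℝ) * (128 * K3) ^ (1/14 : ℝ))) * chb η := by
  have hst' : (s : ℝ) < t := hst
  -- a time in the bulk
  obtain ⟨x, hx1, hx2⟩ : ∃ x ∈ Set.Ioo s t, 0 < dep R (p.1 x) := by
    by_contra hcon
    push Not at hcon
    have h1 : volume (Set.Ioo s t) ≤ 0 := by
      rw [← hz]
      exact measure_mono fun y hy => hcon y hy
    rw [unitInterval.volume_Ioo] at h1
    have h2 : ENNReal.ofReal ((t : ℝ) - s) = 0 := le_antisymm h1 bot_le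
    rw [ENNReal.ofReal_eq_zero] at h2
    linarith
  obtain ⟨k, hk⟩ := exists_nat_one_div_lt hx2
  obtain ⟨O, hO⟩ : ∃ O : Set unitInterval, O = {t | 1 / ((k : ℝ) + 1) < dep R (p.1 t)} := ⟨_, rfl⟩
  have hOo : IsOpen O := by
    rw [hO]
    exact isOpen_lt continuous_const ((Pool.Agent.Y287.EV.dep_cont' R).comp p.1.continuous)
  obtain ⟨ε, hε, hball⟩ := Metric.isOpen_iff.1 hOo x (by rw [hO]; exact hk)
  have hx1' : (x : ℝ) < t := hx1.2
  have hx0 : (s : ℝ) < x := hx1.1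
  have hx3 := x.2.1
  have ht3 := t.2.2
  obtain ⟨y, hy⟩ : ∃ y : unitInterval, (y : ℝ) = min ((x : ℝ) + ε / 2) t :=
    ⟨⟨min ((x : ℝ) + ε / 2) t, le_min (by linarith) (by linarith), (min_le_right _ _).trans ht3⟩,
      rfl⟩
  have hxy : (x : ℝ) < y := by rw [hy]; exact lt_min (by linarith) hx1'
  have hyt : (y : ℝ) ≤ t := by rw [hy]; exact min_le_right _ _
  have hdep : ∀ u : unitInterval, x ≤ u → u ≤ y → 1 / ((k : ℝ) + 1) < dep R (p.1 u) := by
    intro u hu1 hu2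
    have hu1' : (x : ℝ) ≤ u := hu1
    have hu2' : (u : ℝ) ≤ y := hu2
    have h1 : u ∈ O := by
      refine hball ?_
      rw [Metric.mem_ball, Subtype.dist_eq, Real.dist_eq, abs_of_nonneg (by linarith)]
      have : (y : ℝ) ≤ (x : ℝ) + ε / 2 := by rw [hy]; exact min_le_left _ _
      linarith
    rw [hO] at h1
    exact h1
  have hlen : 0 < p.2 * ((y : ℝ) - x) := mul_pos hp (by linarith)
  obtain ⟨j0, hj0⟩ := eventually_atTop.1 (((hbad k).and (ev_len hK hA hlen)).and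
    ((chb_scale hκ hK).and ((kB_tend hK).eventually (eventually_ge_atTop 1))))
  have htj0 : 0 < tj κ K3 j0 := by
    have h12 : (0:ℝ) < ((kB K3 j0 : ℕ) : ℝ) := by
      have : 0 < kB K3 j0 := (hj0 j0 le_rfl).2.2
      exact_mod_cast this
    unfold tj
    positivity
  filter_upwards [self_mem_nhdsWithin, (eventually_lt_nhds htj0).filter_mono nhdsWithin_le_nhds,
    (eventually_lt_nhds (Real.exp_pos (-1))).filter_mono nhdsWithin_le_nhds] with η g0 g1 g2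
  have g0 : 0 < η := g0
  -- the scale
  obtain ⟨j1, hj1⟩ := eventually_atTop.1 ((tj_tend hκ hK).eventually (gt_mem_nhds g0))
  classical
  obtain ⟨m, hm⟩ : ∃ m : ℕ, m = Nat.findGreatest (fun j => η ≤ tj κ K3 j) (max j0 j1) := ⟨_, rfl⟩
  have hm1 : η ≤ tj κ K3 m := by
    rw [hm]
    exact Nat.findGreatest_spec (P := fun j => η ≤ tj κ K3 j) (m := j0) (le_max_left _ _) g1.le
  have hm2 : j0 ≤ m := by
    rw [hm]
    exact Nat.le_findGreatest (le_max_left _ _) g1.le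
  have hm3 : tj κ K3 (m + 1) < η := by
    rcases Nat.lt_or_ge (max j0 j1) (m + 1) with h | h
    · exact hj1 _ (by omega)
    · by_contra hcon
      push Not at hcon
      exact Nat.findGreatest_is_greatest (P := fun j => η ≤ tj κ K3 j) (k := m + 1)
        (by omega) h hcon
  obtain ⟨⟨k1, k2⟩, -, -⟩ := hj0 m hm2
  obtain ⟨-, k3, -⟩ := hj0 (m + 1) (by omega)
  have hsp : SPairs p.1 p.2 ((1/2) ^ m) (tj κ K3 m) (36 + 5 * m) x y := by
    by_contra hcon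
    exact k1 ⟨x, y, hdep, k2, hcon⟩
  obtain ⟨u, v, z1, -, z3⟩ := hsp
  obtain ⟨a⟩ : Nonempty (Fin (36 + 5 * m)) := ⟨⟨0, by omega⟩⟩
  obtain ⟨b1, b2, b3⟩ := z1 a
  obtain ⟨b4, b5⟩ := z3 a
  obtain ⟨U, hU⟩ : ∃ U, U = u a := ⟨_, rfl⟩
  obtain ⟨V, hV⟩ : ∃ V, V = v a := ⟨_, rfl⟩
  rw [← hU] at b1 b2 b4 b5
  rw [← hV] at b2 b3 b4 b5
  have b1' : (x : ℝ) ≤ U := b1
  have b3' : (V : ℝ) ≤ y := b3
  have hηT : η / p.2 ≤ (V : ℝ) - U := by
    rw [div_le_iff₀ hp]; linarith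
  have hηT0 : 0 < η / p.2 := by positivity
  obtain ⟨V', hV'⟩ : ∃ V' : unitInterval, (V' : ℝ) = U + η / p.2 :=
    ⟨⟨U + η / p.2, by have := U.2.1; linarith, by have := V.2.2; linarith⟩, rfl⟩
  refine ⟨U, V', ?_, ?_, ?_, ?_, ?_⟩
  · show (s : ℝ) ≤ U
    linarith
  · show (U : ℝ) ≤ V'
    linarith
  · show (V' : ℝ) ≤ t
    linarith
  · rw [hV']; field_simp; ring
  · have h5 : p.1 '' Set.Icc U V' ⊆ Metric.closedBall (p.1 U) ((1/2) ^ m) := by
      rintro _ ⟨q, ⟨hq1, hq2⟩, rfl⟩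
      have hq2' : (q : ℝ) ≤ V' := hq2
      have h7 := b4 q
      have h8 : max U (min q V) = q := by
        rw [min_eq_left (show q ≤ V from (by show (q : ℝ) ≤ V; linarith)), max_eq_right hq1]
      rw [h8] at h7
      rw [Metric.mem_closedBall, dist_comm]
      exact h7
    have h6 := Metric.diam_mono h5 Metric.isBounded_closedBall
    have h7 := Metric.diam_closedBall (x := p.1 U) (r := ((1:ℝ)/2) ^ m) (by positivity)
    have h8 := k3 η hm3 g2.le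
    have e9 : ((1:ℝ)/2) ^ (m + 1) = (1/2) ^ m / 2 := by rw [pow_succ]; ring
    rw [e9] at h8
    linarith

end Pool.Agent.R965.CS
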