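import Pool.Agent.R965.CS.Mod
import Pool.Agent.R965.CS.Chung
import Pool.Agent.R965.EV.Top

/-!
Project CS: all inputs put together (nothing is assumed).
-/

set_option autoImplicit false

namespace Pool.Agent.R965.CS

open H974 Finset H984P H984N Pool.Agent.Y985.ME Pool.Agent.Y995.FS Pool.Agent.Y995.HG
open Pool.Agent.Y41.EV
open MeasureTheory Filter Topology
open scoped ENNReal NNReal

/-- Chung's law of the iterated logarithm at almost every time. -/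
theorem chung_top : ∃ c C : ℝ, 0 < c ∧ 0 < C ∧ ∀ R : Rect,
    (∀ δ : ℕ → ℝ, (∀ i, 0 < δ i) → Tendsto δ atTop (𝓝 0) →
      ∃ φ : ℕ → ℕ, StrictMono φ ∧ ∃ μ : ProbabilityMeasure X,
        Tendsto (fun i => R.law (δ (φ i))) atTop (𝓝 μ)) ∧
    ∀ δ : ℕ → ℝ, (∀ i, 0 < δ i) → Tendsto δ atTop (𝓝 0) → ∀ μ : ProbabilityMeasure X,
      Tendsto (fun i => R.law (δ i)) atTop (𝓝 μ) →
      ∀ᵐ p ∂(μ : Measure X), 0 < p.2 ∧ ∀ᵐ t : unitInterval,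
        (∀ᶠ h : ℝ in 𝓝[>] 0, ∀ s : unitInterval, p.2 * |(s : ℝ) - t| = h →
          ∃ x ∈ Set.uIcc s t, c * chi h < dist (p.1 x) (p.1 t)) ∧
        (∃ᶠ h : ℝ in 𝓝[>] 0, ∀ s : unitInterval, p.2 * |(s : ℝ) - t| ≤ h →
          dist (p.1 s) (p.1 t) ≤ C * chi h) := by
  obtain ⟨⟨c, hc, hL⟩, ⟨C, hC, hU⟩, C2, hC2, hA⟩ := inputs
  obtain ⟨κ, K3, A0, hκ, hK3, hA0, hlat⟩ := lat_c hc hC hL hU
  obtain ⟨l, hl, hlow⟩ := occ_lat hC hU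
  refine ⟨min 1 (1 / Cl l), 2 * (3 / κ) ^ (4/7 : ℝ) * (168 * K3) ^ (1/14 : ℝ),
    lt_min one_pos (by have := Cl_pos hl; positivity), by positivity, fun R => ?_⟩
  obtain ⟨-, h2, h3⟩ := final_of hc hC hL hU hC2 hA R
  obtain ⟨A, hA1, hlatR⟩ := hlat R
  obtain ⟨A', w0, hA', hw0, hlat'⟩ := hlow R
  refine ⟨h2, fun δ hδ hlim μ hμ => ?_⟩
  filter_upwards [h3 δ hδ hlim μ hμ, ae_typ hK3 hA0 hA1 hlatR hδ hlim hμ,
    Pool.Agent.R965.EV.zero R δ hδ hlim μ hμ, go_ae hl hA' hw0 hlat' hδ hlim hμ]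
    with p g1 g2 g3 g4
  refine ⟨g1.1, ?_⟩
  have h4 : ∀ᵐ t : unitInterval, 0 < dep R (p.1 t) := by
    rw [ae_iff]
    simp only [not_lt]
    exact g3
  filter_upwards [times_ae hl g1.1 g4, typ hκ hK3 (by linarith) g1.1 g2, h4] with t k1 k2 k3
  exact ⟨osc_low hl g1.1 k1, osc_up hκ hK3 g1.1 (k2 k3)⟩

/-- The smallest diameter of the pieces of given duration. -/
theorem mod_top (R : Rect) :
    (∀ δ : ℕ → ℝ, (∀ i, 0 < δ i) → Tendsto δ atTop (𝓝 0) →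
      ∃ φ : ℕ → ℕ, StrictMono φ ∧ ∃ μ : ProbabilityMeasure X,
        Tendsto (fun i => R.law (δ (φ i))) atTop (𝓝 μ)) ∧
    ∃ c C : ℝ, 0 < c ∧ 0 < C ∧
    ∀ δ : ℕ → ℝ, (∀ i, 0 < δ i) → Tendsto δ atTop (𝓝 0) → ∀ μ : ProbabilityMeasure X,
      Tendsto (fun i => R.law (δ i)) atTop (𝓝 μ) →
      ∀ᵐ p ∂(μ : Measure X), 0 < p.2 ∧
        (∀ᶠ h : ℝ in 𝓝[>] 0, ∀ u v : unitInterval, u ≤ v → p.2 * ((v : ℝ) - u) = h →
          c * chb h ≤ Metric.diam (p.1 '' Set.Icc u v)) ∧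
        ∀ s t : unitInterval, s < t → ∀ᶠ h : ℝ in 𝓝[>] 0, ∃ u v : unitInterval,
          s ≤ u ∧ u ≤ v ∧ v ≤ t ∧ p.2 * ((v : ℝ) - u) = h ∧
            Metric.diam (p.1 '' Set.Icc u v) ≤ C * chb h := by
  obtain ⟨⟨c, hc, hL⟩, ⟨C, hC, hU⟩, C2, hC2, hA⟩ := inputs
  obtain ⟨κ, K3, A0, hκ, hK3, hA0, hlat⟩ := lat_c hc hC hL hU
  obtain ⟨C1, hC1, hup⟩ := Pool.Agent.Y985.ME.occ_up R
  obtain ⟨-, h2, h3⟩ := final_of hc hC hL hU hC2 hA R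
  obtain ⟨A, hA1, hlatR⟩ := hlat R
  refine ⟨h2, min (1/2) (1 / (2 * C1)), 4 * ((1 / κ) ^ (4/7 : ℝ) * (128 * K3) ^ (1/14 : ℝ)),
    lt_min (by norm_num) (by positivity), by positivity, fun δ hδ hlim μ hμ => ?_⟩
  filter_upwards [h3 δ hδ hlim μ hμ, ae_all hK3 hA0 hA1 hlatR hδ hlim hμ,
    Pool.Agent.R965.EV.zero R δ hδ hlim μ hμ, hup δ hδ hlim μ hμ] with p g1 g2 g3 g4
  obtain ⟨r0, hr0, g5⟩ := g4
  exact ⟨g1.1, diam_low hC1 hr0 g1.1 g5,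
    fun s t hst => diam_up hκ hK3 (by linarith) g1.1 g2 g3 hst⟩

end Pool.Agent.R965.CS
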