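import Pool.Agent.R965.CS.Tree
import Pool.Agent.R965.CS.Ae

/-!
Project CS: the oscillation at almost every time.
-/

set_option autoImplicit false
set_option linter.unusedVariables false

namespace Pool.Agent.R965.CS

open MeasureTheory Filter Topology Pool.Agent.Y995.FS Pool.Agent.Y995.HG H984N
open Pool.Agent.Y41.EV
open scoped ENNReal

/-- duration of the slow pieces -/
noncomputable def tc (κ K3 : ℝ) (i : ℕ) : ℝ :=
  κ * (((kq K3 i : ℕ) : ℝ) ^ (1/4 : ℝ) * ww i ^ (7/4 : ℝ))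

theorem ev_small {κ K3 T : ℝ} (hκ : 0 < κ) (hK : 1 ≤ K3) (hT : 0 < T) : ∀ᶠ i : ℕ in atTop,
    12 * (T * (1/2) ^ lv (i + 1)) ≤ tc κ K3 i := by
  have h1 : Tendsto (fun i : ℕ => (12 * T) * ((1:ℝ)/2) ^ i) atTop (𝓝 ((12 * T) * 0)) :=
    half_tend.const_mul _
  rw [mul_zero] at h1
  filter_upwards [h1.eventually (ge_mem_nhds hκ),
    (kq_tend hK).eventually (eventually_ge_atTop 1)] with i h2 h3
  have h4 : ((1:ℝ)/2) ^ lv (i + 1) ≤ (1/2) ^ (7 * i ^ 2) * (1/2) ^ i := by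
    rw [← pow_add]
    refine pow_le_pow_of_le_one (by norm_num) (by norm_num) ?_
    have g1 := lv_eq i
    have g2 := lv_succ i
    omega
  have h5 : 1 ≤ ((kq K3 i : ℕ) : ℝ) ^ (1/4 : ℝ) :=
    Real.one_le_rpow (by exact_mod_cast h3) (by norm_num)
  unfold tc
  rw [ww_pow]
  have hp : (0:ℝ) < (1/2) ^ (7 * i ^ 2) := by positivity
  calc 12 * (T * (1/2) ^ lv (i + 1)) ≤ 12 * (T * ((1/2) ^ (7 * i ^ 2) * (1/2) ^ i)) := by
        gcongr
    _ = (12 * T * (1/2) ^ i) * (1/2) ^ (7 * i ^ 2) := by ring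
    _ ≤ κ * (1/2) ^ (7 * i ^ 2) := mul_le_mul_of_nonneg_right h2 hp.le
    _ ≤ κ * (((kq K3 i : ℕ) : ℝ) ^ (1/4 : ℝ) * (1/2) ^ (7 * i ^ 2)) := by
        refine mul_le_mul_of_nonneg_left ?_ hκ.le
        exact le_mul_of_one_le_left hp.le h5

/-- Almost every time in the bulk is in the middle third of infinitely many slow pieces. -/
theorem typ {κ K3 A0 : ℝ} (hκ : 0 < κ) (hK : 1 ≤ K3) (hA : 0 < A0) {R : Rect} {p : X}
    (hp : 0 < p.2)
    (hbad : ∀ k : ℕ, ∀ᶠ i : ℕ in atTop, p ∉ BadI κ K3 A0 R (1 / ((k : ℝ) + 1)) i) :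
    ∀ᵐ t : unitInterval, 0 < dep R (p.1 t) →
      ∃ᶠ i : ℕ in atTop, t ∈ Gs p.1 p.2 (ww i) (tc κ K3 i) := by
  classical
  obtain ⟨T, hT⟩ : ∃ T, T = p.2 := ⟨_, rfl⟩
  rw [← hT] at hp
  have key : ∀ k i0 : ℕ, volume {t : unitInterval | 1 / ((k : ℝ) + 1) < dep R (p.1 t) ∧
      ∀ i, i0 ≤ i → t ∉ Gs p.1 p.2 (ww i) (tc κ K3 i)} = 0 := by
    intro k i0
    obtain ⟨ρ, hρ⟩ : ∃ ρ : ℝ, ρ = 1 / ((k : ℝ) + 1) := ⟨_, rfl⟩
    have hb := hbad k
    rw [← hρ] at hb ⊢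
    obtain ⟨B, hB⟩ : ∃ B : Set unitInterval,
      B = {t | ∀ i, i0 ≤ i → t ∉ Gs p.1 p.2 (ww i) (tc κ K3 i)} := ⟨_, rfl⟩
    obtain ⟨O, hO⟩ : ∃ O : Set unitInterval, O = {t | ρ < dep R (p.1 t)} := ⟨_, rfl⟩
    have hOo : IsOpen O := by
      rw [hO]
      exact isOpen_lt continuous_const ((Pool.Agent.Y287.EV.dep_cont' R).comp p.1.continuous)
    obtain ⟨a, ha⟩ : ∃ a : ℝ, a = κ / (12 * T) := ⟨_, rfl⟩
    have ha0 : 0 < a := by rw [ha]; positivity
    have hq : ∀ᶠ i : ℕ in atTop, a / (((Nat.sqrt i : ℕ) : ℝ) + 1) ≤ 1 := by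
      obtain ⟨b, hb⟩ := exists_nat_gt a
      filter_upwards [eventually_ge_atTop (b * b)] with i hi
      have h1 : b ≤ Nat.sqrt i := Nat.le_sqrt.mpr hi
      have h2 : (b : ℝ) ≤ ((Nat.sqrt i : ℕ) : ℝ) := by exact_mod_cast h1
      rw [div_le_one (by positivity)]
      linarith
    have hall := ((((hb.and (ev_h hK hA hp)).and (ev_small hκ hK hp)).and hq).and
      ((kq_tend hK).eventually (eventually_ge_atTop 1)))
    obtain ⟨i1, hi1⟩ := eventually_atTop.1 hall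
    obtain ⟨i2, hi2⟩ : ∃ i2, i2 = max i0 i1 := ⟨_, rfl⟩
    have hsc : CScales B p.1 T lv (fun i => 14 * i + 6) NN ww (tc κ K3)
        (fun i => a / (((Nat.sqrt i : ℕ) : ℝ) + 1)) i2 O := by
      refine ⟨lv_succ, ?_, ?_, ?_, ?_, ?_, ?_⟩
      · intro j hj
        obtain ⟨⟨⟨⟨h1, h2⟩, h3⟩, h4⟩, h5⟩ := hi1 j (by omega)
        have h12 : (0:ℝ) < ((kq K3 j : ℕ) : ℝ) := by
          have : 0 < kq K3 j := h5
          exact_mod_cast this
        have := ww_pos j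
        unfold tc
        positivity
      · intro j hj
        exact (hi1 j (by omega)).1.1.2
      · intro j hj t ht
        rw [hB] at ht
        rw [hT]
        exact ht j (by omega)
      · intro j hj
        exact (hi1 j (by omega)).1.2
      · intro j hj
        have h5 := (hi1 j (by omega)).2
        have h6 := gain_ok hκ hp (K3 := K3) h5
        have hs : (0 : ℝ) < ((Nat.sqrt j : ℕ) : ℝ) + 1 := by positivity
        have e1 : a / (((Nat.sqrt j : ℕ) : ℝ) + 1) * (1/2) ^ lv j =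
            (κ / (2 * T * (((Nat.sqrt j : ℕ) : ℝ) + 1)) * (1/2) ^ lv j) / 6 := by
          rw [ha]
          field_simp
          ring
        have e2 : NN j * tc κ K3 j / (6 * T) =
            (NN j * (κ * ((kq K3 j : ℝ) ^ (1/4 : ℝ) * ww j ^ (7/4 : ℝ))) / T) / 6 := by
          unfold tc
          field_simp
        rw [e1, e2]
        linarith
      · intro j hj k' hk' hsub
        obtain ⟨⟨⟨⟨h1, h2⟩, h3⟩, h4⟩, h5⟩ := hi1 j (by omega)
        refine ⟨_, _, (Dy_Icc (by omega : k' + 1 ≤ 2 ^ lv j)).symm, ?_⟩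
        by_contra hcon
        apply h1
        refine ⟨_, _, fun u hu1 hu2 => ?_, ?_, by rw [← hT]; exact hcon⟩
        · have : u ∈ Dy (lv j) k' := by
            rw [Dy_Icc (by omega : k' + 1 ≤ 2 ^ lv j)]
            exact ⟨hu1, hu2⟩
          have := hsub this
          rw [hO] at this
          exact this
        · rw [← hT]
          refine lt_of_lt_of_eq h2 ?_
          congr 1
          change _ = ((k' + 1 : ℕ) : ℝ) / ((2 ^ lv j : ℕ) : ℝ) - (k' : ℝ) / ((2 ^ lv j : ℕ) : ℝ)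
          push_cast
          rw [one_div, inv_pow]
          field_simp
          ring
    have hnull : ∀ i, i2 ≤ i → ∀ k' < 2 ^ lv i, Dy (lv i) k' ⊆ O →
        volume (B ∩ Dy (lv i) k') = 0 := by
      intro i hi k' hk' hsub
      have h1 := fun m => crec hp hsc m i hi k' hk' hsub
      have h2 := prod_lim (a := a) (B := 1) ha0 one_pos (q := fun i =>
        a / (((Nat.sqrt i : ℕ) : ℝ) + 1)) (V := fun _ => 1) (fun _ => rfl) (i := i)
        (fun j hj => hsc.q_le j (by omega)) (fun _ => zero_le_one) (fun j => by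
          have : (1:ℝ) ≤ ((j : ℝ) + 1) ^ 4 := one_le_pow₀ (by
            have : (0:ℝ) ≤ j := Nat.cast_nonneg j
            linarith)
          linarith)
      simp only [mul_one] at h2
      have h3 : Tendsto (fun m : ℕ => ENNReal.ofReal ((∏ j ∈ Finset.range m,
          (1 - a / (((Nat.sqrt (i + j) : ℕ) : ℝ) + 1))) * (1/2) ^ lv i)) atTop
          (𝓝 (ENNReal.ofReal (0 * (1/2) ^ lv i))) :=
        ENNReal.tendsto_ofReal (h2.mul_const _)
      rw [zero_mul, ENNReal.ofReal_zero] at h3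
      exact le_antisymm (ge_of_tendsto' h3 h1) bot_le
    have hcov : {t : unitInterval | ρ < dep R (p.1 t) ∧
        ∀ i, i0 ≤ i → t ∉ Gs p.1 p.2 (ww i) (tc κ K3 i)} ⊆
        ⋃ (x : ℕ × ℕ) (_ : i2 ≤ x.1 ∧ x.2 < 2 ^ lv x.1 ∧ Dy (lv x.1) x.2 ⊆ O),
          B ∩ Dy (lv x.1) x.2 := by
      rintro t ⟨ht1, ht2⟩
      have htO : t ∈ O := by rw [hO]; exact ht1
      obtain ⟨ε, hε, hball⟩ := Metric.isOpen_iff.1 hOo t htO
      have h1 : ∀ᶠ i : ℕ in atTop, 1 * ((1:ℝ)/2) ^ lv i < ε :=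
        (h_tend 1).eventually (gt_mem_nhds hε)
      obtain ⟨i, hi1', hi2'⟩ := (h1.and (eventually_ge_atTop i2)).exists
      obtain ⟨k', hk', hk2⟩ := Dy_all (lv i) t
      simp only [Set.mem_iUnion]
      refine ⟨(i, k'), ⟨hi2', hk', fun u hu => hball ?_⟩, ?_, hk2⟩
      · rw [Metric.mem_ball, Subtype.dist_eq, Real.dist_eq]
        have := Dy_dist hu hk2
        linarith
      · rw [hB]; exact ht2
    refine measure_mono_null hcov (measure_iUnion_null fun x => measure_iUnion_null fun hx => ?_)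
    exact hnull x.1 hx.1 x.2 hx.2.1 hx.2.2
  rw [ae_iff]
  refine measure_mono_null (t := ⋃ (k : ℕ) (i0 : ℕ), {t : unitInterval |
    1 / ((k : ℝ) + 1) < dep R (p.1 t) ∧
      ∀ i, i0 ≤ i → t ∉ Gs p.1 p.2 (ww i) (tc κ K3 i)}) ?_
    (measure_iUnion_null fun k => measure_iUnion_null fun i0 => key k i0)
  intro t ht
  simp only [Set.mem_ofPred_eq, Classical.not_imp, not_frequently] at ht
  obtain ⟨h1, h2⟩ := ht
  obtain ⟨k, hk⟩ := exists_nat_one_div_lt h1
  rw [eventually_atTop] at h2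
  obtain ⟨i0, hi0⟩ := h2
  simp only [Set.mem_iUnion]
  exact ⟨k, i0, hk, hi0⟩

end Pool.Agent.R965.CS
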